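import Pool.Agent.Hhelper24.JT.Bidual

/-!
# The bidual of the James tree space is not primary
-/

set_option autoImplicit false
set_option maxSynthPendingDepth 3

open scoped ENNReal Topology InnerProductSpace
open Filter

namespace Pool.Agent.Hhelper24.JT

open Node

/-- Primary Banach spaces: infinite-dimensional, and in every decomposition into two closed
subspaces one of the summands is isomorphic to the whole space. -/
def IsPrimary (𝕜 : Type*) [RCLike 𝕜] (X : Type*) [NormedAddCommGroup X] [NormedSpace 𝕜 X] :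
    Prop :=
  ¬ FiniteDimensional 𝕜 X ∧
    ∀ Y Z : Submodule 𝕜 X, IsClosed (Y : Set X) → IsClosed (Z : Set X) → IsCompl Y Z →
      Nonempty (Y ≃L[𝕜] X) ∨ Nonempty (Z ≃L[𝕜] X)

section general

variable {𝕜 : Type*} [RCLike 𝕜]

lemma exists_bdd_below {E X : Type*} [NormedAddCommGroup E] [NormedSpace 𝕜 E]
    [NormedAddCommGroup X] [NormedSpace 𝕜 X] (Z : Submodule 𝕜 E) (e : Z ≃L[𝕜] E)
    (i : X →L[𝕜] E) (hi : ∀ x, ‖x‖ ≤ ‖i x‖) :
    ∃ (Φ : X →L[𝕜] E) (C : ℝ), 0 ≤ C ∧ (∀ x, Φ x ∈ Z) ∧ ∀ x, ‖x‖ ≤ C * ‖Φ x‖ := by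
  refine ⟨Z.subtypeL.comp ((e.symm : E →L[𝕜] Z).comp i), ‖(e : Z →L[𝕜] E)‖, norm_nonneg _,
    fun x => ?_, fun x => ?_⟩
  · exact (e.symm (i x)).2
  · calc ‖x‖ ≤ ‖i x‖ := hi x
      _ = ‖e (e.symm (i x))‖ := by rw [ContinuousLinearEquiv.apply_symm_apply]
      _ ≤ ‖(e : Z →L[𝕜] E)‖ * ‖e.symm (i x)‖ := (e : Z →L[𝕜] E).le_opNorm _
      _ = _ := rfl

/-- Hilbert spaces are reflexive. -/
lemma hilbert_reflexive {H : Type*} [NormedAddCommGroup H] [InnerProductSpace 𝕜 H]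
    [CompleteSpace H] (G : (H →L[𝕜] 𝕜) →L[𝕜] 𝕜) : ∃ h : H, ∀ g : H →L[𝕜] 𝕜, G g = g h := by
  let φ : H →L[𝕜] 𝕜 := LinearMap.mkContinuous
    { toFun := fun k => starRingEnd 𝕜 (G (InnerProductSpace.toDual 𝕜 H k))
      map_add' := fun x y => by simp
      map_smul' := fun c x => by
        rw [map_smulₛₗ, map_smul, smul_eq_mul, map_mul, RCLike.conj_conj, RingHom.id_apply,
          smul_eq_mul] } ‖G‖ (fun k => by
        have h1 := G.le_opNorm (InnerProductSpace.toDual 𝕜 H k)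
        rw [LinearIsometryEquiv.norm_map] at h1
        simpa using h1)
  have hφ : ∀ k, φ k = starRingEnd 𝕜 (G (InnerProductSpace.toDual 𝕜 H k)) := fun _ => rfl
  refine ⟨(InnerProductSpace.toDual 𝕜 H).symm φ, fun g => ?_⟩
  obtain ⟨k, rfl⟩ := (InnerProductSpace.toDual 𝕜 H).surjective g
  have h1 : φ k = ⟪(InnerProductSpace.toDual 𝕜 H).symm φ, k⟫_𝕜 :=
    (InnerProductSpace.toDual_symm_apply).symm
  rw [InnerProductSpace.toDual_apply_apply, ← inner_conj_symm, ← h1, hφ, RCLike.conj_conj]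

/-- A Banach space which embeds in a Hilbert space is reflexive. -/
lemma reflexive_of_bdd_below {X H : Type*} [NormedAddCommGroup X] [NormedSpace 𝕜 X]
    [CompleteSpace X] [NormedAddCommGroup H] [InnerProductSpace 𝕜 H] [CompleteSpace H]
    (T : X →L[𝕜] H) (C : ℝ) (hC : 0 ≤ C) (hT : ∀ x, ‖x‖ ≤ C * ‖T x‖)
    (F : (X →L[𝕜] 𝕜) →L[𝕜] 𝕜) : ∃ x : X, ∀ f : X →L[𝕜] 𝕜, F f = f x := by
  have hanti : AntilipschitzWith ⟨C, hC⟩ T := by
    refine AntilipschitzWith.of_le_mul_dist fun x y => ?_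
    rw [dist_eq_norm, dist_eq_norm, ← map_sub]
    exact hT _
  have hclo : IsClosed (Set.range T) := hanti.isClosed_range T.uniformContinuous
  have e := T.equivRange hanti.injective hclo
  have hc : CompleteSpace T.range := by
    have : IsClosed (T.range : Set H) := hclo
    exact this.completeSpace_coe
  let G : (T.range →L[𝕜] 𝕜) →L[𝕜] 𝕜 := F.comp
    ((ContinuousLinearMap.compL 𝕜 X T.range 𝕜).flip (e : X →L[𝕜] T.range))
  obtain ⟨h, hh⟩ := hilbert_reflexive (H := T.range) G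
  refine ⟨e.symm h, fun f => ?_⟩
  have h1 := hh (f.comp (e.symm : T.range →L[𝕜] X))
  have h2 : G (f.comp (e.symm : T.range →L[𝕜] X)) = F f := by
    change F ((f.comp (e.symm : T.range →L[𝕜] X)).comp (e : X →L[𝕜] T.range)) = F f
    congr 1
    ext x
    simp
  rw [← h2, h1]
  rfl

end general

variable {𝕜 : Type*} [RCLike 𝕜]

lemma norm_gf_le (b : ℕ → ℕ) (n : ℕ) : ‖(gf b n : JX 𝕜 →L[𝕜] 𝕜)‖ ≤ 1 :=
  ContinuousLinearMap.opNorm_le_bound _ zero_le_one fun x => by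
    rw [one_mul]
    exact norm_ulim_le fun m => norm_sum_br_le b n m x

/-- The bidual is not separable. -/
lemma not_separable (h : JX 𝕜 → ((JX 𝕜 →L[𝕜] 𝕜) →L[𝕜] 𝕜)) (hc : Continuous h)
    (hs : Function.Surjective h) : False := by
  have h1 : ∀ b : ℕ → ℕ, ∃ n : ℕ,
      ‖(Om b : (JX 𝕜 →L[𝕜] 𝕜) →L[𝕜] 𝕜) - h (TopologicalSpace.denseSeq (JX 𝕜) n)‖ < 1 / 2 := by
    intro b
    have hd : DenseRange (h ∘ TopologicalSpace.denseSeq (JX 𝕜)) :=
      hs.denseRange.comp (TopologicalSpace.denseRange_denseSeq _) hc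
    obtain ⟨n, hn⟩ := hd.exists_dist_lt (Om b : (JX 𝕜 →L[𝕜] 𝕜) →L[𝕜] 𝕜)
      (show (0:ℝ) < 1 / 2 by norm_num)
    refine ⟨n, ?_⟩
    rw [← dist_eq_norm]
    exact hn
  choose N hN using h1
  have hinj : Function.Injective N := by
    intro b b' hbb
    by_contra hne
    obtain ⟨G, hG⟩ : ∃ G : (JX 𝕜 →L[𝕜] 𝕜) →L[𝕜] 𝕜, G = Om b - Om b' := ⟨_, rfl⟩
    have h2 : ‖G‖ < 1 := by
      have h3 := hN b
      have h4 := hN b'
      rw [← hbb, norm_sub_rev] at h4
      have h5 : G =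
          (Om b - h (TopologicalSpace.denseSeq (JX 𝕜) (N b))) +
          (h (TopologicalSpace.denseSeq (JX 𝕜) (N b)) - Om b') := by rw [hG]; abel
      rw [h5]
      refine (norm_add_le _ _).trans_lt ?_
      linarith
    have h3 : G (gf b 0) = 1 := by
      rw [hG, _root_.sub_apply, Om_gf_self, Om_gf_ne hne, sub_zero]
    have h4 := G.le_opNorm (gf b 0)
    rw [h3, norm_one] at h4
    have h5 := norm_gf_le (𝕜 := 𝕜) b 0
    nlinarith [norm_nonneg G]
  classical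
  refine Function.cantor_injective (fun A : Set ℕ => N (fun k => if k ∈ A then 1 else 0)) ?_
  intro A B hAB
  have h2 := hinj hAB
  ext k
  have h3 := congrFun h2 k
  by_cases hA : k ∈ A <;> by_cases hB : k ∈ B <;> simp_all

/-- The space does not embed into the kernel of the projection of the bidual. -/
lemma not_embed (Φ : JX 𝕜 →L[𝕜] ((JX 𝕜 →L[𝕜] 𝕜) →L[𝕜] 𝕜)) (C : ℝ) (hC : 0 ≤ C)
    (h1 : ∀ x t, Φ x (δ t) = 0) (h2 : ∀ x, ‖x‖ ≤ C * ‖Φ x‖) : False := by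
  have hsum : ∀ (D : Finset (ℕ → ℕ)) (x : JX 𝕜),
      ∑ b ∈ D, ‖Φ x (gf b 0)‖ ^ 2 ≤ (‖Φ‖ * ‖x‖) ^ 2 := by
    intro D x
    refine (sum_apply_gf_sq_le (h1 x) D).trans ?_
    exact pow_le_pow_left₀ (norm_nonneg _) (Φ.le_opNorm x) 2
  let T : JX 𝕜 →L[𝕜] lp (fun _ : (ℕ → ℕ) => 𝕜) 2 :=
    toL2 (E := JX 𝕜) (ι := ℕ → ℕ) (fun b =>
      { toFun := fun x => Φ x (gf b 0)
        map_add' := fun x y => by rw [map_add]; rfl
        map_smul' := fun c x => by rw [map_smul]; rfl }) ‖Φ‖ (norm_nonneg _) hsum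
  have hT : ∀ x b, T x b = Φ x (gf b 0) := fun _ _ => rfl
  have h3 : ∀ x, ‖x‖ ≤ C * ‖T x‖ := by
    intro x
    refine (h2 x).trans (mul_le_mul_of_nonneg_left ?_ hC)
    refine norm_le_of_gf (h1 x) (norm_nonneg _) fun D => ?_
    simp only [← hT]
    exact sum_sq_le_lp (T x) D
  obtain ⟨x, hx⟩ := reflexive_of_bdd_below T C hC h3 (Om (fun _ => 0))
  have h4 : x = 0 := by
    apply JX.ext
    intro t
    have := hx (δ t)
    rw [Om_δ, δ_apply] at this
    exact this.symm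
  have h5 := hx (gf (fun _ => 0) 0)
  rw [Om_gf_self, h4, map_zero] at h5
  exact one_ne_zero h5

/-- The canonical embedding into the bidual. -/
noncomputable def iota : JX 𝕜 →L[𝕜] ((JX 𝕜 →L[𝕜] 𝕜) →L[𝕜] 𝕜) :=
  NormedSpace.inclusionInDoubleDual 𝕜 (JX 𝕜)

lemma iota_apply (x : JX 𝕜) (f : JX 𝕜 →L[𝕜] 𝕜) : iota x f = f x := rfl

lemma norm_iota (x : JX 𝕜) : ‖iota x‖ = ‖x‖ :=
  (NormedSpace.inclusionInDoubleDualLi 𝕜 (E := JX 𝕜)).norm_map x

lemma piX_iota (x : JX 𝕜) : piX (iota x) = x := by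
  apply JX.ext
  intro t
  rw [piX_apply, iota_apply, δ_apply]

/-- The image of the space in the bidual. -/
def Ysub : Submodule 𝕜 ((JX 𝕜 →L[𝕜] 𝕜) →L[𝕜] 𝕜) where
  carrier := {F | iota (piX F) = F}
  zero_mem' := by
    change iota (piX 0) = 0
    rw [map_zero, map_zero]
  add_mem' := fun {F G} hF hG => by
    change iota (piX (F + G)) = F + G
    rw [map_add, map_add, show iota (piX F) = F from hF, show iota (piX G) = G from hG]
  smul_mem' := fun c F hF => by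
    change iota (piX (c • F)) = c • F
    rw [map_smul, map_smul, show iota (piX F) = F from hF]

/-- The kernel of the projection of the bidual. -/
def Zsub : Submodule 𝕜 ((JX 𝕜 →L[𝕜] 𝕜) →L[𝕜] 𝕜) where
  carrier := {F | piX F = 0}
  zero_mem' := map_zero piX
  add_mem' := fun {F G} hF hG => by
    change piX (F + G) = 0
    rw [map_add, show piX F = 0 from hF, show piX G = 0 from hG, add_zero]
  smul_mem' := fun c F hF => by
    change piX (c • F) = 0
    rw [map_smul, show piX F = 0 from hF, smul_zero]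

lemma isCompl_YZ : IsCompl (Ysub (𝕜 := 𝕜)) Zsub := by
  constructor
  · rw [Submodule.disjoint_def]
    intro F hF hF'
    have h1 : iota (piX F) = F := hF
    have h2 : piX F = 0 := hF'
    rw [← h1, h2, map_zero]
  · rw [codisjoint_iff, Submodule.eq_top_iff']
    intro F
    rw [Submodule.mem_sup]
    refine ⟨iota (piX F), ?_, F - iota (piX F), ?_, by abel⟩
    · change iota (piX (iota (piX F))) = iota (piX F)
      rw [piX_iota]
    · change piX (F - iota (piX F)) = 0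
      rw [map_sub, piX_iota, sub_self]

/-- The bidual of the space is not primary. -/
theorem not_isPrimary_bidual :
    ¬ IsPrimary 𝕜 ((JX 𝕜 →L[𝕜] 𝕜) →L[𝕜] 𝕜) := by
  intro hP
  have hY : IsClosed ((Ysub : Submodule 𝕜 ((JX 𝕜 →L[𝕜] 𝕜) →L[𝕜] 𝕜)) :
      Set ((JX 𝕜 →L[𝕜] 𝕜) →L[𝕜] 𝕜)) :=
    isClosed_eq (iota.continuous.comp piX.continuous) continuous_id
  have hZ : IsClosed ((Zsub : Submodule 𝕜 ((JX 𝕜 →L[𝕜] 𝕜) →L[𝕜] 𝕜)) :
      Set ((JX 𝕜 →L[𝕜] 𝕜) →L[𝕜] 𝕜)) :=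
    isClosed_eq piX.continuous continuous_const
  rcases hP.2 Ysub Zsub hY hZ isCompl_YZ with ⟨⟨e⟩⟩ | ⟨⟨e⟩⟩
  · refine not_separable (𝕜 := 𝕜) (fun x => e ⟨iota x, ?_⟩) ?_ ?_
    · change iota (piX (iota x)) = iota x
      rw [piX_iota]
    · exact e.continuous.comp (iota.continuous.subtype_mk _)
    · intro F
      refine ⟨piX (e.symm F).1, ?_⟩
      have h1 : iota (piX (e.symm F).1) = (e.symm F).1 := (e.symm F).2
      have h2 : (⟨iota (piX (e.symm F).1), by rw [h1]; exact (e.symm F).2⟩ :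
          Ysub (𝕜 := 𝕜)) = e.symm F := Subtype.ext h1
      change e ⟨iota (piX (e.symm F).1), _⟩ = F
      rw [h2, ContinuousLinearEquiv.apply_symm_apply]
  · obtain ⟨Φ, C, hC, h1, h2⟩ := exists_bdd_below
      (E := (JX 𝕜 →L[𝕜] 𝕜) →L[𝕜] 𝕜) (X := JX 𝕜) Zsub e iota (fun x => (norm_iota x).ge)
    refine not_embed Φ C hC (fun x t => ?_) h2
    have h3 : piX (Φ x) = 0 := h1 x
    rw [← piX_apply, h3]
    rfl

end Pool.Agent.Hhelper24.JT
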