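import Pool.Agent.Hhelper24.JT.Copies
import Pool.Agent.Hhelper24.JT.NotPrimary

/-!
# Absorption of complemented subspaces
-/

set_option autoImplicit false
set_option maxSynthPendingDepth 3

open scoped ENNReal Topology
open Filter

namespace Pool.Agent.Hhelper24.JT

open Node

variable {𝕜 : Type*} [RCLike 𝕜]

section absorb

variable (P Q : JX 𝕜 →L[𝕜] JX 𝕜)

lemma V_a (n : ℕ) (x : JX 𝕜) :
    V n (Sb (amp P x) + amp Q x) = P (V (n + 1) x) + Q (V n x) := by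
  rw [map_add, V_Sb, V_amp, V_amp]

lemma V_b_zero (x y : JX 𝕜) :
    V 0 (Sf (amp P x) + amp Q x + Uf y) = Q (V 0 x) + y := by
  rw [map_add, map_add, V_Sf_zero, V_amp, V_Uf_zero, zero_add]

lemma V_b_succ (n : ℕ) (x y : JX 𝕜) :
    V (n + 1) (Sf (amp P x) + amp Q x + Uf y) = P (V n x) + Q (V (n + 1) x) := by
  rw [map_add, map_add, V_Sf_succ, V_amp, V_amp, V_Uf_succ, add_zero]

lemma absorb_one (hPP : ∀ x, P (P x) = P x) (hPQ : ∀ x, P (Q x) = 0) (hQP : ∀ x, Q (P x) = 0)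
    (hQQ : ∀ x, Q (Q x) = Q x) (hadd : ∀ x, P x + Q x = x) (x : JX 𝕜) :
    Sf (amp P (Sb (amp P x) + amp Q x)) + amp Q (Sb (amp P x) + amp Q x) + Uf (P (V 0 x)) = x := by
  apply ext_V
  intro n
  cases n with
  | zero => rw [V_b_zero, V_a, map_add, hQP, hQQ, zero_add, add_comm, hadd]
  | succ n =>
    rw [V_b_succ, V_a, V_a, map_add, map_add, hPP, hPQ, hQP, hQQ, add_zero, zero_add, hadd]

lemma absorb_two (hPP : ∀ x, P (P x) = P x) (hPQ : ∀ x, P (Q x) = 0) (hQP : ∀ x, Q (P x) = 0)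
    (hQQ : ∀ x, Q (Q x) = Q x) (hadd : ∀ x, P x + Q x = x) (x y : JX 𝕜) (hy : P y = y) :
    Sb (amp P (Sf (amp P x) + amp Q x + Uf y)) + amp Q (Sf (amp P x) + amp Q x + Uf y) = x := by
  have hQy : Q y = 0 := by rw [← hy, hQP]
  apply ext_V
  intro n
  rw [V_a, V_b_succ, map_add, hPP, hPQ, add_zero]
  cases n with
  | zero => rw [V_b_zero, map_add, hQQ, hQy, add_zero, hadd]
  | succ n => rw [V_b_succ, map_add, hQP, hQQ, zero_add, hadd]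

end absorb

/-- Absorption of complemented subspaces. -/
lemma absorb (Y : Submodule 𝕜 (JX 𝕜)) (p : JX 𝕜 →L[𝕜] Y) (hp : ∀ y : Y, p y = y) :
    Nonempty (JX 𝕜 ≃L[𝕜] JX 𝕜 × Y) := by
  obtain ⟨P, hP⟩ : ∃ P : JX 𝕜 →L[𝕜] JX 𝕜, ∀ x, P x = (p x : JX 𝕜) := ⟨Y.subtypeL.comp p, fun _ => rfl⟩
  obtain ⟨Q, hQ⟩ : ∃ Q : JX 𝕜 →L[𝕜] JX 𝕜, ∀ x, Q x = x - P x := ⟨1 - P, fun _ => rfl⟩
  have hPP : ∀ x, P (P x) = P x := fun x => by
    rw [hP (P x), hP x, hp]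
  have hPY : ∀ y : Y, P y = y := fun y => by
    rw [hP, hp]
  have hPQ : ∀ x, P (Q x) = 0 := fun x => by rw [hQ, map_sub, hPP, sub_self]
  have hQP : ∀ x, Q (P x) = 0 := fun x => by rw [hQ, hPP, sub_self]
  have hQQ : ∀ x, Q (Q x) = Q x := fun x => by rw [hQ (Q x), hPQ, sub_zero]
  have hadd : ∀ x, P x + Q x = x := fun x => by rw [hQ, add_sub_cancel]
  have hpQ : ∀ x, p (Q x) = 0 := fun x => by
    apply Subtype.ext
    rw [← hP, hPQ]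
    rfl
  refine ⟨ContinuousLinearEquiv.equivOfInverse ((Sb.comp (amp P) + amp Q).prod (p.comp (V 0)))
    ((Sf.comp (amp P) + amp Q).comp (ContinuousLinearMap.fst 𝕜 (JX 𝕜) Y) +
      (Uf.comp Y.subtypeL).comp (ContinuousLinearMap.snd 𝕜 (JX 𝕜) Y)) ?_ ?_⟩
  · intro x
    change Sf (amp P (Sb (amp P x) + amp Q x)) + amp Q (Sb (amp P x) + amp Q x) +
      Uf (p (V 0 x) : JX 𝕜) = x
    rw [← hP]
    exact absorb_one P Q hPP hPQ hQP hQQ hadd x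
  · rintro ⟨x, y⟩
    change (Sb (amp P (Sf (amp P x) + amp Q x + Uf (y : JX 𝕜))) +
      amp Q (Sf (amp P x) + amp Q x + Uf (y : JX 𝕜)),
      p (V 0 (Sf (amp P x) + amp Q x + Uf (y : JX 𝕜)))) = (x, y)
    rw [absorb_two P Q hPP hPQ hQP hQQ hadd x y (hPY y), V_b_zero, map_add, hpQ, hp, zero_add]

end Pool.Agent.Hhelper24.JT
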