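import Pool.Agent.Hhelper24.JT.Limits

/-!
# The bidual of the James tree space
-/

set_option autoImplicit false

open scoped ENNReal Topology
open Filter

namespace Pool.Agent.Hhelper24.JT

open Node

variable {𝕜 : Type*} [RCLike 𝕜]

/-- Cauchy–Schwarz for finite sums. -/
lemma norm_sum_mul_sq_le {ι : Type*} (s : Finset ι) (a b : ι → 𝕜) :
    ‖∑ i ∈ s, a i * b i‖ ^ 2 ≤ (∑ i ∈ s, ‖a i‖ ^ 2) * ∑ i ∈ s, ‖b i‖ ^ 2 := by
  calc ‖∑ i ∈ s, a i * b i‖ ^ 2 ≤ (∑ i ∈ s, ‖a i‖ * ‖b i‖) ^ 2 := by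
        refine pow_le_pow_left₀ (norm_nonneg _) ?_ 2
        refine (norm_sum_le _ _).trans (le_of_eq ?_)
        exact Finset.sum_congr rfl fun i _ => norm_mul _ _
    _ ≤ _ := Finset.sum_mul_sq_le_sq_mul_sq s _ _

section general

variable {E : Type*} [NormedAddCommGroup E] [NormedSpace 𝕜 E]

lemma norm_comb_sq_le {ι : Type*} (s : Finset ι) (φ : ι → E →L[𝕜] 𝕜)
    (h : ∀ x, ∑ i ∈ s, ‖φ i x‖ ^ 2 ≤ ‖x‖ ^ 2) (c : ι → 𝕜) :
    ‖∑ i ∈ s, c i • φ i‖ ^ 2 ≤ ∑ i ∈ s, ‖c i‖ ^ 2 := by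
  have h0 : 0 ≤ ∑ i ∈ s, ‖c i‖ ^ 2 := Finset.sum_nonneg fun _ _ => sq_nonneg _
  have h1 : ‖∑ i ∈ s, c i • φ i‖ ≤ Real.sqrt (∑ i ∈ s, ‖c i‖ ^ 2) := by
    refine ContinuousLinearMap.opNorm_le_bound _ (Real.sqrt_nonneg _) fun x => ?_
    refine le_of_sq_le_sq ?_ (by positivity)
    rw [mul_pow, Real.sq_sqrt h0, _root_.sum_apply]
    have h2 : ∑ i ∈ s, (c i • φ i) x = ∑ i ∈ s, c i * φ i x := rfl
    rw [h2]
    exact (norm_sum_mul_sq_le s c fun i => φ i x).trans (mul_le_mul_of_nonneg_left (h x) h0)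
  have := pow_le_pow_left₀ (norm_nonneg _) h1 2
  rwa [Real.sq_sqrt h0] at this

lemma bidual_est {ι : Type*} (s : Finset ι) (φ : ι → E →L[𝕜] 𝕜)
    (h : ∀ x, ∑ i ∈ s, ‖φ i x‖ ^ 2 ≤ ‖x‖ ^ 2) (F : (E →L[𝕜] 𝕜) →L[𝕜] 𝕜) :
    ∑ i ∈ s, ‖F (φ i)‖ ^ 2 ≤ ‖F‖ ^ 2 := by
  have := dual_est s φ 1 (fun c => by
    rw [one_pow, one_mul]
    exact norm_comb_sq_le s φ h c) F
  rwa [one_mul] at this

/-- A map to `ℓ²` from a square summable family of functionals. -/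
noncomputable def toL2 {ι : Type*} (φ : ι → E →ₗ[𝕜] 𝕜) (C : ℝ) (hC : 0 ≤ C)
    (h : ∀ (s : Finset ι) x, ∑ i ∈ s, ‖φ i x‖ ^ 2 ≤ (C * ‖x‖) ^ 2) :
    E →L[𝕜] lp (fun _ : ι => 𝕜) 2 :=
  LinearMap.mkContinuous
    { toFun := fun x => ⟨fun i => φ i x, memℓp_gen' (C := (C * ‖x‖) ^ 2) fun s => by
        simpa using h s x⟩
      map_add' := fun x y => by ext i; simp
      map_smul' := fun c x => by ext i; simp } C
    (fun x => by
      refine lp.norm_le_of_forall_sum_le (by norm_num) (by positivity) fun s => ?_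
      simpa using h s x)

lemma toL2_apply {ι : Type*} (φ : ι → E →ₗ[𝕜] 𝕜) (C : ℝ) (hC : 0 ≤ C)
    (h : ∀ (s : Finset ι) x, ∑ i ∈ s, ‖φ i x‖ ^ 2 ≤ (C * ‖x‖) ^ 2) (x : E) (i : ι) :
    toL2 φ C hC h x i = φ i x := rfl

lemma norm_toL2_le {ι : Type*} (φ : ι → E →ₗ[𝕜] 𝕜) (C : ℝ) (hC : 0 ≤ C)
    (h : ∀ (s : Finset ι) x, ∑ i ∈ s, ‖φ i x‖ ^ 2 ≤ (C * ‖x‖) ^ 2) (x : E) :
    ‖toL2 φ C hC h x‖ ≤ C * ‖x‖ :=
  (toL2 φ C hC h).le_of_opNorm_le (LinearMap.mkContinuous_norm_le _ hC _) x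

/-- A map to the James tree space from a family of functionals. -/
noncomputable def toJX (φ : Node → E →ₗ[𝕜] 𝕜) (C : ℝ) (hC : 0 ≤ C)
    (h : ∀ (θ : Fam) x, ∑ i, ‖∑ t ∈ θ.S i, φ t x‖ ^ 2 ≤ (C * ‖x‖) ^ 2) : E →L[𝕜] JX 𝕜 :=
  LinearMap.mkContinuous
    { toFun := fun x => mkJX (fun t => φ t x) (C * ‖x‖) (mul_nonneg hC (norm_nonneg x))
        (fun θ => h θ x)
      map_add' := fun x y => JX.ext fun t => by simp
      map_smul' := fun c x => JX.ext fun t => by simp } C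
    (fun x => norm_mkJX_le (fun t => φ t x) (C * ‖x‖) (mul_nonneg hC (norm_nonneg x))
      (fun θ => h θ x))

lemma toJX_apply (φ : Node → E →ₗ[𝕜] 𝕜) (C : ℝ) (hC : 0 ≤ C)
    (h : ∀ (θ : Fam) x, ∑ i, ‖∑ t ∈ θ.S i, φ t x‖ ^ 2 ≤ (C * ‖x‖) ^ 2) (x : E) (t : Node) :
    toJX φ C hC h x t = φ t x := rfl

lemma norm_toJX_apply_le (φ : Node → E →ₗ[𝕜] 𝕜) (C : ℝ) (hC : 0 ≤ C)
    (h : ∀ (θ : Fam) x, ∑ i, ‖∑ t ∈ θ.S i, φ t x‖ ^ 2 ≤ (C * ‖x‖) ^ 2) (x : E) :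
    ‖toJX φ C hC h x‖ ≤ C * ‖x‖ :=
  norm_mkJX_le (fun t => φ t x) (C * ‖x‖) (mul_nonneg hC (norm_nonneg x)) (fun θ => h θ x)

lemma sum_sq_le_lp {ι : Type*} (y : lp (fun _ : ι => 𝕜) 2) (s : Finset ι) :
    ∑ i ∈ s, ‖y i‖ ^ 2 ≤ ‖y‖ ^ 2 := by
  have := lp.sum_rpow_le_norm_rpow (p := 2) (by norm_num) y s
  simpa using this

end general

/-- The map from the dual onto `ℓ²` of the boundary. -/
noncomputable def Th : (JX 𝕜 →L[𝕜] 𝕜) →L[𝕜] lp (fun _ : (ℕ → ℕ) => 𝕜) 2 :=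
  toL2 (E := JX 𝕜 →L[𝕜] 𝕜) (ι := ℕ → ℕ) (fun b => (Om b).toLinearMap) 1 zero_le_one
    (fun D f => by
      rw [one_mul]
      exact sum_Om_sq_le D f)

lemma Th_apply (f : JX 𝕜 →L[𝕜] 𝕜) (b : ℕ → ℕ) : Th f b = Om b f := rfl

lemma norm_Th_le (f : JX 𝕜 →L[𝕜] 𝕜) : ‖Th f‖ ≤ ‖f‖ := by
  have := norm_toL2_le (E := JX 𝕜 →L[𝕜] 𝕜) (ι := ℕ → ℕ) (fun b => (Om b).toLinearMap) 1
    zero_le_one (fun D f => by
      rw [one_mul]
      exact sum_Om_sq_le D f) f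
  rwa [one_mul] at this

lemma comp_off_eq (f : JX 𝕜 →L[𝕜] 𝕜) (G : Finset Node) (h : Low G) :
    f = f.comp (off G h) + ∑ t ∈ G, f (e t) • δ t := by
  ext x
  rw [_root_.add_apply, _root_.sum_apply, ContinuousLinearMap.comp_apply, off_eq, map_sub, trunc,
    map_sum]
  have : ∑ t ∈ G, (f (e t) • (δ t : JX 𝕜 →L[𝕜] 𝕜)) x = ∑ t ∈ G, f (x t • e t) := by
    refine Finset.sum_congr rfl fun t _ => ?_
    rw [map_smul, smul_eq_mul]
    change f (e t) * x t = _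
    ring
  rw [this]
  ring

/-- Elements of the bidual vanishing at the coordinate functionals vanish on the kernel of the
boundary map. -/
lemma apply_eq_zero_of_Th (F : (JX 𝕜 →L[𝕜] 𝕜) →L[𝕜] 𝕜) (hF : ∀ t, F (δ t) = 0)
    (f : JX 𝕜 →L[𝕜] 𝕜) (hf : Th f = 0) : F f = 0 := by
  have h0 : ∀ (b : ℕ → ℕ) (ε : ℝ), 0 < ε → ∀ N : ℕ, ∃ n, N ≤ n ∧ ‖f (e (br b n))‖ ≤ ε := by
    intro b ε hε N
    have h1 : Om b f = 0 := by
      rw [← Th_apply, hf]; rfl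
    have h2 := tendsto_ulim fun n => norm_fe_le f (br b n)
    rw [← Om_apply, h1] at h2
    have h3 : ∀ᶠ n in (hyperfilter ℕ : Filter ℕ), ‖f (e (br b n))‖ < ε := by
      have := h2.norm
      rw [norm_zero] at this
      exact this.eventually_lt_const hε
    have h4 : ∀ᶠ n in (hyperfilter ℕ : Filter ℕ), N ≤ n :=
      Nat.hyperfilter_le_atTop (eventually_ge_atTop N)
    obtain ⟨n, hn1, hn2⟩ := (h4.and h3).exists
    exact ⟨n, hn1, hn2.le⟩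
  have h1 : ∀ ε : ℝ, 0 < ε → ‖F f‖ ≤ ‖F‖ * ε := by
    intro ε hε
    obtain ⟨G, hG, hfG⟩ := exists_off_le_of_branch f h0 hε
    have h2 : F f = F (f.comp (off G hG)) := by
      conv_lhs => rw [comp_off_eq f G hG]
      rw [map_add, map_sum]
      simp only [map_smul, hF, smul_zero, Finset.sum_const_zero, add_zero]
    rw [h2]
    exact (F.le_opNorm _).trans (mul_le_mul_of_nonneg_left hfG (norm_nonneg _))
  rw [← norm_le_zero_iff]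
  refine le_of_forall_pos_le_add fun ε hε => ?_
  rw [zero_add]
  refine (h1 (ε / (‖F‖ + 1)) (by positivity)).trans ?_
  rw [mul_div_assoc', div_le_iff₀ (by positivity)]
  nlinarith [norm_nonneg F]

/-- Finitely supported elements of `ℓ²` lift with constant one. -/
lemma exists_lift (D : Finset (ℕ → ℕ)) (c : (ℕ → ℕ) → 𝕜) :
    ∃ n, ‖∑ b ∈ D, c b • (gf b n : JX 𝕜 →L[𝕜] 𝕜)‖ ^ 2 ≤ ∑ b ∈ D, ‖c b‖ ^ 2 ∧
      (∀ x : JX 𝕜, ∑ b ∈ D, ‖gf b n x‖ ^ 2 ≤ ‖x‖ ^ 2) ∧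
      (∀ b' ∈ D, Th (∑ b ∈ D, c b • (gf b n : JX 𝕜 →L[𝕜] 𝕜)) b' = c b') ∧
      ∀ b', b' ∉ D → Th (∑ b ∈ D, c b • (gf b n : JX 𝕜 →L[𝕜] 𝕜)) b' = 0 := by
  obtain ⟨n, hn⟩ := exists_sep D
  have hsep := hn n le_rfl
  refine ⟨n, ?_, fun x => sum_gf_sq_le D _ hsep x, ?_, ?_⟩
  · exact norm_comb_sq_le D _ (fun x => sum_gf_sq_le D _ hsep x) c
  · intro b' hb'
    rw [Th_apply, map_sum, Finset.sum_eq_single_of_mem b' hb']
    · rw [map_smul, Om_gf_self, smul_eq_mul, mul_one]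
    · intro b _ hne
      rw [map_smul, Om_gf_ne hne, smul_zero]
  · intro b' hb'
    rw [Th_apply, map_sum]
    refine Finset.sum_eq_zero fun b hb => ?_
    have hne : b ≠ b' := fun h => hb' (by rw [← h]; exact hb)
    rw [map_smul, Om_gf_ne hne, smul_zero]

/-- Finitely supported elements of `ℓ²`. -/
def finSupp : AddSubgroup (lp (fun _ : (ℕ → ℕ) => 𝕜) 2) where
  carrier := {y | ∃ D : Finset (ℕ → ℕ), ∀ b, b ∉ D → y b = 0}
  zero_mem' := ⟨∅, fun _ _ => rfl⟩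
  add_mem' := by
    classical
    rintro x y ⟨D, hD⟩ ⟨D', hD'⟩
    refine ⟨D ∪ D', fun b hb => ?_⟩
    rw [Finset.mem_union] at hb
    push Not at hb
    rw [lp.coeFn_add, Pi.add_apply, hD b hb.1, hD' b hb.2, add_zero]
  neg_mem' := by
    rintro x ⟨D, hD⟩
    refine ⟨D, fun b hb => ?_⟩
    rw [lp.coeFn_neg, Pi.neg_apply, hD b hb, neg_zero]

lemma topologicalClosure_finSupp : (finSupp (𝕜 := 𝕜)).topologicalClosure = ⊤ := by
  classical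
  rw [eq_top_iff]
  intro y _
  rw [← SetLike.mem_coe, AddSubgroup.topologicalClosure_coe]
  have h1 := lp.hasSum_single (p := 2) (by norm_num) y
  refine mem_closure_of_tendsto h1 (Eventually.of_forall fun D => ?_)
  refine ⟨D, fun b hb => ?_⟩
  rw [lp.coeFn_sum, Finset.sum_apply]
  refine Finset.sum_eq_zero fun b' hb' => ?_
  rw [lp.single_apply_ne]
  rintro rfl
  exact hb hb'

/-- The boundary map as a homomorphism of normed groups. -/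
noncomputable def ThHom :
    NormedAddGroupHom (JX 𝕜 →L[𝕜] 𝕜) (lp (fun _ : (ℕ → ℕ) => 𝕜) 2) where
  toFun := fun f => Th f
  map_add' := fun f g => map_add Th f g
  bound' := ⟨1, fun f => by rw [one_mul]; exact norm_Th_le f⟩

lemma ThHom_apply (f : JX 𝕜 →L[𝕜] 𝕜) : ThHom f = Th f := rfl

/-- The boundary map is surjective with a constant. -/
lemma exists_Th_eq (y : lp (fun _ : (ℕ → ℕ) => 𝕜) 2) :
    ∃ f : JX 𝕜 →L[𝕜] 𝕜, Th f = y ∧ ‖f‖ ≤ 2 * ‖y‖ := by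
  have h1 : (ThHom (𝕜 := 𝕜)).SurjectiveOnWith finSupp 1 := by
    intro y hy
    obtain ⟨D, hD⟩ := hy
    obtain ⟨n, h1, -, h3, h4⟩ := exists_lift D (fun b => y b)
    refine ⟨∑ b ∈ D, y b • (gf b n : JX 𝕜 →L[𝕜] 𝕜), ?_, ?_⟩
    · rw [ThHom_apply]
      ext b'
      by_cases h : b' ∈ D
      · exact h3 b' h
      · rw [h4 b' h, hD b' h]
    · rw [one_mul]
      refine le_of_sq_le_sq (h1.trans ?_) (norm_nonneg _)
      exact sum_sq_le_lp y D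
  have h2 := controlled_closure_of_complete (f := ThHom (𝕜 := 𝕜)) (K := finSupp) zero_lt_one
    zero_lt_one h1
  rw [topologicalClosure_finSupp] at h2
  obtain ⟨f, hf1, hf2⟩ := h2 y trivial
  refine ⟨f, hf1, hf2.trans (le_of_eq ?_)⟩
  norm_num

lemma apply_gf_eq {F : (JX 𝕜 →L[𝕜] 𝕜) →L[𝕜] 𝕜} (hF : ∀ t, F (δ t) = 0) (b : ℕ → ℕ) (n : ℕ) :
    F (gf b n) = F (gf b 0) := by
  rw [gf_eq_add b (Nat.zero_le n), map_add, map_sum]
  rw [Finset.sum_eq_zero fun i _ => hF (br b i), zero_add]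

/-- The values at the branch functionals are square summable. -/
lemma sum_apply_gf_sq_le {F : (JX 𝕜 →L[𝕜] 𝕜) →L[𝕜] 𝕜} (hF : ∀ t, F (δ t) = 0)
    (D : Finset (ℕ → ℕ)) : ∑ b ∈ D, ‖F (gf b 0)‖ ^ 2 ≤ ‖F‖ ^ 2 := by
  obtain ⟨n, -, h2, -, -⟩ := exists_lift (𝕜 := 𝕜) D (fun _ => 0)
  have h3 := bidual_est D (fun b => gf b n) h2 F
  simp only [apply_gf_eq hF] at h3
  exact h3

/-- The norm of an element of the bidual vanishing on the coordinate functionals is controlled by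
its values at the branch functionals. -/
lemma norm_le_of_gf {F : (JX 𝕜 →L[𝕜] 𝕜) →L[𝕜] 𝕜} (hF : ∀ t, F (δ t) = 0) {C : ℝ} (hC : 0 ≤ C)
    (h : ∀ D : Finset (ℕ → ℕ), ∑ b ∈ D, ‖F (gf b 0)‖ ^ 2 ≤ C ^ 2) : ‖F‖ ≤ C := by
  classical
  refine ContinuousLinearMap.opNorm_le_bound _ hC fun f => ?_
  refine le_of_forall_pos_le_add fun ε hε => ?_
  -- approximate
  obtain ⟨y, hy⟩ : ∃ y, y = Th f := ⟨_, rfl⟩
  have h1 := lp.hasSum_single (p := 2) (by norm_num) y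
  have hε' : 0 < ε / (2 * (‖F‖ + 1)) := by positivity
  have h2 := (Metric.tendsto_nhds.mp h1) _ hε'
  obtain ⟨D, hD⟩ := h2.exists
  rw [dist_eq_norm] at hD
  obtain ⟨n, h3, h4, h5, h5'⟩ := exists_lift D (fun b => y b)
  obtain ⟨k, hk1, hk2⟩ := exists_Th_eq (y - ∑ b ∈ D, lp.single 2 b (y b))
  have h6 : Th (∑ b ∈ D, y b • (gf b n : JX 𝕜 →L[𝕜] 𝕜)) = ∑ b ∈ D, lp.single 2 b (y b) := by
    ext b'
    rw [lp.coeFn_sum, Finset.sum_apply]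
    by_cases hb' : b' ∈ D
    · rw [h5 b' hb', Finset.sum_eq_single_of_mem b' hb']
      · rw [lp.single_apply_self]
      · intro b _ hne
        rw [lp.single_apply_ne]
        exact hne.symm
    · rw [h5' b' hb']
      symm
      refine Finset.sum_eq_zero fun b hb => ?_
      rw [lp.single_apply_ne]
      rintro rfl
      exact hb' hb
  have h7 : F (f - ∑ b ∈ D, y b • (gf b n : JX 𝕜 →L[𝕜] 𝕜) - k) = 0 := by
    apply apply_eq_zero_of_Th F hF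
    rw [map_sub, map_sub, h6, hk1, ← hy]
    abel
  have h8 : F f = (∑ b ∈ D, y b * F (gf b 0)) + F k := by
    rw [map_sub, map_sub, sub_sub, sub_eq_zero, map_sum] at h7
    rw [h7]
    congr 1
    refine Finset.sum_congr rfl fun b _ => ?_
    rw [map_smul, smul_eq_mul, apply_gf_eq hF]
  have h9 : ‖∑ b ∈ D, y b * F (gf b 0)‖ ≤ C * ‖f‖ := by
    refine le_of_sq_le_sq ?_ (by positivity)
    rw [mul_pow, mul_comm (C ^ 2)]
    refine (norm_sum_mul_sq_le D _ _).trans ?_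
    refine mul_le_mul ?_ (h D) (Finset.sum_nonneg fun _ _ => sq_nonneg _) (sq_nonneg _)
    refine (sum_sq_le_lp y D).trans ?_
    rw [hy]
    exact pow_le_pow_left₀ (norm_nonneg _) (norm_Th_le f) 2
  have h10 : ‖F k‖ ≤ ε := by
    have h11 : ‖k‖ ≤ 2 * (ε / (2 * (‖F‖ + 1))) := by
      refine hk2.trans ?_
      rw [norm_sub_rev]
      exact mul_le_mul_of_nonneg_left hD.le zero_le_two
    calc ‖F k‖ ≤ ‖F‖ * ‖k‖ := F.le_opNorm k
      _ ≤ (‖F‖ + 1) * (2 * (ε / (2 * (‖F‖ + 1)))) :=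
          mul_le_mul (by linarith) h11 (norm_nonneg _) (by positivity)
      _ = ε := by field_simp
  calc ‖F f‖ = ‖(∑ b ∈ D, y b * F (gf b 0)) + F k‖ := by rw [h8]
    _ ≤ ‖∑ b ∈ D, y b * F (gf b 0)‖ + ‖F k‖ := norm_add_le _ _
    _ ≤ C * ‖f‖ + ε := add_le_add h9 h10

lemma piX_key (θ : Fam) (F : (JX 𝕜 →L[𝕜] 𝕜) →L[𝕜] 𝕜) :
    ∑ i, ‖∑ t ∈ θ.S i, F (δ t)‖ ^ 2 ≤ (1 * ‖F‖) ^ 2 := by
  have h1 := bidual_est Finset.univ (fun i => ∑ t ∈ θ.S i, (δ t : JX 𝕜 →L[𝕜] 𝕜))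
    (fun x => by
      have := fam_le x θ
      simp only [_root_.sum_apply, δ_apply]
      exact this) F
  simp only [map_sum] at h1
  rw [one_mul]
  exact h1

/-- The projection of the bidual onto the space. -/
noncomputable def piX : ((JX 𝕜 →L[𝕜] 𝕜) →L[𝕜] 𝕜) →L[𝕜] JX 𝕜 :=
  toJX (E := (JX 𝕜 →L[𝕜] 𝕜) →L[𝕜] 𝕜)
    (fun t =>
      { toFun := fun F => F (δ t)
        map_add' := fun _ _ => rfl
        map_smul' := fun _ _ => rfl }) 1 zero_le_one piX_key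

lemma piX_apply (F : (JX 𝕜 →L[𝕜] 𝕜) →L[𝕜] 𝕜) (t : Node) : piX F t = F (δ t) := rfl

end Pool.Agent.Hhelper24.JT
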