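import Pool.Agent.Hhelper24.JT.Factor
import Pool.Agent.Hhelper24.JT.Bidual

/-!
# Copies of the space in itself
-/

set_option autoImplicit false
set_option maxSynthPendingDepth 3

open scoped ENNReal Topology
open Filter

namespace Pool.Agent.Hhelper24.JT

open Node

variable {𝕜 : Type*} [RCLike 𝕜]

/-- The index of the copy containing a node. -/
def cp (t : Node) : ℕ := (Nat.unpair t.rlabel).1

/-- The node of the forest corresponding to a node of a copy. -/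
def unl : Node → Node
  | root r => root (Nat.unpair r).2
  | child t k => child (unl t) k

lemma pair_injective (n : ℕ) : Function.Injective (Nat.pair n) := fun a b h => by
  rw [Nat.pair_eq_pair] at h
  exact h.2

/-- The embedding onto the `n`-th copy. -/
def cpEmb (n : ℕ) : TreeEmb := rootEmb (Nat.pair n) (pair_injective n)

lemma cp_cpEmb (n : ℕ) (t : Node) : cp ((cpEmb n).φ t) = n := by
  change (Nat.unpair (TreeEmb.ofLabel (rootLabel (Nat.pair n)) t).rlabel).1 = n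
  rw [rlabel_ofLabel, Nat.unpair_pair]

lemma unl_cpEmb (n : ℕ) (t : Node) : unl ((cpEmb n).φ t) = t := by
  change unl (TreeEmb.ofLabel (rootLabel (Nat.pair n)) t) = t
  induction t with
  | root k => simp [TreeEmb.ofLabel, unl, rootLabel]
  | child t k ih => simp only [TreeEmb.ofLabel, unl, rootLabel]; rw [ih]

lemma cpEmb_unl (t : Node) : (cpEmb (cp t)).φ (unl t) = t := by
  change TreeEmb.ofLabel (rootLabel (Nat.pair (cp t))) (unl t) = t
  induction t with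
  | root k => simp [TreeEmb.ofLabel, unl, rootLabel, cp, rlabel]
  | child t k ih =>
    simp only [TreeEmb.ofLabel, unl, rootLabel]
    have : cp (child t k) = cp t := rfl
    rw [this, ih]

lemma cp_eq_of_le {s t : Node} (h : s ≤ t) : cp s = cp t := by
  unfold cp
  rw [rlabel_eq h]

/-- The restriction to the `n`-th copy. -/
noncomputable def V (n : ℕ) : JX 𝕜 →L[𝕜] JX 𝕜 := colOp (cpEmb n)

lemma V_apply (n : ℕ) (x : JX 𝕜) (t : Node) : V n x t = x ((cpEmb n).φ t) := by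
  have h : (cpEmb n).J t = {(cpEmb n).φ t} := TreeEmb.mkLabel_J _ _ _ t
  rw [V, colOp_apply, h, Finset.sum_singleton]

lemma ext_V {x y : JX 𝕜} (h : ∀ n, V n x = V n y) : x = y := by
  apply JX.ext
  intro t
  have h1 : V (cp t) x (unl t) = V (cp t) y (unl t) := by rw [h]
  rwa [V_apply, V_apply, cpEmb_unl] at h1

lemma conv_cp (n : ℕ) : Conv (fun t => cp t = n) := fun _ _ _ ha _ h1 _ =>
  (cp_eq_of_le h1).symm.trans ha

lemma sum_V_sq_le (x : JX 𝕜) (s : Finset ℕ) : ∑ n ∈ s, ‖V n x‖ ^ 2 ≤ ‖x‖ ^ 2 := by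
  have h1 := lower_est s x (fun n t => cp t = n) conv_cp (by
    intro n _ m _ hne t h1 h2
    exact hne (h1.symm.trans h2))
  refine le_trans (Finset.sum_le_sum fun n _ => ?_) h1
  have h2 : V n x = V n (res (fun t => cp t = n) (conv_cp n) x) := by
    apply JX.ext
    intro t
    rw [V_apply, V_apply, res_apply_mem _ _ (cp_cpEmb n t)]
  rw [h2]
  refine pow_le_pow_left₀ (norm_nonneg _) ?_ 2
  have := (V n : JX 𝕜 →L[𝕜] JX 𝕜).le_of_opNorm_le (norm_colOp_le (cpEmb n))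
    (res (fun t => cp t = n) (conv_cp n) x)
  rwa [one_mul] at this

lemma glue_key (y : ℕ → JX 𝕜) (C : ℝ) (h : ∀ s : Finset ℕ, ∑ n ∈ s, ‖y n‖ ^ 2 ≤ C ^ 2)
    (θ : Fam) : ∑ i, ‖∑ t ∈ θ.S i, y (cp t) (unl t)‖ ^ 2 ≤ C ^ 2 := by
  classical
  let s : Finset ℕ := (Finset.univ.biUnion θ.S).image cp
  let x : JX 𝕜 := ∑ n ∈ s, embOp (cpEmb n) (y n)
  have h1 : ∀ i, ∀ t ∈ θ.S i, y (cp t) (unl t) = x t := by
    intro i t ht
    have hs : cp t ∈ s :=
      Finset.mem_image_of_mem _ (Finset.mem_biUnion.mpr ⟨i, Finset.mem_univ _, ht⟩)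
    change _ = (∑ n ∈ s, embOp (cpEmb n) (y n)) t
    rw [sum_apply, Finset.sum_eq_single_of_mem (cp t) hs]
    · conv_rhs => rw [← cpEmb_unl t]
      rw [cp_cpEmb, embOp_apply_phi]
    · intro n _ hn
      apply embOp_apply_not
      rintro ⟨u, rfl⟩
      exact hn (cp_cpEmb n u).symm
  have h2 : ∀ i, ∑ t ∈ θ.S i, y (cp t) (unl t) = ∑ t ∈ θ.S i, x t := fun i =>
    Finset.sum_congr rfl (h1 i)
  simp only [h2]
  refine (fam_le x θ).trans ?_
  refine (upper_est s (fun n => embOp (cpEmb n) (y n)) (fun n t => cp t = n) ?_ ?_).trans ?_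
  · intro n _ t ht
    by_contra hne
    apply ht
    apply embOp_apply_not
    rintro ⟨u, rfl⟩
    exact hne (cp_cpEmb n u)
  · rintro n _ m _ t t' rfl rfl h3
    rcases h3 with h3 | h3
    · exact cp_eq_of_le h3
    · exact (cp_eq_of_le h3).symm
  · refine le_trans (Finset.sum_le_sum fun n _ => ?_) (h s)
    refine pow_le_pow_left₀ (norm_nonneg _) ?_ 2
    have := (embOp (cpEmb n) : JX 𝕜 →L[𝕜] JX 𝕜).le_of_opNorm_le (norm_embOp_le (cpEmb n)) (y n)
    rwa [one_mul] at this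

section glue

variable {E : Type*} [NormedAddCommGroup E] [NormedSpace 𝕜 E]

/-- Gluing operators into the copies. -/
noncomputable def glue (L : ℕ → E →L[𝕜] JX 𝕜) (C : ℝ) (hC : 0 ≤ C)
    (h : ∀ (s : Finset ℕ) x, ∑ n ∈ s, ‖L n x‖ ^ 2 ≤ (C * ‖x‖) ^ 2) : E →L[𝕜] JX 𝕜 :=
  toJX (fun t =>
    { toFun := fun x => L (cp t) x (unl t)
      map_add' := fun x y => by rw [map_add, add_apply]
      map_smul' := fun c x => by rw [map_smul, smul_apply]; rfl }) C hC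
    (fun θ x => glue_key (fun n => L n x) (C * ‖x‖) (fun s => h s x) θ)

lemma glue_apply (L : ℕ → E →L[𝕜] JX 𝕜) (C : ℝ) (hC : 0 ≤ C)
    (h : ∀ (s : Finset ℕ) x, ∑ n ∈ s, ‖L n x‖ ^ 2 ≤ (C * ‖x‖) ^ 2) (x : E) (t : Node) :
    glue L C hC h x t = L (cp t) x (unl t) := rfl

lemma V_glue (L : ℕ → E →L[𝕜] JX 𝕜) (C : ℝ) (hC : 0 ≤ C)
    (h : ∀ (s : Finset ℕ) x, ∑ n ∈ s, ‖L n x‖ ^ 2 ≤ (C * ‖x‖) ^ 2) (n : ℕ) (x : E) :
    V n (glue L C hC h x) = L n x := by
  apply JX.ext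
  intro t
  rw [V_apply, glue_apply, cp_cpEmb, unl_cpEmb]

end glue

/-- The diagonal ampliation of an operator. -/
noncomputable def amp (T : JX 𝕜 →L[𝕜] JX 𝕜) : JX 𝕜 →L[𝕜] JX 𝕜 :=
  glue (fun n => T.comp (V n)) ‖T‖ (norm_nonneg _) (fun s x => by
    calc ∑ n ∈ s, ‖T.comp (V n) x‖ ^ 2 ≤ ∑ n ∈ s, ‖T‖ ^ 2 * ‖V n x‖ ^ 2 := by
          refine Finset.sum_le_sum fun n _ => ?_
          rw [← mul_pow]
          exact pow_le_pow_left₀ (norm_nonneg _) (T.le_opNorm _) 2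
      _ = ‖T‖ ^ 2 * ∑ n ∈ s, ‖V n x‖ ^ 2 := by rw [Finset.mul_sum]
      _ ≤ ‖T‖ ^ 2 * ‖x‖ ^ 2 := mul_le_mul_of_nonneg_left (sum_V_sq_le x s) (sq_nonneg _)
      _ = _ := by rw [mul_pow])

lemma V_amp (T : JX 𝕜 →L[𝕜] JX 𝕜) (n : ℕ) (x : JX 𝕜) : V n (amp T x) = T (V n x) :=
  V_glue _ _ _ _ _ _

/-- The backward shift of the copies. -/
noncomputable def Sb : JX 𝕜 →L[𝕜] JX 𝕜 :=
  glue (fun n => V (n + 1)) 1 zero_le_one (fun s x => by
    rw [one_mul]
    refine le_trans (le_of_eq ?_) (sum_V_sq_le x (s.map ⟨fun n => n + 1, fun a b h => by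
      simpa using h⟩))
    rw [Finset.sum_map]
    rfl)

lemma V_Sb (n : ℕ) (x : JX 𝕜) : V n (Sb x) = V (n + 1) x := V_glue _ _ _ _ _ _

/-- The family of operators defining the forward shift. -/
noncomputable def SfL : ℕ → JX 𝕜 →L[𝕜] JX 𝕜
  | 0 => 0
  | n + 1 => V n

/-- The forward shift of the copies. -/
noncomputable def Sf : JX 𝕜 →L[𝕜] JX 𝕜 :=
  glue SfL 1 zero_le_one (fun s x => by
    classical
    rw [one_mul]
    have h1 : ∑ n ∈ s, ‖SfL n x‖ ^ 2 ≤ ∑ n ∈ (s.erase 0).image Nat.pred, ‖V n x‖ ^ 2 := by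
      have h2 : ∑ n ∈ s, ‖SfL n x‖ ^ 2 = ∑ n ∈ s.erase 0, ‖SfL n x‖ ^ 2 := by
        by_cases h0 : 0 ∈ s
        · rw [← Finset.add_sum_erase s (fun n => ‖SfL n x‖ ^ 2) h0]
          have : ‖(SfL 0 : JX 𝕜 →L[𝕜] JX 𝕜) x‖ ^ 2 = 0 := by
            change ‖(0 : JX 𝕜)‖ ^ 2 = 0
            rw [norm_zero]; norm_num
          rw [this, zero_add]
        · rw [Finset.erase_eq_of_notMem h0]
      rw [h2, Finset.sum_image]
      · refine le_of_eq (Finset.sum_congr rfl fun n hn => ?_)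
        obtain ⟨m, rfl⟩ := Nat.exists_eq_succ_of_ne_zero (Finset.ne_of_mem_erase hn)
        rfl
      · intro a ha b hb hab
        have ha' := Finset.ne_of_mem_erase ha
        have hb' := Finset.ne_of_mem_erase hb
        simp only [Nat.pred_eq_sub_one] at hab
        omega
    exact h1.trans (sum_V_sq_le x _))

lemma V_Sf_zero (x : JX 𝕜) : V 0 (Sf x) = 0 := V_glue _ _ _ _ _ _
lemma V_Sf_succ (n : ℕ) (x : JX 𝕜) : V (n + 1) (Sf x) = V n x := V_glue _ _ _ _ _ _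

/-- The family of operators defining the embedding of the first copy. -/
noncomputable def UfL : ℕ → JX 𝕜 →L[𝕜] JX 𝕜
  | 0 => 1
  | _ + 1 => 0

/-- The embedding of the first copy. -/
noncomputable def Uf : JX 𝕜 →L[𝕜] JX 𝕜 :=
  glue UfL 1 zero_le_one (fun s x => by
    classical
    rw [one_mul]
    have h1 : ∀ n ∈ s, n ≠ 0 → ‖(UfL n : JX 𝕜 →L[𝕜] JX 𝕜) x‖ ^ 2 = 0 := by
      intro n _ hn
      obtain ⟨m, rfl⟩ := Nat.exists_eq_succ_of_ne_zero hn
      change ‖(0 : JX 𝕜)‖ ^ 2 = 0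
      rw [norm_zero]; norm_num
    by_cases h0 : 0 ∈ s
    · rw [Finset.sum_eq_single_of_mem 0 h0 h1]
      exact le_rfl
    · rw [Finset.sum_eq_zero fun n hn => h1 n hn (fun h => h0 (h ▸ hn))]
      positivity)

lemma V_Uf_zero (x : JX 𝕜) : V 0 (Uf x) = x := V_glue _ _ _ _ _ _
lemma V_Uf_succ (n : ℕ) (x : JX 𝕜) : V (n + 1) (Uf x) = 0 := V_glue _ _ _ _ _ _

/-- The space is isomorphic to its square. -/
noncomputable def sqEquiv : JX 𝕜 ≃L[𝕜] JX 𝕜 × JX 𝕜 :=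
  ContinuousLinearEquiv.equivOfInverse ((V 0).prod Sb)
    (Uf.comp (ContinuousLinearMap.fst 𝕜 (JX 𝕜) (JX 𝕜)) +
      Sf.comp (ContinuousLinearMap.snd 𝕜 (JX 𝕜) (JX 𝕜)))
    (by
      intro x
      change Uf (V 0 x) + Sf (Sb x) = x
      apply ext_V
      intro n
      rw [map_add]
      cases n with
      | zero => rw [V_Uf_zero, V_Sf_zero, add_zero]
      | succ n => rw [V_Uf_succ, V_Sf_succ, V_Sb, zero_add])
    (by
      rintro ⟨x, y⟩
      change (V 0 (Uf x + Sf y), Sb (Uf x + Sf y)) = (x, y)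
      rw [map_add, V_Uf_zero, V_Sf_zero, add_zero]
      congr 1
      apply ext_V
      intro n
      rw [V_Sb, map_add, V_Uf_succ, V_Sf_succ, zero_add])

end Pool.Agent.Hhelper24.JT
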