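import Pool.Agent.Hhelper24.JT.Estimates

/-!
# Almost diagonalization of operators
-/

set_option autoImplicit false
set_option maxSynthPendingDepth 3

open scoped ENNReal Topology
open Filter

namespace Pool.Agent.Hhelper24.JT

open Node

variable {𝕜 : Type*} [RCLike 𝕜]

/-- Choices made recursively along the codes of the nodes. -/
lemma exists_rec {α : Type*} [Inhabited α] (Q : (Node → α) → Node → α → Prop)
    (hQ : ∀ g t, ∃ a, Q g t a)
    (hloc : ∀ g g' t a, (∀ s : Node, s.code < t.code → g s = g' s) → Q g t a → Q g' t a) :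
    ∃ g : Node → α, ∀ t, Q g t (g t) := by
  classical
  have wf : WellFounded (fun s t : Node => s.code < t.code) :=
    InvImage.wf code Nat.lt_wfRel.wf
  let F : (t : Node) → ((s : Node) → s.code < t.code → α) → α := fun t IH =>
    (hQ (fun s => if h : s.code < t.code then IH s h else default) t).choose
  let g : Node → α := wf.fix F
  refine ⟨g, fun t => ?_⟩
  have h1 : g t = F t (fun s _ => g s) := wf.fix_eq F t
  rw [h1]
  refine hloc _ _ t _ ?_
    (hQ (fun s => if h : s.code < t.code then g s else default) t).choose_spec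
  intro s hs
  rw [dif_pos hs]

/-- The new node obtained from a label. -/
def newNode (g : Node → ℕ) : Node → ℕ → Node
  | root _, a => root a
  | child u _, a => child (TreeEmb.ofLabel g u) a

lemma ofLabel_eq (g : Node → ℕ) (t : Node) : TreeEmb.ofLabel g t = newNode g t (g t) := by
  cases t <;> rfl

lemma ofLabel_congr {g g' : Node → ℕ} (t : Node) (h : ∀ s : Node, s.code ≤ t.code → g s = g' s) :
    TreeEmb.ofLabel g t = TreeEmb.ofLabel g' t := by
  induction t with
  | root k => simp only [TreeEmb.ofLabel]; rw [h _ le_rfl]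
  | child t k ih =>
    simp only [TreeEmb.ofLabel]
    rw [h _ le_rfl, ih fun s hs => h s (hs.trans (code_lt_child t k).le)]

lemma newNode_congr {g g' : Node → ℕ} (t : Node) (a : ℕ)
    (h : ∀ s : Node, s.code < t.code → g s = g' s) : newNode g t a = newNode g' t a := by
  cases t with
  | root k => rfl
  | child t k =>
    simp only [newNode]
    rw [ofLabel_congr t fun s hs => h s (lt_of_le_of_lt hs (code_lt_child t k))]

lemma newNode_antichain (g : Node → ℕ) (t : Node) (a a' : ℕ)
    (h : newNode g t a ≤ newNode g t a') : a = a' := by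
  cases t with
  | root k => simpa [newNode] using h
  | child t k =>
    simp only [newNode] at h
    have := eq_of_le_of_level h (by simp [level])
    simpa using this

/-- Weights. -/
noncomputable def wt (t : Node) : ℝ := (1 / 2 : ℝ) ^ t.code

lemma wt_pos (t : Node) : 0 < wt t := by unfold wt; positivity

lemma summable_wt : Summable wt :=
  (summable_geometric_of_lt_one (by norm_num) (by norm_num)).comp_injective code_injective

/-- The choice of the labels. -/
lemma exists_labels (P : JX 𝕜 →L[𝕜] JX 𝕜) {ε : ℝ} (hε : 0 < ε) :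
    ∃ κ : Node → ℕ, ∀ s t : Node, s.code < t.code → κ s < κ t ∧
      ‖P (e (TreeEmb.ofLabel κ s)) (TreeEmb.ofLabel κ t)‖ ≤ ε * (wt s * wt t) ∧
      ‖P (e (TreeEmb.ofLabel κ t)) (TreeEmb.ofLabel κ s)‖ ≤ ε * (wt s * wt t) := by
  obtain ⟨κ, hκ⟩ := exists_rec (α := ℕ) (fun g t a => ∀ s : Node, s.code < t.code → g s < a ∧
      ‖P (e (TreeEmb.ofLabel g s)) (newNode g t a)‖ ≤ ε * (wt s * wt t) ∧
      ‖P (e (newNode g t a)) (TreeEmb.ofLabel g s)‖ ≤ ε * (wt s * wt t)) (by
    intro g t
    have h1 : ∀ᶠ a in atTop, ∀ s ∈ {s : Node | s.code < t.code}, g s < a ∧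
        ‖P (e (TreeEmb.ofLabel g s)) (newNode g t a)‖ ≤ ε * (wt s * wt t) ∧
        ‖P (e (newNode g t a)) (TreeEmb.ofLabel g s)‖ ≤ ε * (wt s * wt t) := by
      rw [Filter.eventually_all_finite (finite_code_lt _)]
      intro s _
      have hpos : 0 < ε * (wt s * wt t) := by
        have := wt_pos s; have := wt_pos t; positivity
      have h2 : ∀ᶠ a in atTop, g s < a := eventually_gt_atTop _
      have h3 := (tendsto_apply_zero (P (e (TreeEmb.ofLabel g s))) (fun a => newNode g t a)
        (fun a a' h => newNode_antichain g t a a' h.le)).norm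
      have h4 := (tendsto_dual_zero ((δ (TreeEmb.ofLabel g s) : JX 𝕜 →L[𝕜] 𝕜).comp P)
        (fun a => newNode g t a) (fun a a' h => newNode_antichain g t a a' h)).norm
      rw [norm_zero] at h3 h4
      have h5 := h3.eventually_le_const hpos
      have h6 := h4.eventually_le_const hpos
      filter_upwards [h2, h5, h6] with a h7 h8 h9
      exact ⟨h7, h8, h9⟩
    obtain ⟨a, ha⟩ := h1.exists
    exact ⟨a, ha⟩) (by
    intro g g' t a h hQ s hs
    obtain ⟨h1, h2, h3⟩ := hQ s hs
    have h4 : TreeEmb.ofLabel g s = TreeEmb.ofLabel g' s :=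
      ofLabel_congr s fun u hu => h u (lt_of_le_of_lt hu hs)
    rw [← newNode_congr t a h, ← h4, ← h s hs]
    exact ⟨h1, h2, h3⟩)
  refine ⟨κ, fun s t hst => ?_⟩
  have h1 := hκ t s hst
  rw [← ofLabel_eq] at h1
  exact h1

/-- Rank one operators. -/
noncomputable def rk (s t : Node) : JX 𝕜 →L[𝕜] JX 𝕜 := (δ t).smulRight (e s)

lemma rk_apply (s t : Node) (x : JX 𝕜) : rk s t x = x t • e s := rfl

lemma norm_rk_le (s t : Node) : ‖(rk s t : JX 𝕜 →L[𝕜] JX 𝕜)‖ ≤ 1 := by
  refine ContinuousLinearMap.opNorm_le_bound _ zero_le_one fun x => ?_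
  rw [rk_apply, norm_smul, norm_e, mul_one, one_mul]
  exact norm_apply_le x t

/-- Operators are almost diagonal after compression to a subtree. -/
theorem exists_almost_diag (P : JX 𝕜 →L[𝕜] JX 𝕜) {ε : ℝ} (hε : 0 < ε) :
    ∃ (C E D : JX 𝕜 →L[𝕜] JX 𝕜) (d : Node → 𝕜), (∀ x, C (E x) = x) ∧ ‖C‖ ≤ 1 ∧ ‖E‖ ≤ 1 ∧
      (∀ t, D (e t) = d t • e t) ∧ (∀ t, ‖d t‖ ≤ ‖P‖) ∧ ‖C.comp (P.comp E) - D‖ ≤ ε := by
  classical
  set S := ∑' t, wt t with hS
  have hS0 : 0 ≤ S := tsum_nonneg fun t => (wt_pos t).le
  have hε' : 0 < ε / (S * S + 1) := by positivity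
  obtain ⟨κ, hκ⟩ := exists_labels P hε'
  have hinj : Function.Injective κ := by
    intro s t hst
    rcases lt_trichotomy s.code t.code with h | h | h
    · have := (hκ s t h).1; omega
    · exact code_injective h
    · have := (hκ t s h).1; omega
  let Φ := TreeEmb.mkLabel κ (fun k k' h => by simpa using hinj h)
    (fun t k k' h => by simpa using hinj h)
  have hφ : ∀ t, Φ.φ t = TreeEmb.ofLabel κ t := fun _ => rfl
  set M : Node → Node → 𝕜 := fun s t => P (e (TreeEmb.ofLabel κ t)) (TreeEmb.ofLabel κ s) with hM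
  have hM1 : ∀ s t, s ≠ t → ‖M s t‖ ≤ ε / (S * S + 1) * (wt s * wt t) := by
    intro s t hne
    rcases lt_trichotomy s.code t.code with h | h | h
    · exact (hκ s t h).2.2
    · exact absurd (code_injective h) hne
    · have := (hκ t s h).2.1
      rwa [mul_comm (wt t)] at this
  have hM2 : ∀ s t, ‖M s t‖ ≤ ‖P‖ := by
    intro s t
    refine (norm_apply_le _ _).trans ?_
    have := P.le_opNorm (e (TreeEmb.ofLabel κ t))
    rwa [norm_e, mul_one] at this
  set T : JX 𝕜 →L[𝕜] JX 𝕜 := (colOp Φ).comp (P.comp (embOp Φ)) with hT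
  have hTe : ∀ s t, T (e t) s = M s t := by
    intro s t
    change colOp Φ (P (embOp Φ (e t))) s = _
    rw [colOp_apply, TreeEmb.mkLabel_J, Finset.sum_singleton, embOp_e]
    rfl
  -- the off diagonal part
  let f : Node × Node → JX 𝕜 →L[𝕜] JX 𝕜 := fun p => if p.1 = p.2 then 0 else M p.1 p.2 • rk p.1 p.2
  have hf : ∀ p, ‖f p‖ ≤ ε / (S * S + 1) * (wt p.1 * wt p.2) := by
    intro p
    by_cases h : p.1 = p.2
    · simp only [f, if_pos h, norm_zero]
      have := wt_pos p.1; have := wt_pos p.2; positivity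
    · simp only [f, if_neg h]
      rw [norm_smul]
      calc ‖M p.1 p.2‖ * ‖(rk p.1 p.2 : JX 𝕜 →L[𝕜] JX 𝕜)‖ ≤ ‖M p.1 p.2‖ * 1 :=
            mul_le_mul_of_nonneg_left (norm_rk_le _ _) (norm_nonneg _)
        _ ≤ _ := by rw [mul_one]; exact hM1 _ _ h
  have hsw : Summable (fun p : Node × Node => wt p.1 * wt p.2) :=
    summable_wt.mul_of_nonneg summable_wt (fun t => (wt_pos t).le) (fun t => (wt_pos t).le)
  have hsum2 : HasSum (fun p : Node × Node => ε / (S * S + 1) * (wt p.1 * wt p.2))
      (ε / (S * S + 1) * (S * S)) :=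
    (summable_wt.hasSum.mul summable_wt.hasSum hsw).mul_left _
  have hfs : Summable f := Summable.of_norm_bounded hsum2.summable hf
  have hK : ‖∑' p, f p‖ ≤ ε := by
    refine (tsum_of_norm_bounded hsum2 hf).trans ?_
    rw [div_mul_eq_mul_div, div_le_iff₀ (by positivity)]
    nlinarith
  have hKe : ∀ s t, (∑' p, f p) (e t) s = if s = t then 0 else M s t := by
    intro s t
    let ψ : (JX 𝕜 →L[𝕜] JX 𝕜) →L[𝕜] 𝕜 := (δ s).comp (ContinuousLinearMap.apply 𝕜 (JX 𝕜) (e t))
    have h1 : HasSum (fun p => ψ (f p)) (ψ (∑' p, f p)) := hfs.hasSum.mapL ψ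
    have h2 : HasSum (fun p => ψ (f p)) (ψ (f (s, t))) := by
      refine hasSum_single (s, t) fun p hp => ?_
      change f p (e t) s = 0
      by_cases h : p.1 = p.2
      · simp only [f, if_pos h]; rfl
      · simp only [f, if_neg h]
        change (M p.1 p.2 • rk p.1 p.2 (e t)) s = 0
        rw [rk_apply, smul_apply, smul_apply]
        by_cases h3 : p.2 = t
        · have h4 : s ≠ p.1 := by
            intro h4
            apply hp
            rw [h4, ← h3]
          rw [e_apply_ne h4, mul_zero, mul_zero]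
        · rw [e_apply_ne h3, zero_mul, mul_zero]
    have h3 := h1.unique h2
    change (∑' p, f p) (e t) s = f (s, t) (e t) s at h3
    rw [h3]
    by_cases h : s = t
    · simp only [f, if_pos h]; rfl
    · simp only [f, if_neg h]
      change (M s t • rk s t (e t)) s = M s t
      rw [rk_apply, smul_apply, smul_apply, e_apply_self, e_apply_self, mul_one, mul_one]
  refine ⟨colOp Φ, embOp Φ, T - ∑' p, f p, fun t => M t t, colOp_embOp Φ, norm_colOp_le Φ,
    norm_embOp_le Φ, fun t => ?_, fun t => hM2 t t, ?_⟩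
  · apply JX.ext
    intro s
    rw [_root_.sub_apply, sub_apply, hTe, hKe, smul_apply]
    by_cases h : s = t
    · subst h
      rw [if_pos rfl, e_apply_self, sub_zero, mul_one]
    · rw [if_neg h, e_apply_ne h, sub_self, mul_zero]
  · rw [sub_sub_cancel]
    exact hK

end Pool.Agent.Hhelper24.JT
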