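import Pool.Agent.Hhelper24.JT.Node

/-!
# Tree embeddings (level skipping allowed) and the associated decomposition into intervals
-/

set_option autoImplicit false

namespace Pool.Agent.Hhelper24.JT

open Node

/-- A tree embedding: images of different children of a node lie above different immediate
successors of the image of the node. -/
structure TreeEmb : Type where
  /-- the map -/
  φ : Node → Node
  /-- the label of the immediate successor used -/
  κ : Node → ℕ
  root_le : ∀ k, root (κ (root k)) ≤ φ (root k)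
  child_le : ∀ t k, child (φ t) (κ (child t k)) ≤ φ (child t k)
  inj_root : ∀ k k', κ (root k) = κ (root k') → k = k'
  inj_child : ∀ t k k', κ (child t k) = κ (child t k') → k = k'

namespace TreeEmb

variable (Φ : TreeEmb)

/-- The half open interval attached to a node. -/
def J : Node → Finset Node
  | root k => (Φ.φ (root k)).down
  | child t k => (Φ.φ (child t k)).down \ (Φ.φ t).down

lemma mem_J_root {s : Node} {k : ℕ} : s ∈ Φ.J (root k) ↔ s ≤ Φ.φ (root k) := by
  simp [J]

lemma mem_J_child {s t : Node} {k : ℕ} :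
    s ∈ Φ.J (child t k) ↔ s ≤ Φ.φ (child t k) ∧ ¬ s ≤ Φ.φ t := by
  simp [J]

lemma le_of_mem_J {s t : Node} (h : s ∈ Φ.J t) : s ≤ Φ.φ t := by
  cases t with
  | root k => exact (Φ.mem_J_root).mp h
  | child t k => exact ((Φ.mem_J_child).mp h).1

lemma phi_lt_child (t : Node) (k : ℕ) : Φ.φ t < Φ.φ (child t k) :=
  lt_of_lt_of_le (self_lt_child _ _) (Φ.child_le t k)

lemma phi_mem_J (t : Node) : Φ.φ t ∈ Φ.J t := by
  cases t with
  | root k => rw [mem_J_root]
  | child t k =>
    rw [mem_J_child]
    exact ⟨le_rfl, fun h => absurd (lt_of_lt_of_le (Φ.phi_lt_child t k) h) (lt_irrefl _)⟩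

open Classical in
/-- The decoder: finds the node `t` with `s ∈ J t`. -/
noncomputable def dec : Node → Option Node
  | root k => if h : ∃ r, Φ.κ (root r) = k then some (root h.choose) else none
  | child s k =>
    match dec s with
    | none => none
    | some t =>
      if s = Φ.φ t then
        (if h : ∃ j, Φ.κ (child t j) = k then some (child t h.choose) else none)
      else some t

lemma dec_root (r : ℕ) : Φ.dec (root (Φ.κ (root r))) = some (root r) := by
  have h : ∃ r', Φ.κ (root r') = Φ.κ (root r) := ⟨r, rfl⟩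
  rw [dec, dif_pos h]
  rw [Φ.inj_root _ _ h.choose_spec]

lemma dec_child_eq {s t : Node} (h : Φ.dec s = some t) (hs : s = Φ.φ t) (j : ℕ) :
    Φ.dec (child s (Φ.κ (child t j))) = some (child t j) := by
  have h' : ∃ j', Φ.κ (child t j') = Φ.κ (child t j) := ⟨j, rfl⟩
  simp only [dec, h]
  rw [if_pos hs, dif_pos h']
  rw [Φ.inj_child _ _ _ h'.choose_spec]

lemma dec_child_ne {s t : Node} (h : Φ.dec s = some t) (hs : s ≠ Φ.φ t) (k : ℕ) :
    Φ.dec (child s k) = some t := by
  simp only [dec, h, hs, if_false]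

lemma dec_of_mem_J {t : Node} : ∀ {s : Node}, s ∈ Φ.J t → Φ.dec s = some t := by
  induction t with
  | root r =>
    intro s
    induction s with
    | root k =>
      intro h
      rw [mem_J_root] at h
      have h2 := Φ.root_le r
      have h3 : root k = root (Φ.κ (root r)) := eq_of_le_of_le_of_level h h2 rfl
      rw [h3]
      exact Φ.dec_root r
    | child s k ih =>
      intro h
      rw [mem_J_root] at h
      have h1 : s < Φ.φ (root r) := lt_of_lt_of_le (self_lt_child s k) h
      exact Φ.dec_child_ne (ih (Φ.mem_J_root.mpr h1.le)) h1.ne k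
  | child u j ihu =>
    intro s
    induction s with
    | root k =>
      intro h
      exfalso
      rw [mem_J_child] at h
      have h1 : (root k).rlabel = (Φ.φ (child u j)).rlabel := rlabel_eq h.1
      have h2 : (Φ.φ u).rlabel = (Φ.φ (child u j)).rlabel := rlabel_eq (Φ.phi_lt_child u j).le
      apply h.2
      have h3 := root_rlabel_le (Φ.φ u)
      rw [h2, ← h1] at h3
      exact h3
    | child s k ih =>
      intro h
      rw [mem_J_child] at h
      have hs : s < Φ.φ (child u j) := lt_of_lt_of_le (self_lt_child s k) h.1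
      by_cases h1 : s ≤ Φ.φ u
      · have h2 : Φ.φ u ≤ s := by
          rcases le_or_le h.1 (Φ.phi_lt_child u j).le with h3 | h3
          · exact absurd h3 h.2
          · have h4 : Φ.φ u < child s k := lt_of_le_of_ne h3 (fun h5 => h.2 h5.ge)
            exact lt_child.mp h4
        have h3 : s = Φ.φ u := le_antisymm h1 h2
        have h4 : k = Φ.κ (child u j) := by
          have h5 := Φ.child_le u j
          rw [← h3] at h5
          exact child_inj_of_le h.1 h5
        rw [h4]
        exact Φ.dec_child_eq (by rw [h3]; exact ihu (Φ.phi_mem_J u)) h3 j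
      · exact Φ.dec_child_ne (ih ((Φ.mem_J_child).mpr ⟨hs.le, h1⟩)) hs.ne k

lemma J_unique {s t t' : Node} (h : s ∈ Φ.J t) (h' : s ∈ Φ.J t') : t = t' := by
  have h1 := Φ.dec_of_mem_J h
  have h2 := Φ.dec_of_mem_J h'
  rw [h1] at h2
  exact Option.some.inj h2

lemma exists_mem_J {s t : Node} (h : s ≤ Φ.φ t) : ∃ u, u ≤ t ∧ s ∈ Φ.J u := by
  induction t with
  | root k => exact ⟨root k, le_rfl, (Φ.mem_J_root).mpr h⟩
  | child t k ih =>
    by_cases h1 : s ≤ Φ.φ t
    · obtain ⟨u, hu, hs⟩ := ih h1
      exact ⟨u, hu.trans (self_le_child t k), hs⟩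
    · exact ⟨child t k, le_rfl, (Φ.mem_J_child).mpr ⟨h, h1⟩⟩

lemma phi_mono {u t : Node} (h : u ≤ t) : Φ.φ u ≤ Φ.φ t := by
  induction t with
  | root k => rw [le_root.mp h]
  | child t k ih =>
    rcases le_child.mp h with rfl | h
    · exact le_rfl
    · exact (ih h).trans (Φ.phi_lt_child t k).le

lemma phi_le_iff {u t : Node} : Φ.φ u ≤ Φ.φ t ↔ u ≤ t := by
  refine ⟨fun h => ?_, Φ.phi_mono⟩
  obtain ⟨v, hv, hs⟩ := Φ.exists_mem_J h
  rw [Φ.J_unique (Φ.phi_mem_J u) hs]
  exact hv

lemma phi_injective : Function.Injective Φ.φ := fun _ _ h =>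
  le_antisymm (Φ.phi_le_iff.mp h.le) (Φ.phi_le_iff.mp h.ge)

lemma isSeg_biUnion {S : Finset Node} (h : IsSeg S) : IsSeg (S.biUnion Φ.J) := by
  constructor
  · intro a ha b hb
    rw [Finset.mem_biUnion] at ha hb
    obtain ⟨t, ht, ha⟩ := ha
    obtain ⟨t', ht', hb⟩ := hb
    rcases h.1 t ht t' ht' with h1 | h1
    · exact le_or_le ((Φ.le_of_mem_J ha).trans (Φ.phi_mono h1)) (Φ.le_of_mem_J hb)
    · exact le_or_le (Φ.le_of_mem_J ha) ((Φ.le_of_mem_J hb).trans (Φ.phi_mono h1))
  · intro a ha b hb c h1 h2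
    rw [Finset.mem_biUnion] at ha hb ⊢
    obtain ⟨t, ht, ha⟩ := ha
    obtain ⟨t', ht', hb⟩ := hb
    obtain ⟨u, hu, hc⟩ := Φ.exists_mem_J (h2.trans (Φ.le_of_mem_J hb))
    obtain ⟨v, hv, ha'⟩ := Φ.exists_mem_J (h1.trans (Φ.le_of_mem_J hc))
    have : t = v := Φ.J_unique ha ha'
    subst this
    exact ⟨u, h.2 t ht t' ht' u hv hu, hc⟩

lemma disjoint_biUnion {S S' : Finset Node} (h : Disjoint S S') :
    Disjoint (S.biUnion Φ.J) (S'.biUnion Φ.J) := by
  rw [Finset.disjoint_left]
  intro a ha hb
  rw [Finset.mem_biUnion] at ha hb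
  obtain ⟨t, ht, ha⟩ := ha
  obtain ⟨t', ht', hb⟩ := hb
  rw [Φ.J_unique ha hb] at ht
  exact Finset.disjoint_left.mp h ht ht'

lemma isSeg_preimage {S : Finset Node} (h : IsSeg S) :
    IsSeg (S.preimage Φ.φ Φ.phi_injective.injOn) := by
  constructor
  · intro a ha b hb
    rw [Finset.mem_preimage] at ha hb
    rcases h.1 _ ha _ hb with h1 | h1
    · exact Or.inl (Φ.phi_le_iff.mp h1)
    · exact Or.inr (Φ.phi_le_iff.mp h1)
  · intro a ha b hb c h1 h2
    rw [Finset.mem_preimage] at *
    exact h.2 _ ha _ hb _ (Φ.phi_mono h1) (Φ.phi_mono h2)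

lemma disjoint_preimage {S S' : Finset Node} (h : Disjoint S S') :
    Disjoint (S.preimage Φ.φ Φ.phi_injective.injOn)
      (S'.preimage Φ.φ Φ.phi_injective.injOn) := by
  rw [Finset.disjoint_left]
  intro a ha hb
  rw [Finset.mem_preimage] at ha hb
  exact Finset.disjoint_left.mp h ha hb

/-- The tree embedding given by a label function without skipping levels. -/
def ofLabel (κ : Node → ℕ) : Node → Node
  | root k => root (κ (root k))
  | child t k => child (ofLabel κ t) (κ (child t k))

/-- Level preserving tree embedding. -/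
def mkLabel (κ : Node → ℕ) (h1 : ∀ k k', κ (root k) = κ (root k') → k = k')
    (h2 : ∀ t k k', κ (child t k) = κ (child t k') → k = k') : TreeEmb where
  φ := ofLabel κ
  κ := κ
  root_le _ := le_rfl
  child_le _ _ := le_rfl
  inj_root := h1
  inj_child := h2

lemma mkLabel_J (κ : Node → ℕ) (h1 : ∀ k k', κ (root k) = κ (root k') → k = k')
    (h2 : ∀ t k k', κ (child t k) = κ (child t k') → k = k') (t : Node) :
    (mkLabel κ h1 h2).J t = {ofLabel κ t} := by
  ext s
  rw [Finset.mem_singleton]
  cases t with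
  | root k =>
    rw [mem_J_root]
    exact le_root
  | child t k =>
    rw [mem_J_child]
    change s ≤ child (ofLabel κ t) (κ (child t k)) ∧ ¬ s ≤ ofLabel κ t ↔
      s = child (ofLabel κ t) (κ (child t k))
    rw [le_child]
    constructor
    · rintro ⟨h | h, h'⟩
      · exact h
      · exact absurd h h'
    · intro h
      refine ⟨Or.inl h, ?_⟩
      intro h3
      rw [h] at h3
      exact absurd (lt_of_lt_of_le (self_lt_child _ _) h3) (lt_irrefl _)

end TreeEmb

end Pool.Agent.Hhelper24.JT
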