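import Pool.Agent.Hhelper24.JT.Ops

/-!
# Upper and lower square estimates
-/

set_option autoImplicit false

open scoped ENNReal

namespace Pool.Agent.Hhelper24.JT

open Node

variable {𝕜 : Type*} [RCLike 𝕜]

/-- The norm is almost attained on a family. -/
lemma exists_fam (x : JX 𝕜) {ε : ℝ} (hε : 0 < ε) :
    ∃ θ : Fam, ‖x‖ ^ 2 - ε < ∑ i, ‖∑ t ∈ θ.S i, x t‖ ^ 2 := by
  by_contra hc
  push Not at hc
  rcases le_or_gt (‖x‖ ^ 2) ε with hxe | hxe
  · have h2 := hc (oneFam ∅ isSeg_empty)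
    have h1 : ‖x‖ ≤ 0 := by
      rw [norm_le_iff le_rfl]
      intro θ
      have := hc θ
      nlinarith
    have h4 : x = 0 := norm_le_zero_iff.mp h1
    subst h4
    simp at h2
    linarith
  · have h1 : ‖x‖ ≤ Real.sqrt (‖x‖ ^ 2 - ε) := by
      rw [norm_le_iff (Real.sqrt_nonneg _)]
      intro θ
      rw [Real.sq_sqrt (by linarith)]
      exact hc θ
    have h2 : ‖x‖ ^ 2 ≤ ‖x‖ ^ 2 - ε := by
      have := pow_le_pow_left₀ (norm_nonneg x) h1 2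
      rwa [Real.sq_sqrt (by linarith)] at this
    linarith

lemma norm_sq_sum_le_of_unique {ι E : Type*} [SeminormedAddCommGroup E] (s : Finset ι) (a : ι → E)
    (h : ∀ i ∈ s, ∀ j ∈ s, a i ≠ 0 → a j ≠ 0 → i = j) :
    ‖∑ i ∈ s, a i‖ ^ 2 ≤ ∑ i ∈ s, ‖a i‖ ^ 2 := by
  by_cases h0 : ∃ i ∈ s, a i ≠ 0
  · obtain ⟨i, hi, hai⟩ := h0
    rw [Finset.sum_eq_single_of_mem i hi (fun j hj hji => by
      by_contra haj
      exact hji (h j hj i hi haj hai))]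
    exact Finset.single_le_sum (f := fun j => ‖a j‖ ^ 2) (fun j _ => sq_nonneg _) hi
  · push Not at h0
    rw [Finset.sum_eq_zero h0]
    simp only [norm_zero, ne_eq, OfNat.ofNat_ne_zero, not_false_eq_true, zero_pow]
    exact Finset.sum_nonneg fun _ _ => sq_nonneg _

/-- Upper square estimate for vectors with incomparable supports. -/
lemma upper_est {ι : Type*} (s : Finset ι) (x : ι → JX 𝕜) (A : ι → Node → Prop)
    (hsupp : ∀ j ∈ s, ∀ t, x j t ≠ 0 → A j t)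
    (hinc : ∀ j ∈ s, ∀ j' ∈ s, ∀ t t', A j t → A j' t' → (t ≤ t' ∨ t' ≤ t) → j = j') :
    ‖∑ j ∈ s, x j‖ ^ 2 ≤ ∑ j ∈ s, ‖x j‖ ^ 2 := by
  have h0 : 0 ≤ ∑ j ∈ s, ‖x j‖ ^ 2 := Finset.sum_nonneg fun _ _ => sq_nonneg _
  have h1 : ‖∑ j ∈ s, x j‖ ≤ Real.sqrt (∑ j ∈ s, ‖x j‖ ^ 2) := by
    rw [norm_le_iff (Real.sqrt_nonneg _)]
    intro θ
    rw [Real.sq_sqrt h0]
    calc ∑ i, ‖∑ t ∈ θ.S i, (∑ j ∈ s, x j) t‖ ^ 2
        = ∑ i, ‖∑ j ∈ s, ∑ t ∈ θ.S i, x j t‖ ^ 2 := by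
          refine Finset.sum_congr rfl fun i _ => ?_
          simp only [sum_apply]
          rw [Finset.sum_comm]
      _ ≤ ∑ i, ∑ j ∈ s, ‖∑ t ∈ θ.S i, x j t‖ ^ 2 := by
          refine Finset.sum_le_sum fun i _ => ?_
          refine norm_sq_sum_le_of_unique s _ ?_
          intro j hj j' hj' h h'
          obtain ⟨t, ht, hxt⟩ := Finset.exists_ne_zero_of_sum_ne_zero h
          obtain ⟨t', ht', hxt'⟩ := Finset.exists_ne_zero_of_sum_ne_zero h'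
          exact hinc j hj j' hj' t t' (hsupp j hj t hxt) (hsupp j' hj' t' hxt')
            ((θ.seg i).1 t ht t' ht')
      _ = ∑ j ∈ s, ∑ i, ‖∑ t ∈ θ.S i, x j t‖ ^ 2 := Finset.sum_comm
      _ ≤ ∑ j ∈ s, ‖x j‖ ^ 2 := Finset.sum_le_sum fun j _ => fam_le (x j) θ
  have := pow_le_pow_left₀ (norm_nonneg _) h1 2
  rwa [Real.sq_sqrt h0] at this

/-- Lower square estimate for disjoint convex sets. -/
lemma lower_est {ι : Type*} (s : Finset ι) (x : JX 𝕜) (A : ι → Node → Prop)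
    (hA : ∀ j, Conv (A j)) (hd : ∀ j ∈ s, ∀ j' ∈ s, j ≠ j' → ∀ t, A j t → ¬ A j' t) :
    ∑ j ∈ s, ‖res (A j) (hA j) x‖ ^ 2 ≤ ‖x‖ ^ 2 := by
  classical
  refine le_of_forall_pos_le_add fun ε hε => ?_
  have hδ : 0 < ε / (s.card + 1) := by positivity
  have hfam : ∀ j, ∃ θ : Fam, ‖res (A j) (hA j) x‖ ^ 2 - ε / (s.card + 1) <
      ∑ i, ‖∑ t ∈ θ.S i, res (A j) (hA j) x t‖ ^ 2 := fun j => exists_fam _ hδ
  choose θ hθ using hfam
  have h1 := sum_sq_le x (s.sigma fun j => (Finset.univ : Finset (Fin (θ j).n)))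
    (fun p => ((θ p.1).S p.2).filter (A p.1)) (fun p _ => ((θ p.1).seg p.2).filter _ (hA p.1)) (by
      rintro ⟨j, i⟩ hj ⟨j', i'⟩ hj' hne
      rw [Finset.mem_sigma] at hj hj'
      by_cases hjj : j = j'
      · subst hjj
        refine Finset.disjoint_filter_filter ((θ j).disj i i' ?_)
        rintro rfl
        exact hne rfl
      · rw [Finset.disjoint_left]
        intro t ht ht'
        rw [Finset.mem_filter] at ht ht'
        exact hd j hj.1 j' hj'.1 hjj t ht.2 ht'.2)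
  rw [Finset.sum_sigma] at h1
  have h2 : ∀ j, ∑ i, ‖∑ t ∈ ((θ j).S i).filter (A j), x t‖ ^ 2 =
      ∑ i, ‖∑ t ∈ (θ j).S i, res (A j) (hA j) x t‖ ^ 2 := by
    intro j
    refine Finset.sum_congr rfl fun i _ => ?_
    rw [Finset.sum_filter]
    congr 2
    refine Finset.sum_congr rfl fun t _ => ?_
    rw [res_apply]
  simp only [h2] at h1
  calc ∑ j ∈ s, ‖res (A j) (hA j) x‖ ^ 2
      ≤ ∑ j ∈ s, ((∑ i, ‖∑ t ∈ (θ j).S i, res (A j) (hA j) x t‖ ^ 2) + ε / (s.card + 1)) := by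
        refine Finset.sum_le_sum fun j _ => ?_
        linarith [hθ j]
    _ = (∑ j ∈ s, ∑ i, ‖∑ t ∈ (θ j).S i, res (A j) (hA j) x t‖ ^ 2) +
        s.card * (ε / (s.card + 1)) := by
        rw [Finset.sum_add_distrib, Finset.sum_const, nsmul_eq_mul]
    _ ≤ ‖x‖ ^ 2 + ε := by
        have : (s.card : ℝ) * (ε / (s.card + 1)) ≤ ε := by
          rw [mul_div_assoc', div_le_iff₀ (by positivity)]
          nlinarith
        linarith

/-- The coordinates of an element are square summable. -/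
lemma sum_apply_sq_le (x : JX 𝕜) (s : Finset Node) : ∑ t ∈ s, ‖x t‖ ^ 2 ≤ ‖x‖ ^ 2 := by
  have := sum_sq_le x s (fun t => {t}) (fun t _ => isSeg_singleton t) (by
    intro i _ j _ hij
    simpa using hij)
  simpa using this

/-- Dual estimate. -/
lemma dual_est {E : Type*} [NormedAddCommGroup E] [NormedSpace 𝕜 E] {ι : Type*} (s : Finset ι)
    (x : ι → E) (C : ℝ)
    (h : ∀ c : ι → 𝕜, ‖∑ i ∈ s, c i • x i‖ ^ 2 ≤ C ^ 2 * ∑ i ∈ s, ‖c i‖ ^ 2)
    (f : E →L[𝕜] 𝕜) : ∑ i ∈ s, ‖f (x i)‖ ^ 2 ≤ (C * ‖f‖) ^ 2 := by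
  set T := ∑ i ∈ s, ‖f (x i)‖ ^ 2 with hT
  have hT0 : 0 ≤ T := Finset.sum_nonneg fun _ _ => sq_nonneg _
  let c : ι → 𝕜 := fun i => starRingEnd 𝕜 (f (x i))
  have h1 : f (∑ i ∈ s, c i • x i) = ((T : ℝ) : 𝕜) := by
    rw [map_sum, hT]
    push_cast
    refine Finset.sum_congr rfl fun i _ => ?_
    rw [map_smul, smul_eq_mul]
    exact RCLike.conj_mul _
  have h2 : ‖∑ i ∈ s, c i • x i‖ ^ 2 ≤ C ^ 2 * T := by
    refine (h c).trans (le_of_eq ?_)
    congr 1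
    refine Finset.sum_congr rfl fun i _ => ?_
    simp [c]
  have h3 : T ≤ ‖f‖ * ‖∑ i ∈ s, c i • x i‖ := by
    have := f.le_opNorm (∑ i ∈ s, c i • x i)
    rw [h1, RCLike.norm_ofReal, abs_of_nonneg hT0] at this
    exact this
  have h4 : T ^ 2 ≤ ‖f‖ ^ 2 * (C ^ 2 * T) := by
    calc T ^ 2 ≤ (‖f‖ * ‖∑ i ∈ s, c i • x i‖) ^ 2 := pow_le_pow_left₀ hT0 h3 2
      _ = ‖f‖ ^ 2 * ‖∑ i ∈ s, c i • x i‖ ^ 2 := mul_pow _ _ _
      _ ≤ ‖f‖ ^ 2 * (C ^ 2 * T) := mul_le_mul_of_nonneg_left h2 (sq_nonneg _)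
  rcases hT0.eq_or_lt with h0 | hpos
  · rw [← h0]; positivity
  · have : T * T ≤ (C * ‖f‖) ^ 2 * T := by nlinarith
    exact le_of_mul_le_mul_right this hpos

/-- Linear combinations of unit vectors over an antichain. -/
lemma norm_sum_e_sq_le {ι : Type*} (s : Finset ι) (t : ι → Node)
    (hinc : ∀ i ∈ s, ∀ j ∈ s, t i ≤ t j → i = j) (c : ι → 𝕜) :
    ‖∑ i ∈ s, c i • (e (t i) : JX 𝕜)‖ ^ 2 ≤ ∑ i ∈ s, ‖c i‖ ^ 2 := by
  refine (upper_est s (fun i => c i • (e (t i) : JX 𝕜)) (fun i u => u = t i) ?_ ?_).trans ?_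
  · intro j _ u hu
    by_contra h
    apply hu
    rw [smul_apply, e_apply_ne h, mul_zero]
  · rintro j hj j' hj' u u' rfl rfl h
    rcases h with h | h
    · exact hinc j hj j' hj' h
    · exact (hinc j' hj' j hj h).symm
  · refine Finset.sum_le_sum fun i _ => ?_
    rw [norm_smul, norm_e, mul_one]

/-- Functionals are square summable on antichains of unit vectors. -/
lemma sum_dual_e_sq_le {ι : Type*} (s : Finset ι) (t : ι → Node)
    (hinc : ∀ i ∈ s, ∀ j ∈ s, t i ≤ t j → i = j) (f : JX 𝕜 →L[𝕜] 𝕜) :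
    ∑ i ∈ s, ‖f (e (t i))‖ ^ 2 ≤ ‖f‖ ^ 2 := by
  have := dual_est s (fun i => (e (t i) : JX 𝕜)) 1 (fun c => by
    rw [one_pow, one_mul]
    exact norm_sum_e_sq_le s t hinc c) f
  rwa [one_mul] at this

lemma summable_of_bdd {ι : Type*} (a : ι → ℝ) (ha : ∀ i, 0 ≤ a i) (C : ℝ)
    (h : ∀ s : Finset ι, ∑ i ∈ s, a i ≤ C) : Summable a :=
  summable_of_sum_le ha h

/-- Coordinates tend to zero along injective sequences of nodes. -/
lemma tendsto_apply_zero (x : JX 𝕜) (t : ℕ → Node) (ht : Function.Injective t) :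
    Filter.Tendsto (fun n => x (t n)) Filter.atTop (nhds 0) := by
  have h1 : Summable (fun n => ‖x (t n)‖ ^ 2) := by
    refine summable_of_sum_le (fun _ => sq_nonneg _) (c := ‖x‖ ^ 2) fun s => ?_
    have := sum_apply_sq_le x (s.map ⟨t, ht⟩)
    rwa [Finset.sum_map] at this
  have h2 := h1.tendsto_atTop_zero
  rw [tendsto_zero_iff_norm_tendsto_zero]
  have h3 := h2.sqrt
  simpa [Real.sqrt_sq (norm_nonneg _)] using h3

/-- Functionals tend to zero along sequences of unit vectors of an antichain. -/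
lemma tendsto_dual_zero (f : JX 𝕜 →L[𝕜] 𝕜) (t : ℕ → Node) (hinc : ∀ i j, t i ≤ t j → i = j) :
    Filter.Tendsto (fun n => f (e (t n))) Filter.atTop (nhds 0) := by
  have h1 : Summable (fun n => ‖f (e (t n))‖ ^ 2) :=
    summable_of_sum_le (fun _ => sq_nonneg _) (c := ‖f‖ ^ 2) fun s =>
      sum_dual_e_sq_le s t (fun i _ j _ h => hinc i j h) f
  have h2 := h1.tendsto_atTop_zero
  rw [tendsto_zero_iff_norm_tendsto_zero]
  have h3 := h2.sqrt
  simpa [Real.sqrt_sq (norm_nonneg _)] using h3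

/-- The coordinate functionals. -/
noncomputable def δ (t : Node) : JX 𝕜 →L[𝕜] 𝕜 :=
  LinearMap.mkContinuous (evalₗ t) 1 (fun x => by
    rw [one_mul]; exact norm_apply_le x t)

@[simp] lemma δ_apply (t : Node) (x : JX 𝕜) : δ t x = x t := rfl

lemma norm_δ_le (t : Node) : ‖(δ t : JX 𝕜 →L[𝕜] 𝕜)‖ ≤ 1 :=
  LinearMap.mkContinuous_norm_le _ zero_le_one _

end Pool.Agent.Hhelper24.JT
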