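import Pool.Agent.Hhelper24.JT.Stable

/-!
# The identity factors through every operator or through its complement
-/

set_option autoImplicit false
set_option maxSynthPendingDepth 3

open scoped ENNReal Topology
open Filter

namespace Pool.Agent.Hhelper24.JT

open Node

variable {𝕜 : Type*} [RCLike 𝕜]

/-- The label function relabelling the roots. -/
def rootLabel (σ : ℕ → ℕ) : Node → ℕ
  | root k => σ k
  | child _ k => k

lemma rlabel_ofLabel (σ : ℕ → ℕ) (t : Node) :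
    (TreeEmb.ofLabel (rootLabel σ) t).rlabel = σ t.rlabel := by
  induction t with
  | root k => rfl
  | child t k ih => exact ih

/-- The embedding relabelling the roots. -/
def rootEmb (σ : ℕ → ℕ) (hσ : Function.Injective σ) : TreeEmb :=
  TreeEmb.mkLabel (rootLabel σ) (fun _ _ h => hσ h) (fun _ _ _ h => h)

lemma factor_of (Q C E : JX 𝕜 →L[𝕜] JX 𝕜) (μ : ℕ → 𝕜) (R : ℝ) (hR : 0 ≤ R)
    (hμ : ∀ k, ‖μ k‖ ≤ R)
    (h : ‖C.comp (Q.comp E) - rootMul μ R hR hμ‖ ≤ 1 / 4) (S : Set ℕ) (hS : S.Infinite)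
    (hS' : ∀ k ∈ S, 1 / 2 ≤ ‖μ k‖) :
    ∃ A B : JX 𝕜 →L[𝕜] JX 𝕜, ∀ x, A (Q (B x)) = x := by
  obtain ⟨σ, hσ, hσS⟩ : ∃ σ : ℕ → ℕ, Function.Injective σ ∧ ∀ k, σ k ∈ S :=
    ⟨fun k => (hS.natEmbedding S k : ℕ), fun a b hab => (hS.natEmbedding S).injective
      (Subtype.ext hab), fun k => (hS.natEmbedding S k).2⟩
  let Φ := rootEmb σ hσ
  have hinv : ∀ k, ‖(μ (σ k))⁻¹‖ ≤ 2 := by
    intro k
    rw [norm_inv]
    have h1 := hS' _ (hσS k)
    calc (‖μ (σ k)‖)⁻¹ ≤ (1 / 2 : ℝ)⁻¹ := inv_anti₀ (by norm_num) h1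
      _ = 2 := by norm_num
  let V : JX 𝕜 →L[𝕜] JX 𝕜 := rootMul (fun k => (μ (σ k))⁻¹) 2 zero_le_two hinv
  have hV : ‖V‖ ≤ 2 := norm_rootMul_le _ _ _ _
  let A₀ : JX 𝕜 →L[𝕜] JX 𝕜 := V.comp ((colOp Φ).comp C)
  let B₀ : JX 𝕜 →L[𝕜] JX 𝕜 := E.comp (embOp Φ)
  let X : JX 𝕜 →L[𝕜] JX 𝕜 := A₀.comp (Q.comp B₀)
  have hL : V.comp ((colOp Φ).comp ((rootMul μ R hR hμ).comp (embOp Φ))) =
      (1 : JX 𝕜 →L[𝕜] JX 𝕜) := by
    apply clm_ext
    intro t
    change V (colOp Φ (rootMul μ R hR hμ (embOp Φ (e t)))) = e t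
    rw [embOp_e]
    have h1 : rootMul μ R hR hμ (e (Φ.φ t)) = μ (σ t.rlabel) • e (Φ.φ t) := by
      apply JX.ext
      intro s
      rw [rootMul_apply, smul_apply]
      by_cases hst : s = Φ.φ t
      · rw [hst]
        congr 1
        change μ (TreeEmb.ofLabel (rootLabel σ) t).rlabel = _
        rw [rlabel_ofLabel]
      · rw [e_apply_ne hst, mul_zero, mul_zero]
    rw [h1, map_smul, colOp_e Φ (Φ.phi_mem_J t), map_smul]
    apply JX.ext
    intro s
    rw [smul_apply, rootMul_apply]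
    by_cases hst : s = t
    · rw [hst, e_apply_self, mul_one]
      refine mul_inv_cancel₀ ?_
      intro h0
      have := hS' _ (hσS t.rlabel)
      rw [h0, norm_zero] at this
      norm_num at this
    · rw [e_apply_ne hst, mul_zero, mul_zero]
  have hX : ‖1 - X‖ < 1 := by
    have h1 : 1 - X = -(V.comp ((colOp Φ).comp ((C.comp (Q.comp E) - rootMul μ R hR hμ).comp
        (embOp Φ)))) := by
      rw [← hL]
      ext1 x
      simp [X, A₀, B₀]
    rw [h1, norm_neg]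
    calc ‖V.comp ((colOp Φ).comp ((C.comp (Q.comp E) - rootMul μ R hR hμ).comp (embOp Φ)))‖
        ≤ ‖V‖ * (‖colOp Φ‖ * (‖C.comp (Q.comp E) - rootMul μ R hR hμ‖ * ‖embOp Φ‖)) :=
          (ContinuousLinearMap.opNorm_comp_le _ _).trans
            (mul_le_mul_of_nonneg_left ((ContinuousLinearMap.opNorm_comp_le _ _).trans
              (mul_le_mul_of_nonneg_left (ContinuousLinearMap.opNorm_comp_le _ _)
                (norm_nonneg _))) (norm_nonneg _))
      _ ≤ 2 * (1 * (1 / 4 * 1)) := by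
          refine mul_le_mul hV ?_ (by positivity) zero_le_two
          refine mul_le_mul (norm_colOp_le Φ) ?_ (by positivity) zero_le_one
          exact mul_le_mul h (norm_embOp_le Φ) (norm_nonneg _) (by norm_num)
      _ < 1 := by norm_num
  let U := Units.oneSub (1 - X) hX
  have hU : (U : JX 𝕜 →L[𝕜] JX 𝕜) = X := by
    change 1 - (1 - X) = X
    abel
  have hU2 : (↑U⁻¹ : JX 𝕜 →L[𝕜] JX 𝕜) * X = 1 := by
    rw [← hU]
    exact U.inv_mul
  refine ⟨(↑U⁻¹ : JX 𝕜 →L[𝕜] JX 𝕜).comp A₀, B₀, fun x => ?_⟩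
  have h3 : ((↑U⁻¹ : JX 𝕜 →L[𝕜] JX 𝕜) * X) x = (1 : JX 𝕜 →L[𝕜] JX 𝕜) x := by rw [hU2]
  exact h3

/-- The factorization theorem. -/
theorem factorization (P : JX 𝕜 →L[𝕜] JX 𝕜) :
    (∃ A B : JX 𝕜 →L[𝕜] JX 𝕜, ∀ x, A (P (B x)) = x) ∨
      (∃ A B : JX 𝕜 →L[𝕜] JX 𝕜, ∀ x, A ((1 - P) (B x)) = x) := by
  obtain ⟨C, E, μ, hμ, h1, h2⟩ := exists_root_diag P (show (0:ℝ) < 1 / 4 by norm_num)
  by_cases hS : {k | 1 / 2 ≤ ‖μ k‖}.Infinite
  · left
    exact factor_of P C E μ ‖P‖ (norm_nonneg P) hμ h2 _ hS fun k hk => hk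
  · right
    have hS2 : {k | 1 / 2 ≤ ‖1 - μ k‖}.Infinite := by
      intro hfin
      rw [Set.not_infinite] at hS
      apply Set.infinite_univ (α := ℕ)
      refine (hS.union hfin).subset fun k _ => ?_
      by_contra hk
      rw [Set.mem_union, not_or] at hk
      have h3 : ¬ (1 / 2 ≤ ‖μ k‖) := hk.1
      have h4 : ¬ (1 / 2 ≤ ‖1 - μ k‖) := hk.2
      push Not at h3 h4
      have h5 : (1 : ℝ) ≤ ‖1 - μ k‖ + ‖μ k‖ := by
        calc (1 : ℝ) = ‖(1 - μ k) + μ k‖ := by simp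
          _ ≤ _ := norm_add_le _ _
      linarith
    have hμ' : ∀ k, ‖1 - μ k‖ ≤ 1 + ‖P‖ := by
      intro k
      refine (norm_sub_le _ _).trans ?_
      rw [norm_one]
      linarith [hμ k]
    refine factor_of (1 - P) C E (fun k => 1 - μ k) (1 + ‖P‖) (by positivity) hμ' ?_ _ hS2
      fun k hk => hk
    have h3 : C.comp ((1 - P).comp E) - rootMul (fun k => 1 - μ k) (1 + ‖P‖) (by positivity) hμ' =
        -(C.comp (P.comp E) - rootMul μ ‖P‖ (norm_nonneg P) hμ) := by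
      ext1 x
      apply JX.ext
      intro t
      change (C (E x - P (E x)) - rootMul (fun k => 1 - μ k) (1 + ‖P‖) _ hμ' x) t =
        (-(C (P (E x)) - rootMul μ ‖P‖ (norm_nonneg P) hμ x)) t
      rw [map_sub, h1, sub_apply, sub_apply, neg_apply, sub_apply, rootMul_apply, rootMul_apply]
      ring
    rw [h3, norm_neg]
    exact h2

end Pool.Agent.Hhelper24.JT
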