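import Pool.Agent.Hhelper24.JT.Estimates

/-!
# Functionals which vanish along all branches are limits of finitely supported ones
-/

set_option autoImplicit false

open scoped ENNReal

namespace Pool.Agent.Hhelper24.JT

open Node

variable {𝕜 : Type*} [RCLike 𝕜]

/-- The `n`-th node of a branch. -/
def br (b : ℕ → ℕ) : ℕ → Node
  | 0 => root (b 0)
  | n + 1 => child (br b n) (b (n + 1))

@[simp] lemma level_br (b : ℕ → ℕ) (n : ℕ) : (br b n).level = n := by
  induction n with
  | zero => rfl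
  | succ n ih => simp [br, level, ih]

lemma br_injective (b : ℕ → ℕ) : Function.Injective (br b) := by
  intro m n h
  have := congrArg level h
  simpa using this

lemma br_mono (b : ℕ → ℕ) {m n : ℕ} (h : m ≤ n) : br b m ≤ br b n := by
  induction n, h using Nat.le_induction with
  | base => exact le_rfl
  | succ n _ ih => exact ih.trans (self_le_child _ _)

lemma eq_br_of_le (b : ℕ → ℕ) {s : Node} {n : ℕ} (h : s ≤ br b n) : s = br b s.level := by
  have h1 : s.level ≤ n := by simpa using level_mono h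
  exact eq_of_le_of_le_of_level h (br_mono b h1) (by simp)

lemma br_le_br_iff (b : ℕ → ℕ) {m n : ℕ} : br b m ≤ br b n ↔ m ≤ n :=
  ⟨fun h => by simpa using level_mono h, br_mono b⟩

lemma conv_ge (t : Node) : Conv (fun s => t ≤ s) := conv_of_upper fun _ _ h1 h2 => h1.trans h2

/-- Restriction to the nodes above `t`. -/
noncomputable def up (t : Node) : JX 𝕜 →L[𝕜] JX 𝕜 := res (fun s => t ≤ s) (conv_ge t)

lemma up_apply (t : Node) (x : JX 𝕜) (s : Node) : up t x s = if t ≤ s then x s else 0 := by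
  rw [up, res_apply]
  congr

lemma norm_up_apply_le (t : Node) (x : JX 𝕜) : ‖up t x‖ ≤ ‖x‖ := norm_res_apply_le _ _ x

/-- The norm of a functional above a node. -/
noncomputable def an (f : JX 𝕜 →L[𝕜] 𝕜) (t : Node) : ℝ := ‖f.comp (up t)‖

lemma an_mono (f : JX 𝕜 →L[𝕜] 𝕜) {s t : Node} (h : s ≤ t) : an f t ≤ an f s := by
  have h1 : f.comp (up t) = (f.comp (up s)).comp (up t) := by
    ext x
    simp only [ContinuousLinearMap.comp_apply]
    congr 1
    apply JX.ext
    intro u
    rw [up_apply, up_apply, up_apply]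
    by_cases hu : t ≤ u
    · simp [hu, h.trans hu]
    · simp [hu]
  unfold an
  rw [h1]
  refine ContinuousLinearMap.opNorm_le_bound _ (norm_nonneg _) fun x => ?_
  exact ((f.comp (up s)).le_opNorm _).trans
    (mul_le_mul_of_nonneg_left (norm_up_apply_le t x) (norm_nonneg _))

/-- A vector above `t` almost norming `f` there. -/
lemma exists_above (f : JX 𝕜 →L[𝕜] 𝕜) (t : Node) {r : ℝ} (hr : r < an f t) :
    ∃ x : JX 𝕜, ‖x‖ ≤ 1 ∧ (∀ s, x s ≠ 0 → t ≤ s) ∧ r < ‖f x‖ := by
  obtain ⟨x, hx, hr'⟩ := (f.comp (up t)).exists_lt_apply_of_lt_opNorm hr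
  refine ⟨up t x, (norm_up_apply_le t x).trans hx.le, ?_, hr'⟩
  intro s hs
  by_contra hts
  apply hs
  rw [up_apply, if_neg hts]

/-- Only finitely many incomparable nodes carry a large part of a functional. -/
lemma card_antichain_le (f : JX 𝕜 →L[𝕜] 𝕜) {η : ℝ} (hη : 0 < η) (s : Finset Node)
    (hinc : ∀ t ∈ s, ∀ u ∈ s, t ≤ u → t = u) (h : ∀ t ∈ s, η ≤ an f t) :
    (s.card : ℝ) * (η / 2) ^ 2 ≤ ‖f‖ ^ 2 := by
  have hx : ∀ t, ∃ x : JX 𝕜, t ∈ s → ‖x‖ ≤ 1 ∧ (∀ u, x u ≠ 0 → t ≤ u) ∧ η / 2 < ‖f x‖ := by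
    intro t
    by_cases ht : t ∈ s
    · obtain ⟨x, h1⟩ := exists_above f t (lt_of_lt_of_le (half_lt_self hη) (h t ht))
      exact ⟨x, fun _ => h1⟩
    · exact ⟨0, fun h => absurd h ht⟩
  choose x hx using hx
  have h1 := dual_est s x 1 (fun c => by
    rw [one_pow, one_mul]
    refine (upper_est s (fun t => c t • x t) (fun t u => t ≤ u) ?_ ?_).trans ?_
    · intro t ht u hu
      apply (hx t ht).2.1
      intro h0
      apply hu
      rw [smul_apply, h0, mul_zero]
    · intro t ht t' ht' u u' htu htu' huu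
      rcases huu with huu | huu
      · rcases le_or_le (htu.trans huu) htu' with h | h
        · exact hinc t ht t' ht' h
        · exact (hinc t' ht' t ht h).symm
      · rcases le_or_le htu (htu'.trans huu) with h | h
        · exact hinc t ht t' ht' h
        · exact (hinc t' ht' t ht h).symm
    · refine Finset.sum_le_sum fun t ht => ?_
      rw [norm_smul]
      have := (hx t ht).1
      have h2 : ‖c t‖ * ‖x t‖ ≤ ‖c t‖ := mul_le_of_le_one_right (norm_nonneg _) this
      exact pow_le_pow_left₀ (by positivity) h2 2) f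
  rw [one_mul] at h1
  calc (s.card : ℝ) * (η / 2) ^ 2 = ∑ _t ∈ s, (η / 2) ^ 2 := by
        rw [Finset.sum_const, nsmul_eq_mul]
    _ ≤ ∑ t ∈ s, ‖f (x t)‖ ^ 2 := by
        refine Finset.sum_le_sum fun t ht => ?_
        exact pow_le_pow_left₀ (by positivity) (hx t ht).2.2.le 2
    _ ≤ ‖f‖ ^ 2 := h1

lemma finite_of_antichain (f : JX 𝕜 →L[𝕜] 𝕜) {η : ℝ} (hη : 0 < η) (t : ℕ → Node)
    (hinc : ∀ i j, t i ≤ t j → i = j) : {k | η ≤ an f (t k)}.Finite := by
  have hinj : Function.Injective t := fun i j h => hinc i j h.le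
  by_contra hinf
  have hinf' : Set.Infinite {k | η ≤ an f (t k)} := hinf
  obtain ⟨N, hN⟩ := exists_nat_gt (‖f‖ ^ 2 / (η / 2) ^ 2)
  obtain ⟨s, hs, hcard⟩ := hinf'.exists_subset_card_eq N
  have h1 := card_antichain_le f hη (s.map ⟨t, hinj⟩) (by
    intro u hu v hv huv
    rw [Finset.mem_map] at hu hv
    obtain ⟨i, -, rfl⟩ := hu
    obtain ⟨j, -, rfl⟩ := hv
    simp only [Function.Embedding.coeFn_mk] at huv ⊢
    rw [hinc i j huv]) (by
    intro u hu
    rw [Finset.mem_map] at hu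
    obtain ⟨i, hi, rfl⟩ := hu
    exact hs hi)
  rw [Finset.card_map, hcard, ← le_div_iff₀ (by positivity)] at h1
  linarith

/-- König's lemma for the nodes carrying a large part of a functional. -/
lemma finite_large (f : JX 𝕜 →L[𝕜] 𝕜) {η : ℝ} (hη : 0 < η)
    (hb : ∀ b : ℕ → ℕ, ∃ n, an f (br b n) < η) : {t | η ≤ an f t}.Finite := by
  by_contra hinf
  let Bad : Node → Prop := fun t => {s | t ≤ s ∧ η ≤ an f s}.Infinite
  have hroot : ∃ r, Bad (root r) := by
    by_contra hc
    push Not at hc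
    apply hinf
    have hR : {r : ℕ | η ≤ an f (root r)}.Finite :=
      finite_of_antichain f hη (fun r => root r) (fun i j h => by
        have := le_root.mp h
        simpa using this)
    have h1 : {t | η ≤ an f t} ⊆ ⋃ r ∈ {r : ℕ | η ≤ an f (root r)},
        {s | root r ≤ s ∧ η ≤ an f s} := by
      intro t ht
      rw [Set.mem_iUnion₂]
      refine ⟨t.rlabel, ?_, root_rlabel_le t, ht⟩
      exact le_trans ht (an_mono f (root_rlabel_le t))
    refine Set.Finite.subset (hR.biUnion fun r _ => ?_) h1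
    exact Set.not_infinite.mp (hc r)
  have hchild : ∀ t, Bad t → ∃ k, Bad (child t k) := by
    intro t ht
    by_contra hc
    push Not at hc
    apply ht
    have hK : {k : ℕ | η ≤ an f (child t k)}.Finite :=
      finite_of_antichain f hη (fun k => child t k) (fun i j h => by
        have := eq_of_le_of_level h (le_refl _)
        simpa using this)
    have h1 : {s | t ≤ s ∧ η ≤ an f s} ⊆ {t} ∪ ⋃ k ∈ {k : ℕ | η ≤ an f (child t k)},
        {s | child t k ≤ s ∧ η ≤ an f s} := by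
      rintro s ⟨hts, hs⟩
      have key : ∀ s : Node, t ≤ s → s = t ∨ ∃ k, child t k ≤ s := by
        intro s
        induction s with
        | root k => intro h; left; exact (le_root.mp h).symm
        | child u k ih =>
          intro h
          rcases le_child.mp h with h | h
          · left; exact h.symm
          · rcases ih h with rfl | ⟨j, hj⟩
            · right; exact ⟨k, le_rfl⟩
            · right; exact ⟨j, hj.trans (self_le_child u k)⟩
      rcases key s hts with rfl | ⟨k, hk⟩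
      · left; rfl
      · right
        rw [Set.mem_iUnion₂]
        exact ⟨k, le_trans hs (an_mono f hk), hk, hs⟩
    refine Set.Finite.subset ((Set.finite_singleton t).union (hK.biUnion fun k _ => ?_)) h1
    exact Set.not_infinite.mp (hc k)
  obtain ⟨r₀, hr₀⟩ := hroot
  choose! nxt hnxt using hchild
  let p : ℕ → {t // Bad t} := fun n =>
    Nat.rec ⟨root r₀, hr₀⟩ (fun _ q => ⟨child q.1 (nxt q.1), hnxt q.1 q.2⟩) n
  let b : ℕ → ℕ := fun n => Nat.casesOn n r₀ (fun m => nxt (p m).1)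
  have hbr : ∀ n, br b n = (p n).1 := by
    intro n
    induction n with
    | zero => rfl
    | succ n ih =>
      change child (br b n) (nxt (p n).1) = child (p n).1 (nxt (p n).1)
      rw [ih]
  obtain ⟨n, hn⟩ := hb b
  have h1 : Bad (br b n) := by rw [hbr]; exact (p n).2
  obtain ⟨s, hs1, hs2⟩ := h1.nonempty
  have := an_mono f hs1
  linarith

/-- Combination of two vectors with small cross terms. -/
lemma norm_add_sq_le (y x : JX 𝕜) (B : ℝ)
    (h : ∀ θ : Fam, ∑ i, ‖∑ t ∈ θ.S i, y t‖ * ‖∑ t ∈ θ.S i, x t‖ ≤ B) :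
    ‖y + x‖ ^ 2 ≤ ‖y‖ ^ 2 + ‖x‖ ^ 2 + 2 * B := by
  have hB : 0 ≤ B := by
    exact le_trans (Finset.sum_nonneg fun i _ => mul_nonneg (norm_nonneg _) (norm_nonneg _))
      (h (oneFam ∅ isSeg_empty))
  have h0 : 0 ≤ ‖y‖ ^ 2 + ‖x‖ ^ 2 + 2 * B := by positivity
  have h1 : ‖y + x‖ ≤ Real.sqrt (‖y‖ ^ 2 + ‖x‖ ^ 2 + 2 * B) := by
    rw [norm_le_iff (Real.sqrt_nonneg _)]
    intro θ
    rw [Real.sq_sqrt h0]
    have h2 := fam_le y θ
    have h3 := fam_le x θ
    have h4 := h θ
    calc ∑ i, ‖∑ t ∈ θ.S i, (y + x) t‖ ^ 2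
        ≤ ∑ i, (‖∑ t ∈ θ.S i, y t‖ ^ 2 + ‖∑ t ∈ θ.S i, x t‖ ^ 2 +
          2 * (‖∑ t ∈ θ.S i, y t‖ * ‖∑ t ∈ θ.S i, x t‖)) := by
          refine Finset.sum_le_sum fun i _ => ?_
          simp only [add_apply, Finset.sum_add_distrib]
          have h5 := norm_add_le (∑ t ∈ θ.S i, y t) (∑ t ∈ θ.S i, x t)
          have h6 := norm_nonneg (∑ t ∈ θ.S i, y t + ∑ t ∈ θ.S i, x t)
          nlinarith
      _ = (∑ i, ‖∑ t ∈ θ.S i, y t‖ ^ 2) + (∑ i, ‖∑ t ∈ θ.S i, x t‖ ^ 2) +
          2 * ∑ i, (‖∑ t ∈ θ.S i, y t‖ * ‖∑ t ∈ θ.S i, x t‖) := by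
          rw [Finset.sum_add_distrib, Finset.sum_add_distrib, Finset.mul_sum]
      _ ≤ _ := by linarith
  have := pow_le_pow_left₀ (norm_nonneg _) h1 2
  rwa [Real.sq_sqrt h0] at this

end Pool.Agent.Hhelper24.JT
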