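import Pool.Agent.Hhelper24.JT.Small

/-!
# Ultralimits of functionals; the boundary functionals
-/

set_option autoImplicit false

open scoped ENNReal Topology
open Filter

namespace Pool.Agent.Hhelper24.JT

open Node

variable {𝕜 : Type*} [RCLike 𝕜]

section ulim

open Classical in
/-- The limit along a fixed free ultrafilter. -/
noncomputable def ulim (u : ℕ → 𝕜) : 𝕜 :=
  if h : ∃ a, Tendsto u (hyperfilter ℕ) (𝓝 a) then h.choose else 0

lemma tendsto_ulim {u : ℕ → 𝕜} {C : ℝ} (h : ∀ n, ‖u n‖ ≤ C) :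
    Tendsto u (hyperfilter ℕ) (𝓝 (ulim u)) := by
  have h1 : ∃ a, Tendsto u (hyperfilter ℕ) (𝓝 a) := by
    have hc : IsCompact (Metric.closedBall (0:𝕜) C) := isCompact_closedBall _ _
    obtain ⟨a, -, ha⟩ := hc.ultrafilter_le_nhds ((hyperfilter ℕ).map u) (by
      rw [le_principal_iff, Ultrafilter.mem_coe, Ultrafilter.mem_map]
      have : u ⁻¹' Metric.closedBall 0 C = Set.univ := by
        ext n; simp [h n]
      rw [this]
      exact univ_mem)
    exact ⟨a, ha⟩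
  unfold ulim
  rw [dif_pos h1]
  exact h1.choose_spec

lemma ulim_eq {u : ℕ → 𝕜} {a : 𝕜} (h : Tendsto u (hyperfilter ℕ) (𝓝 a)) : ulim u = a := by
  have h1 : ∃ a, Tendsto u (hyperfilter ℕ) (𝓝 a) := ⟨a, h⟩
  unfold ulim
  rw [dif_pos h1]
  exact tendsto_nhds_unique h1.choose_spec h

lemma ulim_eq_of_atTop {u : ℕ → 𝕜} {a : 𝕜} (h : Tendsto u atTop (𝓝 a)) : ulim u = a :=
  ulim_eq (h.mono_left Nat.hyperfilter_le_atTop)

lemma norm_ulim_le {u : ℕ → 𝕜} {C : ℝ} (h : ∀ n, ‖u n‖ ≤ C) : ‖ulim u‖ ≤ C :=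
  le_of_tendsto (tendsto_ulim h).norm (Eventually.of_forall h)

variable {E : Type*} [NormedAddCommGroup E] [NormedSpace 𝕜 E]

/-- The ultralimit of a bounded sequence of functionals. -/
noncomputable def ulimF (φ : ℕ → E →ₗ[𝕜] 𝕜) (C : ℝ) (h : ∀ n x, ‖φ n x‖ ≤ C * ‖x‖) :
    E →L[𝕜] 𝕜 :=
  LinearMap.mkContinuous
    { toFun := fun x => ulim (fun n => φ n x)
      map_add' := fun x y => by
        apply ulim_eq
        simp only [map_add]
        exact (tendsto_ulim fun n => h n x).add (tendsto_ulim fun n => h n y)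
      map_smul' := fun c x => by
        apply ulim_eq
        simp only [map_smul, smul_eq_mul, RingHom.id_apply]
        exact (tendsto_ulim fun n => h n x).const_mul c } C
    (fun x => norm_ulim_le fun n => h n x)

lemma ulimF_apply (φ : ℕ → E →ₗ[𝕜] 𝕜) (C : ℝ) (h : ∀ n x, ‖φ n x‖ ≤ C * ‖x‖) (x : E) :
    ulimF φ C h x = ulim (fun n => φ n x) := rfl

end ulim

section branches

lemma isSeg_br (b : ℕ → ℕ) (n m : ℕ) : IsSeg ((Finset.Ico n m).image (br b)) := by
  classical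
  constructor
  · intro s hs t ht
    rw [Finset.mem_image] at hs ht
    obtain ⟨i, -, rfl⟩ := hs
    obtain ⟨j, -, rfl⟩ := ht
    rcases le_total i j with h | h
    · left; exact br_mono b h
    · right; exact br_mono b h
  · intro s hs t ht u h1 h2
    rw [Finset.mem_image] at hs ht ⊢
    obtain ⟨i, hi, rfl⟩ := hs
    obtain ⟨j, hj, rfl⟩ := ht
    rw [Finset.mem_Ico] at hi hj
    have h3 := level_mono h1
    have h4 := level_mono h2
    rw [level_br] at h3 h4
    exact ⟨u.level, Finset.mem_Ico.mpr ⟨by omega, by omega⟩, (eq_br_of_le b h2).symm⟩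

lemma sum_br (b : ℕ → ℕ) (n m : ℕ) (x : Node → 𝕜) :
    ∑ t ∈ (Finset.Ico n m).image (br b), x t = ∑ i ∈ Finset.Ico n m, x (br b i) := by
  rw [Finset.sum_image (fun i _ j _ h => br_injective b h)]

lemma norm_sum_br_le (b : ℕ → ℕ) (n m : ℕ) (x : JX 𝕜) :
    ‖∑ i ∈ Finset.Ico n m, x (br b i)‖ ≤ ‖x‖ := by
  rw [← sum_br b n m (x : Node → 𝕜)]
  exact norm_seg_le x (isSeg_br b n m)

lemma label_eq_of_br_eq {b b' : ℕ → ℕ} : ∀ {m : ℕ}, br b m = br b' m → ∀ k, k ≤ m → b k = b' k := by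
  intro m
  induction m with
  | zero =>
    intro h k hk
    have hk0 : k = 0 := by omega
    subst hk0
    simpa [br] using h
  | succ m ih =>
    intro h k hk
    simp only [br, child.injEq] at h
    rcases Nat.lt_or_ge k (m + 1) with h1 | h1
    · exact ih h.1 k (by omega)
    · have hk' : k = m + 1 := by omega
      subst hk'
      exact h.2

lemma label_eq_of_br_le {b b' : ℕ → ℕ} {m m' : ℕ} (h : br b m ≤ br b' m') (k : ℕ) (hk : k ≤ m) :
    b k = b' k := by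
  have h1 := eq_br_of_le b' h
  rw [level_br] at h1
  exact label_eq_of_br_eq h1 k hk

/-- Finitely many branches are separated from some level on. -/
lemma exists_sep (D : Finset (ℕ → ℕ)) :
    ∃ N, ∀ n, N ≤ n → ∀ b ∈ D, ∀ b' ∈ D, ∀ m m', n ≤ m → n ≤ m' → br b m ≤ br b' m' → b = b' := by
  have h1 : ∀ᶠ n in atTop, ∀ b ∈ D, ∀ b' ∈ D, ∀ m m', n ≤ m → n ≤ m' →
      br b m ≤ br b' m' → b = b' := by
    rw [Filter.eventually_all_finset]
    intro b _
    rw [Filter.eventually_all_finset]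
    intro b' _
    by_cases hb : b = b'
    · exact Eventually.of_forall fun _ _ _ _ _ _ => hb
    · have h2 : ∃ k, b k ≠ b' k := by
        by_contra h
        push Not at h
        exact hb (funext h)
      obtain ⟨k, hk⟩ := h2
      filter_upwards [eventually_ge_atTop k] with n hn m m' hm _ hle
      exact absurd (label_eq_of_br_le hle k (by omega)) hk
  obtain ⟨N, hN⟩ := eventually_atTop.mp h1
  exact ⟨N, hN⟩

/-- The boundary functional on the dual attached to a branch. -/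
noncomputable def Om (b : ℕ → ℕ) : (JX 𝕜 →L[𝕜] 𝕜) →L[𝕜] 𝕜 :=
  ulimF (fun n =>
    { toFun := fun f => f (e (br b n))
      map_add' := fun _ _ => rfl
      map_smul' := fun _ _ => rfl }) 1 (fun n f => by
    have := f.le_opNorm (e (br b n))
    rw [norm_e, mul_one] at this
    rwa [one_mul])

lemma Om_apply (b : ℕ → ℕ) (f : JX 𝕜 →L[𝕜] 𝕜) : Om b f = ulim (fun n => f (e (br b n))) := rfl

lemma norm_fe_le (f : JX 𝕜 →L[𝕜] 𝕜) (t : Node) : ‖f (e t)‖ ≤ ‖f‖ := by
  have := f.le_opNorm (e t)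
  rwa [norm_e, mul_one] at this

/-- The tail functional of a branch. -/
noncomputable def gf (b : ℕ → ℕ) (n : ℕ) : JX 𝕜 →L[𝕜] 𝕜 :=
  ulimF (fun m =>
    { toFun := fun x => ∑ i ∈ Finset.Ico n m, x (br b i)
      map_add' := fun x y => by simp [Finset.sum_add_distrib]
      map_smul' := fun c x => by simp [Finset.mul_sum] }) 1 (fun m x => by
    rw [one_mul]
    exact norm_sum_br_le b n m x)

lemma gf_apply (b : ℕ → ℕ) (n : ℕ) (x : JX 𝕜) :
    gf b n x = ulim (fun m => ∑ i ∈ Finset.Ico n m, x (br b i)) := rfl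

/-- Boundary values are square summable. -/
lemma sum_Om_sq_le (D : Finset (ℕ → ℕ)) (f : JX 𝕜 →L[𝕜] 𝕜) :
    ∑ b ∈ D, ‖Om b f‖ ^ 2 ≤ ‖f‖ ^ 2 := by
  obtain ⟨N, hN⟩ := exists_sep D
  have h1 : Tendsto (fun n => ∑ b ∈ D, ‖f (e (br b n))‖ ^ 2) (hyperfilter ℕ)
      (𝓝 (∑ b ∈ D, ‖Om b f‖ ^ 2)) := by
    refine tendsto_finsetSum _ fun b _ => ?_
    exact ((tendsto_ulim fun n => norm_fe_le f (br b n)).norm).pow 2
  refine le_of_tendsto h1 ?_
  have h2 : ∀ᶠ n in (hyperfilter ℕ : Filter ℕ), N ≤ n :=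
    Nat.hyperfilter_le_atTop (eventually_ge_atTop N)
  filter_upwards [h2] with n hn
  exact sum_dual_e_sq_le D (fun b => br b n)
    (fun b hb b' hb' h => hN n hn b hb b' hb' n n le_rfl le_rfl h) f

/-- Tail functionals of separated branches. -/
lemma sum_gf_sq_le (D : Finset (ℕ → ℕ)) (n : ℕ)
    (hn : ∀ b ∈ D, ∀ b' ∈ D, ∀ m m', n ≤ m → n ≤ m' → br b m ≤ br b' m' → b = b') (x : JX 𝕜) :
    ∑ b ∈ D, ‖gf b n x‖ ^ 2 ≤ ‖x‖ ^ 2 := by
  have h1 : Tendsto (fun m => ∑ b ∈ D, ‖∑ i ∈ Finset.Ico n m, x (br b i)‖ ^ 2) (hyperfilter ℕ)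
      (𝓝 (∑ b ∈ D, ‖gf b n x‖ ^ 2)) := by
    refine tendsto_finsetSum _ fun b _ => ?_
    exact ((tendsto_ulim fun m => norm_sum_br_le b n m x).norm).pow 2
  refine le_of_tendsto h1 (Eventually.of_forall fun m => ?_)
  have h2 := sum_sq_le x D (fun b => (Finset.Ico n m).image (br b)) (fun b _ => isSeg_br b n m) (by
    intro b hb b' hb' hne
    rw [Finset.disjoint_left]
    intro t ht ht'
    rw [Finset.mem_image] at ht ht'
    obtain ⟨i, hi, rfl⟩ := ht
    obtain ⟨j, hj, hij⟩ := ht'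
    rw [Finset.mem_Ico] at hi hj
    exact hne (hn b hb b' hb' i j hi.1 hj.1 hij.ge))
  simp only [sum_br] at h2
  exact h2

lemma gf_e_self (b : ℕ → ℕ) {n m : ℕ} (h : n ≤ m) : gf b n (e (br b m) : JX 𝕜) = 1 := by
  rw [gf_apply]
  apply ulim_eq_of_atTop
  apply tendsto_const_nhds.congr'
  filter_upwards [eventually_gt_atTop m] with k hk
  rw [Finset.sum_eq_single m]
  · rw [e_apply_self]
  · intro i _ hi
    rw [e_apply_ne]
    exact fun h => hi (br_injective b h)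
  · intro h'
    exact absurd (Finset.mem_Ico.mpr ⟨h, hk⟩) h'

lemma gf_e_ne {b b' : ℕ → ℕ} {k : ℕ} (hk : b k ≠ b' k) (n : ℕ) {m : ℕ} (h : k ≤ m) :
    gf b n (e (br b' m) : JX 𝕜) = 0 := by
  rw [gf_apply]
  apply ulim_eq_of_atTop
  apply tendsto_const_nhds.congr'
  refine Eventually.of_forall fun N => ?_
  symm
  refine Finset.sum_eq_zero fun i _ => ?_
  rw [e_apply_ne]
  intro h1
  have h2 : i = m := by
    have := congrArg level h1
    simpa using this
  subst h2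
  exact hk (label_eq_of_br_eq h1 k h)

lemma Om_gf_self (b : ℕ → ℕ) (n : ℕ) : Om b (gf b n : JX 𝕜 →L[𝕜] 𝕜) = 1 := by
  rw [Om_apply]
  apply ulim_eq_of_atTop
  apply tendsto_const_nhds.congr'
  filter_upwards [eventually_ge_atTop n] with m hm
  rw [gf_e_self b hm]

lemma Om_gf_ne {b b' : ℕ → ℕ} (h : b ≠ b') (n : ℕ) : Om b' (gf b n : JX 𝕜 →L[𝕜] 𝕜) = 0 := by
  obtain ⟨k, hk⟩ : ∃ k, b k ≠ b' k := by
    by_contra h'
    push Not at h'
    exact h (funext h')
  rw [Om_apply]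
  apply ulim_eq_of_atTop
  apply tendsto_const_nhds.congr'
  filter_upwards [eventually_ge_atTop k] with m hm
  rw [gf_e_ne hk n hm]

lemma Om_δ (b : ℕ → ℕ) (t : Node) : Om b (δ t : JX 𝕜 →L[𝕜] 𝕜) = 0 := by
  rw [Om_apply]
  apply ulim_eq_of_atTop
  apply tendsto_const_nhds.congr'
  filter_upwards [eventually_gt_atTop t.level] with m hm
  rw [δ_apply, e_apply_ne]
  intro h
  rw [h, level_br] at hm
  exact lt_irrefl _ hm

lemma gf_eq_add (b : ℕ → ℕ) {n n' : ℕ} (h : n ≤ n') :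
    (gf b n : JX 𝕜 →L[𝕜] 𝕜) = (∑ i ∈ Finset.Ico n n', δ (br b i)) + gf b n' := by
  ext x
  rw [_root_.add_apply, _root_.sum_apply, gf_apply]
  apply ulim_eq
  simp only [δ_apply]
  have h1 : Tendsto (fun m => (∑ i ∈ Finset.Ico n n', x (br b i)) +
      ∑ i ∈ Finset.Ico n' m, x (br b i)) (hyperfilter ℕ)
      (𝓝 ((∑ i ∈ Finset.Ico n n', x (br b i)) + gf b n' x)) :=
    (tendsto_ulim fun m => norm_sum_br_le b n' m x).const_add _
  refine h1.congr' ?_
  have h2 : ∀ᶠ m in (hyperfilter ℕ : Filter ℕ), n' ≤ m :=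
    Nat.hyperfilter_le_atTop (eventually_ge_atTop n')
  filter_upwards [h2] with m hm
  rw [Finset.sum_Ico_consecutive _ h hm]

end branches

end Pool.Agent.Hhelper24.JT
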