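import Mathlib

/-!
# The infinitely branching forest and its segments
-/

set_option autoImplicit false

namespace Pool.Agent.Hhelper24.JT

/-- Nodes of the infinitely branching forest with infinitely many roots. -/
inductive Node : Type
  | root : ℕ → Node
  | child : Node → ℕ → Node
  deriving DecidableEq

namespace Node

/-- The set of ancestors of a node, the node included. -/
def down : Node → Finset Node
  | root k => {root k}
  | child t k => insert (child t k) (down t)

/-- The level of a node. -/
def level : Node → ℕ
  | root _ => 0
  | child t _ => level t + 1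

/-- The label of the root below a node. -/
def rlabel : Node → ℕ
  | root k => k
  | child t _ => rlabel t

lemma self_mem_down (t : Node) : t ∈ t.down := by
  cases t <;> simp [down]

lemma level_le_of_mem_down {s t : Node} (h : s ∈ t.down) : s.level ≤ t.level := by
  induction t with
  | root k => simp [down] at h; simp [h]
  | child t k ih =>
    simp only [down, Finset.mem_insert] at h
    rcases h with rfl | h
    · exact le_rfl
    · exact (ih h).trans (Nat.le_succ _)

lemma eq_of_mem_down_of_level {s t : Node} (h : s ∈ t.down) (h2 : t.level ≤ s.level) : s = t := by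
  cases t with
  | root k => simpa [down] using h
  | child t k =>
    simp only [down, Finset.mem_insert] at h
    rcases h with rfl | h
    · rfl
    · have := level_le_of_mem_down h
      simp only [level] at h2
      omega

lemma down_subset {s t : Node} (h : s ∈ t.down) : s.down ⊆ t.down := by
  induction t with
  | root k => simp only [down, Finset.mem_singleton] at h; subst h; exact Finset.Subset.refl _
  | child t k ih =>
    simp only [down, Finset.mem_insert] at h
    rcases h with rfl | h
    · exact Finset.Subset.refl _
    · exact (ih h).trans (Finset.subset_insert _ _)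

instance : LE Node := ⟨fun s t => s ∈ t.down⟩

lemma le_def {s t : Node} : s ≤ t ↔ s ∈ t.down := Iff.rfl

instance : PartialOrder Node where
  le := (· ≤ ·)
  le_refl t := self_mem_down t
  le_trans _ _ _ h1 h2 := down_subset h2 h1
  le_antisymm _ _ h1 h2 := eq_of_mem_down_of_level h1 (level_le_of_mem_down h2)

instance : DecidableLE Node := fun s t => inferInstanceAs (Decidable (s ∈ t.down))

@[simp] lemma mem_down {s t : Node} : s ∈ t.down ↔ s ≤ t := Iff.rfl

@[simp] lemma le_root {s : Node} {k : ℕ} : s ≤ root k ↔ s = root k := by
  rw [le_def, down, Finset.mem_singleton]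

lemma le_child {s t : Node} {k : ℕ} : s ≤ child t k ↔ s = child t k ∨ s ≤ t := by
  rw [le_def, down, Finset.mem_insert, mem_down]

lemma level_mono {s t : Node} (h : s ≤ t) : s.level ≤ t.level := level_le_of_mem_down h

lemma eq_of_le_of_level {s t : Node} (h : s ≤ t) (h2 : t.level ≤ s.level) : s = t :=
  eq_of_mem_down_of_level h h2

lemma level_lt {s t : Node} (h : s < t) : s.level < t.level := by
  by_contra hc
  exact h.ne (eq_of_le_of_level h.le (not_lt.mp hc))

lemma self_le_child (t : Node) (k : ℕ) : t ≤ child t k := le_child.mpr (Or.inr le_rfl)

lemma self_lt_child (t : Node) (k : ℕ) : t < child t k :=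
  lt_of_le_of_ne (self_le_child t k) (fun h => by
    have := congrArg level h
    simp [level] at this)

lemma lt_child {s t : Node} {k : ℕ} : s < child t k ↔ s ≤ t := by
  constructor
  · intro h
    rcases le_child.mp h.le with h1 | h1
    · exact absurd h1 h.ne
    · exact h1
  · intro h
    exact lt_of_le_of_lt h (self_lt_child t k)

lemma rlabel_eq {s t : Node} (h : s ≤ t) : s.rlabel = t.rlabel := by
  induction t with
  | root k => rw [le_root.mp h]
  | child t k ih =>
    rcases le_child.mp h with rfl | h
    · rfl
    · exact ih h

lemma root_rlabel_le (t : Node) : root t.rlabel ≤ t := by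
  induction t with
  | root k => exact le_rfl
  | child t k ih => exact ih.trans (self_le_child t k)

/-- Ancestors of a node form a chain. -/
lemma le_or_le {a b t : Node} (ha : a ≤ t) (hb : b ≤ t) : a ≤ b ∨ b ≤ a := by
  induction t with
  | root k => rw [le_root.mp ha, le_root.mp hb]; exact Or.inl le_rfl
  | child t k ih =>
    rcases le_child.mp ha with rfl | ha
    · right; exact hb
    · rcases le_child.mp hb with rfl | hb
      · left; exact ha.trans (self_le_child t k)
      · exact ih ha hb

lemma eq_of_le_of_le_of_level {a b t : Node} (ha : a ≤ t) (hb : b ≤ t)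
    (h : a.level = b.level) : a = b := by
  rcases le_or_le ha hb with h1 | h1
  · exact eq_of_le_of_level h1 h.ge
  · exact (eq_of_le_of_level h1 h.le).symm

lemma child_le_of_lt {s t u : Node} {k : ℕ} (h1 : s < t) (h2 : t ≤ u) (h3 : child s k ≤ u) :
    child s k ≤ t := by
  rcases le_or_le h2 h3 with h | h
  · rcases le_child.mp h with rfl | h
    · exact le_rfl
    · exact absurd (lt_of_lt_of_le h1 h) (lt_irrefl _)
  · exact h

lemma child_inj_of_le {s u : Node} {k k' : ℕ} (h : child s k ≤ u) (h' : child s k' ≤ u) :
    k = k' := by
  have := eq_of_le_of_le_of_level h h' rfl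
  simpa using this

/-- A code for nodes; parents have smaller codes than their children. -/
def code : Node → ℕ
  | root k => Nat.pair 0 k
  | child t k => Nat.pair (code t + 1) k

lemma code_injective : Function.Injective code := by
  intro s
  induction s with
  | root k =>
    intro t h
    cases t with
    | root k' =>
      simp only [code, Nat.pair_eq_pair] at h
      rw [h.2]
    | child t k' =>
      simp only [code, Nat.pair_eq_pair] at h
      omega
  | child s k ih =>
    intro t h
    cases t with
    | root k' =>
      simp only [code, Nat.pair_eq_pair] at h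
      omega
    | child t k' =>
      simp only [code, Nat.pair_eq_pair] at h
      have h1 : code s = code t := by omega
      rw [ih h1, h.2]

lemma code_lt_child (t : Node) (k : ℕ) : t.code < (child t k).code := by
  have := Nat.left_le_pair (t.code + 1) k
  simp only [code]
  omega

lemma code_mono {s t : Node} (h : s ≤ t) : s.code ≤ t.code := by
  induction t with
  | root k => rw [le_root.mp h]
  | child t k ih =>
    rcases le_child.mp h with rfl | h
    · exact le_rfl
    · exact (ih h).trans (code_lt_child t k).le

instance : Countable Node := code_injective.countable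

instance : Infinite Node := Infinite.of_injective root (fun a b h => by simpa using h)

/-- The finite set of nodes of code less than `n`. -/
lemma finite_code_lt (n : ℕ) : {s : Node | s.code < n}.Finite :=
  Set.Finite.of_finite_image ((Set.finite_lt_nat n).subset (by
    rintro _ ⟨s, hs, rfl⟩; exact hs)) code_injective.injOn

end Node

open Node

/-- Segments: finite order-convex chains (the empty set included). -/
def IsSeg (S : Finset Node) : Prop :=
  (∀ a ∈ S, ∀ b ∈ S, a ≤ b ∨ b ≤ a) ∧ (∀ a ∈ S, ∀ b ∈ S, ∀ c, a ≤ c → c ≤ b → c ∈ S)

lemma isSeg_empty : IsSeg ∅ := ⟨by simp, by simp⟩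

lemma isSeg_singleton (t : Node) : IsSeg {t} := by
  constructor
  · intro a ha b hb
    rw [Finset.mem_singleton] at ha hb
    subst ha; subst hb
    exact Or.inl le_rfl
  · intro a ha b hb c h1 h2
    rw [Finset.mem_singleton] at ha hb ⊢
    subst ha; subst hb
    exact le_antisymm h2 h1

lemma isSeg_down (t : Node) : IsSeg t.down :=
  ⟨fun _ ha _ hb => le_or_le ha hb, fun _ _ _ hb _ _ h2 => h2.trans hb⟩

lemma IsSeg.filter {S : Finset Node} (h : IsSeg S) (p : Node → Prop) [DecidablePred p]
    (hp : ∀ a b c, p a → p b → a ≤ c → c ≤ b → p c) : IsSeg (S.filter p) := by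
  constructor
  · intro a ha b hb
    exact h.1 a (Finset.mem_filter.mp ha).1 b (Finset.mem_filter.mp hb).1
  · intro a ha b hb c h1 h2
    rw [Finset.mem_filter] at *
    exact ⟨h.2 a ha.1 b hb.1 c h1 h2, hp a b c ha.2 hb.2 h1 h2⟩

end Pool.Agent.Hhelper24.JT
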