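import Pool.Agent.Hhelper24.JT.Space
import Pool.Agent.Hhelper24.JT.Emb

/-!
# Operators on the James tree space
-/

set_option autoImplicit false

open scoped ENNReal

namespace Pool.Agent.Hhelper24.JT

open Node

variable {𝕜 : Type*} [RCLike 𝕜]

lemma coe_add (x y : JX 𝕜) : ((x + y : JX 𝕜) : Node → 𝕜) = (x : Node → 𝕜) + y := rfl
lemma coe_smul (c : 𝕜) (x : JX 𝕜) : ((c • x : JX 𝕜) : Node → 𝕜) = c • (x : Node → 𝕜) := rfl

lemma mkOp_key (L : (Node → 𝕜) →ₗ[𝕜] (Node → 𝕜)) (C : ℝ)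
    (sh : Finset Node → Finset Node) (h1 : ∀ S, IsSeg S → IsSeg (sh S))
    (h2 : ∀ S S', IsSeg S → IsSeg S' → Disjoint S S' → Disjoint (sh S) (sh S'))
    (h3 : ∀ (x : Node → 𝕜) (S), IsSeg S → ‖∑ t ∈ S, L x t‖ ≤ C * ‖∑ t ∈ sh S, x t‖)
    (x : JX 𝕜) (θ : Fam) : ∑ i, ‖∑ t ∈ θ.S i, L x t‖ ^ 2 ≤ (C * ‖x‖) ^ 2 := by
  calc ∑ i, ‖∑ t ∈ θ.S i, L x t‖ ^ 2
      ≤ ∑ i, C ^ 2 * ‖∑ t ∈ sh (θ.S i), x t‖ ^ 2 := by
        refine Finset.sum_le_sum fun i _ => ?_
        rw [← mul_pow]
        exact pow_le_pow_left₀ (norm_nonneg _) (h3 x _ (θ.seg i)) 2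
    _ = C ^ 2 * ∑ i, ‖∑ t ∈ sh (θ.S i), x t‖ ^ 2 := by rw [Finset.mul_sum]
    _ ≤ C ^ 2 * ‖x‖ ^ 2 := by
        refine mul_le_mul_of_nonneg_left ?_ (sq_nonneg _)
        exact sum_sq_le x Finset.univ (fun i => sh (θ.S i)) (fun i _ => h1 _ (θ.seg i))
          (fun i _ j _ hij => h2 _ _ (θ.seg i) (θ.seg j) (θ.disj i j hij))
    _ = (C * ‖x‖) ^ 2 := by rw [mul_pow]

/-- Constructor of bounded operators from a transformation of segments. -/
noncomputable def mkOp (L : (Node → 𝕜) →ₗ[𝕜] (Node → 𝕜)) (C : ℝ) (hC : 0 ≤ C)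
    (sh : Finset Node → Finset Node) (h1 : ∀ S, IsSeg S → IsSeg (sh S))
    (h2 : ∀ S S', IsSeg S → IsSeg S' → Disjoint S S' → Disjoint (sh S) (sh S'))
    (h3 : ∀ (x : Node → 𝕜) (S), IsSeg S → ‖∑ t ∈ S, L x t‖ ≤ C * ‖∑ t ∈ sh S, x t‖) :
    JX 𝕜 →L[𝕜] JX 𝕜 :=
  LinearMap.mkContinuous
    { toFun := fun x => mkJX (L x) (C * ‖x‖) (mul_nonneg hC (norm_nonneg _))
        (mkOp_key L C sh h1 h2 h3 x)
      map_add' := fun x y => JX.ext fun t => by
        simp [coe_add]
      map_smul' := fun c x => JX.ext fun t => by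
        simp [coe_smul] } C
    (fun x => norm_mkJX_le (L x) (C * ‖x‖) (mul_nonneg hC (norm_nonneg _))
      (mkOp_key L C sh h1 h2 h3 x))

section
variable (L : (Node → 𝕜) →ₗ[𝕜] (Node → 𝕜)) (C : ℝ) (hC : 0 ≤ C)
    (sh : Finset Node → Finset Node) (h1 : ∀ S, IsSeg S → IsSeg (sh S))
    (h2 : ∀ S S', IsSeg S → IsSeg S' → Disjoint S S' → Disjoint (sh S) (sh S'))
    (h3 : ∀ (x : Node → 𝕜) (S), IsSeg S → ‖∑ t ∈ S, L x t‖ ≤ C * ‖∑ t ∈ sh S, x t‖)

lemma mkOp_apply (x : JX 𝕜) (t : Node) : mkOp L C hC sh h1 h2 h3 x t = L x t := rfl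

lemma norm_mkOp_le : ‖mkOp L C hC sh h1 h2 h3‖ ≤ C :=
  ContinuousLinearMap.opNorm_le_bound _ hC fun x =>
    norm_mkJX_le (L x) (C * ‖x‖) (mul_nonneg hC (norm_nonneg _)) (mkOp_key L C sh h1 h2 h3 x)

end

/-- Order convexity of a predicate. -/
def Conv (A : Node → Prop) : Prop := ∀ a b c, A a → A b → a ≤ c → c ≤ b → A c

lemma conv_of_upper {A : Node → Prop} (h : ∀ a b, A a → a ≤ b → A b) : Conv A :=
  fun a _ c ha _ h1 _ => h a c ha h1

lemma conv_of_lower {A : Node → Prop} (h : ∀ a b, A b → a ≤ b → A a) : Conv A :=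
  fun _ b c _ hb _ h2 => h c b hb h2

section mul

open Classical in
/-- Multiplication by a function which is constant on chains of the convex set `A` and
vanishes off `A`. -/
noncomputable def mulOp (A : Node → Prop) (hA : Conv A) (c : Node → 𝕜) (C : ℝ) (hC : 0 ≤ C)
    (hc : ∀ s t, A s → A t → s ≤ t → c s = c t) (hb : ∀ s, ‖c s‖ ≤ C) (h0 : ∀ s, ¬ A s → c s = 0) :
    JX 𝕜 →L[𝕜] JX 𝕜 :=
  mkOp
    { toFun := fun x t => c t * x t
      map_add' := fun x y => by funext t; simp [mul_add]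
      map_smul' := fun a x => by funext t; simp; ring } C hC
    (fun S => S.filter A) (fun _ hS => hS.filter A hA)
    (fun _ _ _ _ hd => Finset.disjoint_filter_filter hd)
    (by
      intro x S hS
      simp only [LinearMap.coe_mk, AddHom.coe_mk]
      have e1 : ∑ t ∈ S, c t * x t = ∑ t ∈ S.filter A, c t * x t := by
        rw [Finset.sum_filter]
        refine Finset.sum_congr rfl fun t _ => ?_
        split_ifs with h
        · rfl
        · rw [h0 t h, zero_mul]
      rw [e1]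
      rcases (S.filter A).eq_empty_or_nonempty with he | ⟨a, ha⟩
      · rw [he]; simp
      · have e2 : ∑ t ∈ S.filter A, c t * x t = c a * ∑ t ∈ S.filter A, x t := by
          rw [Finset.mul_sum]
          refine Finset.sum_congr rfl fun t ht => ?_
          rw [Finset.mem_filter] at ha ht
          rcases hS.1 a ha.1 t ht.1 with h | h
          · rw [hc a t ha.2 ht.2 h]
          · rw [hc t a ht.2 ha.2 h]
        rw [e2, norm_mul]
        exact mul_le_mul_of_nonneg_right (hb a) (norm_nonneg _))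

lemma mulOp_apply (A : Node → Prop) (hA : Conv A) (c : Node → 𝕜) (C : ℝ) (hC : 0 ≤ C)
    (hc : ∀ s t, A s → A t → s ≤ t → c s = c t) (hb : ∀ s, ‖c s‖ ≤ C) (h0 : ∀ s, ¬ A s → c s = 0)
    (x : JX 𝕜) (t : Node) : mulOp A hA c C hC hc hb h0 x t = c t * x t := rfl

lemma norm_mulOp_le (A : Node → Prop) (hA : Conv A) (c : Node → 𝕜) (C : ℝ) (hC : 0 ≤ C)
    (hc : ∀ s t, A s → A t → s ≤ t → c s = c t) (hb : ∀ s, ‖c s‖ ≤ C)
    (h0 : ∀ s, ¬ A s → c s = 0) : ‖mulOp A hA c C hC hc hb h0‖ ≤ C :=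
  norm_mkOp_le _ _ _ _ _ _ _

open Classical in
/-- Restriction to a convex set. -/
noncomputable def res (A : Node → Prop) (hA : Conv A) : JX 𝕜 →L[𝕜] JX 𝕜 :=
  mulOp A hA (fun t => if A t then 1 else 0) 1 zero_le_one
    (fun s t hs ht _ => by rw [if_pos hs, if_pos ht])
    (fun s => by split_ifs <;> simp) (fun s hs => if_neg hs)

open Classical in
lemma res_apply (A : Node → Prop) (hA : Conv A) (x : JX 𝕜) (t : Node) :
    res A hA x t = if A t then x t else 0 := by
  rw [res, mulOp_apply]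
  split_ifs <;> simp

lemma res_apply_mem {A : Node → Prop} (hA : Conv A) (x : JX 𝕜) {t : Node} (h : A t) :
    res A hA x t = x t := by
  classical
  rw [res_apply, if_pos h]

lemma res_apply_not_mem {A : Node → Prop} (hA : Conv A) (x : JX 𝕜) {t : Node} (h : ¬ A t) :
    res A hA x t = 0 := by
  classical
  rw [res_apply, if_neg h]

lemma norm_res_le (A : Node → Prop) (hA : Conv A) : ‖(res A hA : JX 𝕜 →L[𝕜] JX 𝕜)‖ ≤ 1 :=
  norm_mulOp_le _ _ _ _ _ _ _ _

lemma norm_res_apply_le (A : Node → Prop) (hA : Conv A) (x : JX 𝕜) : ‖res A hA x‖ ≤ ‖x‖ := by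
  have := (res A hA : JX 𝕜 →L[𝕜] JX 𝕜).le_of_opNorm_le (norm_res_le A hA) x
  simpa using this

end mul

section emb

variable (Φ : TreeEmb)

/-- Extension by zero along a tree embedding. -/
noncomputable def embOp : JX 𝕜 →L[𝕜] JX 𝕜 :=
  mkOp
    { toFun := fun x => Function.extend Φ.φ x 0
      map_add' := fun x y => by
        funext t
        by_cases h : ∃ s, Φ.φ s = t
        · obtain ⟨s, rfl⟩ := h
          simp [Φ.phi_injective.extend_apply]
        · simp [Function.extend_apply' _ _ _ h]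
      map_smul' := fun a x => by
        funext t
        by_cases h : ∃ s, Φ.φ s = t
        · obtain ⟨s, rfl⟩ := h
          simp [Φ.phi_injective.extend_apply]
        · simp [Function.extend_apply' _ _ _ h] } 1 zero_le_one
    (fun S => S.preimage Φ.φ Φ.phi_injective.injOn) (fun _ hS => Φ.isSeg_preimage hS)
    (fun _ _ _ _ hd => Φ.disjoint_preimage hd)
    (by
      intro x S hS
      simp only [LinearMap.coe_mk, AddHom.coe_mk, one_mul]
      have := Finset.sum_preimage Φ.φ S Φ.phi_injective.injOn (Function.extend Φ.φ x 0) (by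
        intro t _ ht
        exact Function.extend_apply' _ _ _ ht)
      rw [← this]
      refine le_of_eq (congrArg _ (Finset.sum_congr rfl fun t _ => ?_))
      rw [Φ.phi_injective.extend_apply])

lemma embOp_apply_phi (x : JX 𝕜) (t : Node) : embOp Φ x (Φ.φ t) = x t := by
  rw [embOp, mkOp_apply]
  exact Φ.phi_injective.extend_apply _ _ _

lemma embOp_apply_not (x : JX 𝕜) {t : Node} (h : ¬ ∃ s, Φ.φ s = t) : embOp Φ x t = 0 := by
  rw [embOp, mkOp_apply]
  exact Function.extend_apply' _ _ _ h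

lemma norm_embOp_le : ‖(embOp Φ : JX 𝕜 →L[𝕜] JX 𝕜)‖ ≤ 1 := norm_mkOp_le _ _ _ _ _ _ _

lemma embOp_e (t : Node) : embOp Φ (e t : JX 𝕜) = e (Φ.φ t) := by
  apply JX.ext
  intro s
  by_cases h : ∃ u, Φ.φ u = s
  · obtain ⟨u, rfl⟩ := h
    rw [embOp_apply_phi, e_apply, e_apply]
    simp [Φ.phi_injective.eq_iff]
  · rw [embOp_apply_not Φ _ h, e_apply_ne]
    rintro rfl
    exact h ⟨t, rfl⟩

/-- The collapse operator: sums over the intervals of a tree embedding. -/
noncomputable def colOp : JX 𝕜 →L[𝕜] JX 𝕜 :=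
  mkOp
    { toFun := fun x t => ∑ s ∈ Φ.J t, x s
      map_add' := fun x y => by funext t; simp [Finset.sum_add_distrib]
      map_smul' := fun a x => by funext t; simp [Finset.mul_sum] } 1 zero_le_one
    (fun S => S.biUnion Φ.J) (fun _ hS => Φ.isSeg_biUnion hS)
    (fun _ _ _ _ hd => Φ.disjoint_biUnion hd)
    (by
      intro x S hS
      simp only [LinearMap.coe_mk, AddHom.coe_mk, one_mul]
      rw [Finset.sum_biUnion]
      intro a _ b _ hab
      rw [Function.onFun, Finset.disjoint_left]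
      intro s hs hs'
      exact hab (Φ.J_unique hs hs'))

lemma colOp_apply (x : JX 𝕜) (t : Node) : colOp Φ x t = ∑ s ∈ Φ.J t, x s := rfl

lemma norm_colOp_le : ‖(colOp Φ : JX 𝕜 →L[𝕜] JX 𝕜)‖ ≤ 1 := norm_mkOp_le _ _ _ _ _ _ _

lemma colOp_e {s t : Node} (h : s ∈ Φ.J t) : colOp Φ (e s : JX 𝕜) = e t := by
  apply JX.ext
  intro u
  rw [colOp_apply]
  simp only [e_apply]
  rw [Finset.sum_ite_eq']
  by_cases hu : u = t
  · subst hu; simp [h]
  · rw [if_neg, if_neg hu]
    intro h'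
    exact hu (Φ.J_unique h' h)

lemma colOp_embOp (x : JX 𝕜) : colOp Φ (embOp Φ x) = x := by
  apply JX.ext
  intro t
  rw [colOp_apply, Finset.sum_eq_single (Φ.φ t)]
  · exact embOp_apply_phi Φ x t
  · intro s hs hne
    apply embOp_apply_not
    rintro ⟨u, rfl⟩
    apply hne
    rw [Φ.J_unique (Φ.phi_mem_J u) hs]
  · intro h
    exact absurd (Φ.phi_mem_J t) h

end emb

section density

/-- Lower finite sets. -/
def Low (G : Finset Node) : Prop := ∀ t ∈ G, ∀ s, s ≤ t → s ∈ G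

/-- The lower closure of a finite set. -/
def lowCl (G : Finset Node) : Finset Node := G.biUnion Node.down

lemma low_lowCl (G : Finset Node) : Low (lowCl G) := by
  intro t ht s hs
  rw [lowCl, Finset.mem_biUnion] at *
  obtain ⟨u, hu, htu⟩ := ht
  exact ⟨u, hu, hs.trans htu⟩

lemma subset_lowCl (G : Finset Node) : G ⊆ lowCl G := by
  intro t ht
  rw [lowCl, Finset.mem_biUnion]
  exact ⟨t, ht, self_mem_down t⟩

lemma conv_not_low {G : Finset Node} (h : Low G) : Conv (fun t => t ∉ G) :=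
  conv_of_upper fun a b ha hab hb => ha (h b hb a hab)

/-- The restriction to the complement of a finite lower set. -/
noncomputable def off (G : Finset Node) (h : Low G) : JX 𝕜 →L[𝕜] JX 𝕜 :=
  res (fun t => t ∉ G) (conv_not_low h)

lemma off_apply (G : Finset Node) (h : Low G) (x : JX 𝕜) (t : Node) :
    off G h x t = if t ∈ G then 0 else x t := by
  classical
  rw [off, res_apply]
  split_ifs <;> rfl

lemma off_add_trunc (G : Finset Node) (h : Low G) (x : JX 𝕜) : off G h x + trunc G x = x := by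
  apply JX.ext
  intro t
  rw [add_apply, off_apply, trunc_apply]
  split_ifs <;> simp

lemma off_eq (G : Finset Node) (h : Low G) (x : JX 𝕜) : off G h x = x - trunc G x := by
  rw [eq_sub_iff_add_eq, off_add_trunc]

/-- Tails off large finite lower sets are small. -/
lemma exists_low (x : JX 𝕜) {ε : ℝ} (hε : 0 < ε) :
    ∃ G₀ : Finset Node, ∀ G (h : Low G), G₀ ⊆ G → ‖off G h x‖ ≤ ε := by
  classical
  by_contra hcon
  push Not at hcon
  -- the norm is almost attained on a family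
  obtain ⟨θ, hθ⟩ : ∃ θ : Fam, ‖x‖ ^ 2 - ε ^ 2 < ∑ i, ‖∑ t ∈ θ.S i, x t‖ ^ 2 := by
    by_contra hc
    push Not at hc
    rcases le_or_gt (‖x‖ ^ 2) (ε ^ 2) with hxe | hxe
    · obtain ⟨G, hG, -, h1⟩ := hcon ∅
      have h2 : ‖x‖ ≤ ε := le_of_sq_le_sq hxe hε.le
      have h3 : ‖off G hG x‖ ≤ ‖x‖ := norm_res_apply_le _ _ x
      linarith
    · have h1 : ‖x‖ ≤ Real.sqrt (‖x‖ ^ 2 - ε ^ 2) := by
        rw [norm_le_iff (Real.sqrt_nonneg _)]
        intro θ
        rw [Real.sq_sqrt (by linarith)]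
        exact hc θ
      have h2 : ‖x‖ ^ 2 ≤ ‖x‖ ^ 2 - ε ^ 2 := by
        have := pow_le_pow_left₀ (norm_nonneg x) h1 2
        rwa [Real.sq_sqrt (by linarith)] at this
      have : 0 < ε ^ 2 := by positivity
      linarith
  let G₀ : Finset Node := Finset.univ.biUnion θ.S
  obtain ⟨G, hG, hsub, h1⟩ := hcon G₀
  apply absurd h1 (not_lt.mpr _)
  rw [norm_le_iff hε.le]
  intro θ'
  -- combine the two families
  have hcomb := sum_sq_le x (Finset.univ : Finset (Fin θ.n ⊕ Fin θ'.n))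
    (Sum.elim θ.S (fun i => (θ'.S i).filter (fun t => t ∉ G))) (by
      rintro (i | i) _
      · exact θ.seg i
      · exact (θ'.seg i).filter _ (conv_not_low hG)) (by
      rintro (i | i) _ (j | j) _ hij
      · exact θ.disj i j (fun h => hij (by rw [h]))
      · rw [Finset.disjoint_left]
        intro t ht ht'
        simp only [Sum.elim_inl] at ht
        simp only [Sum.elim_inr, Finset.mem_filter] at ht'
        exact ht'.2 (hsub (Finset.mem_biUnion.mpr ⟨i, Finset.mem_univ _, ht⟩))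
      · rw [Finset.disjoint_right]
        intro t ht ht'
        simp only [Sum.elim_inl] at ht
        simp only [Sum.elim_inr, Finset.mem_filter] at ht'
        exact ht'.2 (hsub (Finset.mem_biUnion.mpr ⟨j, Finset.mem_univ _, ht⟩))
      · exact Finset.disjoint_filter_filter (θ'.disj i j (fun h => hij (by rw [h]))))
  rw [Fintype.sum_sum_type] at hcomb
  simp only [Sum.elim_inl, Sum.elim_inr] at hcomb
  have e1 : ∀ i, ∑ t ∈ θ'.S i, off G hG x t = ∑ t ∈ (θ'.S i).filter (fun t => t ∉ G), x t := by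
    intro i
    rw [Finset.sum_filter]
    refine Finset.sum_congr rfl fun t _ => ?_
    rw [off_apply]
    split_ifs <;> rfl
  simp only [e1]
  linarith

/-- Finitely supported vectors are dense. -/
lemma exists_trunc (x : JX 𝕜) {ε : ℝ} (hε : 0 < ε) : ∃ G, Low G ∧ ‖x - trunc G x‖ ≤ ε := by
  obtain ⟨G₀, h⟩ := exists_low x hε
  refine ⟨lowCl G₀, low_lowCl _, ?_⟩
  rw [← off_eq _ (low_lowCl _)]
  exact h _ _ (subset_lowCl _)

/-- The closed span of the unit vectors is everything. -/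
lemma closure_span_e : (Submodule.span 𝕜 (Set.range (e (𝕜 := 𝕜)))).topologicalClosure = ⊤ := by
  rw [Submodule.eq_top_iff']
  intro x
  rw [← SetLike.mem_coe, Submodule.topologicalClosure_coe, Metric.mem_closure_iff]
  intro ε hε
  obtain ⟨G, -, hG⟩ := exists_trunc x (half_pos hε)
  refine ⟨trunc G x, ?_, ?_⟩
  · exact Submodule.sum_mem _ fun t _ => Submodule.smul_mem _ _ (Submodule.subset_span ⟨t, rfl⟩)
  · rw [dist_eq_norm]
    linarith

/-- Two operators agreeing on unit vectors are equal. -/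
lemma clm_ext {F : Type*} [NormedAddCommGroup F] [NormedSpace 𝕜 F] {f g : JX 𝕜 →L[𝕜] F}
    (h : ∀ t, f (e t) = g (e t)) : f = g := by
  have h1 : Dense (Submodule.span 𝕜 (Set.range (e (𝕜 := 𝕜))) : Set (JX 𝕜)) := by
    rw [Submodule.dense_iff_topologicalClosure_eq_top]
    exact closure_span_e
  exact ContinuousLinearMap.ext_on h1 (by rintro _ ⟨t, rfl⟩; exact h t)

instance : TopologicalSpace.SeparableSpace (JX 𝕜) := by
  have h1 : TopologicalSpace.IsSeparable (Set.range (e (𝕜 := 𝕜))) :=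
    (Set.countable_range _).isSeparable
  have h2 : TopologicalSpace.IsSeparable
      (closure (Submodule.span 𝕜 (Set.range (e (𝕜 := 𝕜))) : Set (JX 𝕜))) := h1.span.closure
  rw [← Submodule.topologicalClosure_coe, closure_span_e, Submodule.top_coe] at h2
  exact TopologicalSpace.isSeparable_univ_iff.mp h2

end density

end Pool.Agent.Hhelper24.JT
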