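import Pool.Agent.Hhelper24.JT.Absorb

/-!
# The James tree space over the forest is primary
-/

set_option autoImplicit false
set_option maxSynthPendingDepth 3

open scoped ENNReal Topology
open Filter

namespace Pool.Agent.Hhelper24.JT

open Node

variable {𝕜 : Type*} [RCLike 𝕜]

/-- Pełczyński's decomposition. -/
lemma decomp (Y : Submodule 𝕜 (JX 𝕜)) (p : JX 𝕜 →L[𝕜] Y) (hp : ∀ y : Y, p y = y)
    (A B : JX 𝕜 →L[𝕜] JX 𝕜) (h : ∀ x, A (p (B x)) = x) : Nonempty (Y ≃L[𝕜] JX 𝕜) := by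
  obtain ⟨e₁⟩ := absorb Y p hp
  let f₁ : Y →L[𝕜] JX 𝕜 := A.comp Y.subtypeL
  let f₂ : JX 𝕜 →L[𝕜] Y := p.comp B
  have hf : Function.RightInverse f₂ f₁ := h
  let e₂ : Y ≃L[𝕜] JX 𝕜 × f₁.ker := ContinuousLinearEquiv.equivOfRightInverse f₁ f₂ hf
  have e₃ : (JX 𝕜 × f₁.ker) ≃L[𝕜] (JX 𝕜 × JX 𝕜) × f₁.ker :=
    ContinuousLinearEquiv.prodCongr sqEquiv (ContinuousLinearEquiv.refl 𝕜 f₁.ker)
  have e₄ : ((JX 𝕜 × JX 𝕜) × f₁.ker) ≃L[𝕜] JX 𝕜 × (JX 𝕜 × f₁.ker) :=
    ContinuousLinearEquiv.prodAssoc 𝕜 (JX 𝕜) (JX 𝕜) f₁.ker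
  have e₅ : (JX 𝕜 × (JX 𝕜 × f₁.ker)) ≃L[𝕜] JX 𝕜 × Y :=
    ContinuousLinearEquiv.prodCongr (ContinuousLinearEquiv.refl 𝕜 (JX 𝕜)) e₂.symm
  exact ⟨((e₂.trans e₃).trans e₄).trans (e₅.trans e₁.symm)⟩

lemma not_finiteDimensional : ¬ FiniteDimensional 𝕜 (JX 𝕜) := by
  intro hfin
  have hli : LinearIndependent 𝕜 (fun k : ℕ => (e (root k) : JX 𝕜)) := by
    rw [linearIndependent_iff']
    intro s g hg i hi
    have h1 : (∑ k ∈ s, g k • (e (root k) : JX 𝕜)) (root i) = 0 := by rw [hg]; rfl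
    rw [sum_apply, Finset.sum_eq_single_of_mem i hi] at h1
    · rwa [smul_apply, e_apply_self, mul_one] at h1
    · intro j _ hj
      rw [smul_apply, e_apply_ne, mul_zero]
      intro h
      apply hj
      simpa using h.symm
  have : Finite ℕ := hli.finite
  exact not_finite ℕ

/-- The projections of a decomposition into closed subspaces. -/
lemma exists_projs {X : Type*} [NormedAddCommGroup X] [NormedSpace 𝕜 X] [CompleteSpace X]
    (Y Z : Submodule 𝕜 X) (hY : IsClosed (Y : Set X)) (hZ : IsClosed (Z : Set X))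
    (hYZ : IsCompl Y Z) :
    ∃ (p : X →L[𝕜] Y) (q : X →L[𝕜] Z), (∀ y : Y, p y = y) ∧ (∀ z : Z, q z = z) ∧
      ∀ x, (p x : X) + q x = x := by
  have hYc : CompleteSpace Y := hY.completeSpace_coe
  have hZc : CompleteSpace Z := hZ.completeSpace_coe
  obtain ⟨ee, hee⟩ : ∃ ee : (Y × Z) ≃L[𝕜] X, ∀ w, ee w = (w.1 : X) + w.2 := by
    refine ⟨(Y.prodEquivOfIsCompl Z hYZ).toContinuousLinearEquivOfContinuous
      (Y.subtypeL.coprod Z.subtypeL).continuous, fun w => rfl⟩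
  refine ⟨(ContinuousLinearMap.fst 𝕜 Y Z).comp (ee.symm : X →L[𝕜] Y × Z),
    (ContinuousLinearMap.snd 𝕜 Y Z).comp (ee.symm : X →L[𝕜] Y × Z), fun y => ?_, fun z => ?_,
    fun x => ?_⟩
  · change (ee.symm (y : X)).1 = y
    have h1 : (y : X) = ee (y, 0) := by rw [hee]; simp
    rw [h1, ContinuousLinearEquiv.symm_apply_apply]
  · change (ee.symm (z : X)).2 = z
    have h1 : (z : X) = ee (0, z) := by rw [hee]; simp
    rw [h1, ContinuousLinearEquiv.symm_apply_apply]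
  · change ((ee.symm x).1 : X) + (ee.symm x).2 = x
    rw [← hee, ContinuousLinearEquiv.apply_symm_apply]

/-- The James tree space over the forest is primary. -/
theorem isPrimary : IsPrimary 𝕜 (JX 𝕜) := by
  refine ⟨not_finiteDimensional, fun Y Z hY hZ hYZ => ?_⟩
  obtain ⟨p, q, hp, hq, hpq⟩ := exists_projs Y Z hY hZ hYZ
  rcases factorization (Y.subtypeL.comp p) with ⟨A, B, h⟩ | ⟨A, B, h⟩
  · left
    exact decomp Y p hp A B h
  · right
    refine decomp Z q hq A B fun x => ?_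
    have h1 : A (B x - p (B x)) = x := h x
    have h2 : B x - p (B x) = q (B x) := by
      rw [sub_eq_iff_eq_add, add_comm]
      exact (hpq _).symm
    rwa [h2] at h1

end Pool.Agent.Hhelper24.JT
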