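import Pool.Agent.Hhelper24.JT.Koenig

/-!
# Functionals vanishing along branches lie in the closed span of the coordinate functionals
-/

set_option autoImplicit false

open scoped ENNReal

namespace Pool.Agent.Hhelper24.JT

open Node

variable {𝕜 : Type*} [RCLike 𝕜]

/-- One step of the construction along a branch. -/
lemma branch_step (f : JX 𝕜 →L[𝕜] 𝕜) (b : ℕ → ℕ) {η : ℝ} (hη : 0 < η)
    (h0 : ∀ ε : ℝ, 0 < ε → ∀ N : ℕ, ∃ n, N ≤ n ∧ ‖f (e (br b n))‖ ≤ ε) (n : ℕ)
    (hn : η ≤ an f (br b n)) :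
    ∃ (x : JX 𝕜) (n' : ℕ) (r : ℝ), n ≤ n' ∧ (∀ t, x t ≠ 0 → br b n ≤ t ∧ t.level < n') ∧
      ∑ j ∈ Finset.Ico n n', x (br b j) = 0 ∧ ‖x‖ ≤ 4 ∧ f x = (r : 𝕜) ∧ η / 2 ≤ r := by
  classical
  obtain ⟨z, hz1, hz2, hz3⟩ := exists_above f (br b n) (show 7 * η / 8 < an f (br b n) by linarith)
  have hf0 : 0 < ‖f‖ + 1 := by positivity
  obtain ⟨G, hG, hzG⟩ := exists_trunc z (show 0 < min 1 (η / 8 / (‖f‖ + 1)) by positivity)
  have hzG1 : ‖z - trunc G z‖ ≤ 1 := hzG.trans (min_le_left _ _)
  have hzG2 : ‖f (z - trunc G z)‖ ≤ η / 8 := by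
    calc ‖f (z - trunc G z)‖ ≤ ‖f‖ * ‖z - trunc G z‖ := f.le_opNorm _
      _ ≤ (‖f‖ + 1) * (η / 8 / (‖f‖ + 1)) := by
          refine mul_le_mul (by linarith) (hzG.trans (min_le_right _ _)) (norm_nonneg _) hf0.le
      _ = η / 8 := by field_simp
  set w := trunc G z with hw
  have hw1 : ‖w‖ ≤ 2 := by
    have : w = z - (z - w) := by abel
    rw [this]
    exact (norm_sub_le _ _).trans (by linarith)
  have hw2 : 3 * η / 4 ≤ ‖f w‖ := by
    have h1 : f z = f w + f (z - w) := by rw [← map_add]; congr 1; abel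
    have h2 : ‖f z‖ ≤ ‖f w‖ + ‖f (z - w)‖ := by rw [h1]; exact norm_add_le _ _
    linarith
  have hw3 : ∀ t, w t ≠ 0 → br b n ≤ t := by
    intro t ht
    rw [hw, trunc_apply] at ht
    by_cases htG : t ∈ G
    · rw [if_pos htG] at ht; exact hz2 t ht
    · rw [if_neg htG] at ht; exact absurd rfl ht
  have hw4 : ∀ t, w t ≠ 0 → t ∈ G := by
    intro t ht
    by_contra htG
    rw [hw, trunc_apply, if_neg htG] at ht
    exact ht rfl
  obtain ⟨M, hM⟩ : ∃ M, ∀ t ∈ G, t.level < M := by
    refine ⟨G.sup level + 1, fun t ht => Nat.lt_succ_of_le (Finset.le_sup (f := level) ht)⟩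
  set M' := max M n with hM'
  set σ := ∑ j ∈ Finset.Ico n M', w (br b j) with hσ
  have hσ1 : ‖σ‖ ≤ 2 := by
    have h1 : σ = ∑ t ∈ (Finset.Ico n M').image (br b), w t := by
      rw [Finset.sum_image (fun i _ j _ h => br_injective b h)]
    rw [h1]
    refine (norm_seg_le w ?_).trans hw1
    constructor
    · intro s hs t ht
      rw [Finset.mem_image] at hs ht
      obtain ⟨i, -, rfl⟩ := hs
      obtain ⟨j, -, rfl⟩ := ht
      rcases le_total i j with h | h
      · left; exact br_mono b h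
      · right; exact br_mono b h
    · intro s hs t ht u h1 h2
      rw [Finset.mem_image] at hs ht ⊢
      obtain ⟨i, hi, rfl⟩ := hs
      obtain ⟨j, hj, rfl⟩ := ht
      rw [Finset.mem_Ico] at hi hj
      have h3 := level_mono h1
      have h4 := level_mono h2
      rw [level_br] at h3 h4
      exact ⟨u.level, Finset.mem_Ico.mpr ⟨by omega, by omega⟩, (eq_br_of_le b h2).symm⟩
  obtain ⟨i, hi1, hi2⟩ := h0 (η / 8) (by positivity) M'
  set x₀ := w - σ • (e (br b i) : JX 𝕜) with hx₀
  have hx1 : ‖x₀‖ ≤ 4 := by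
    refine (norm_sub_le _ _).trans ?_
    rw [norm_smul, norm_e, mul_one]
    linarith
  have hx2 : η / 2 ≤ ‖f x₀‖ := by
    have h1 : f w = f x₀ + σ * f (e (br b i)) := by
      rw [hx₀, map_sub, map_smul, smul_eq_mul]; ring
    have h2 : ‖f w‖ ≤ ‖f x₀‖ + ‖σ‖ * ‖f (e (br b i))‖ := by
      rw [h1, ← norm_mul]; exact norm_add_le _ _
    have h3 : ‖σ‖ * ‖f (e (br b i))‖ ≤ 2 * (η / 8) :=
      mul_le_mul hσ1 hi2 (norm_nonneg _) (by norm_num)
    linarith
  have hni : n ≤ i := le_trans (le_max_right _ _) hi1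
  have hx3 : ∀ t, x₀ t ≠ 0 → br b n ≤ t ∧ t.level < i + 1 := by
    intro t ht
    by_cases h1 : t = br b i
    · subst h1
      exact ⟨br_mono b hni, by simp⟩
    · have h2 : w t ≠ 0 := by
        intro h
        apply ht
        rw [hx₀, sub_apply, smul_apply, e_apply_ne h1, h]; simp
      refine ⟨hw3 t h2, ?_⟩
      have := hM t (hw4 t h2)
      have : M ≤ M' := le_max_left _ _
      omega
  have hx4 : ∑ j ∈ Finset.Ico n (i + 1), x₀ (br b j) = 0 := by
    have h1 : ∑ j ∈ Finset.Ico n (i + 1), w (br b j) = σ := by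
      rw [hσ]
      symm
      refine Finset.sum_subset ?_ ?_
      · intro j hj
        rw [Finset.mem_Ico] at *
        omega
      · intro j hj hj'
        by_contra hne
        have h2 := hM _ (hw4 _ hne)
        rw [level_br] at h2
        have : M ≤ M' := le_max_left _ _
        rw [Finset.mem_Ico] at hj hj'
        omega
    have h2 : ∑ j ∈ Finset.Ico n (i + 1), (σ • (e (br b i) : JX 𝕜)) (br b j) = σ := by
      rw [Finset.sum_eq_single i]
      · simp
      · intro j _ hj
        rw [smul_apply, e_apply_ne (fun h => hj (br_injective b h)), mul_zero]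
      · intro h
        exact absurd (Finset.mem_Ico.mpr ⟨hni, Nat.lt_succ_self i⟩) h
    simp only [hx₀, sub_apply, Finset.sum_sub_distrib]
    rw [h1, h2, sub_self]
  obtain ⟨c, hc1, hc2⟩ := RCLike.exists_norm_eq_mul_self (f x₀)
  refine ⟨c • x₀, i + 1, ‖f x₀‖, by omega, ?_, ?_, ?_, ?_, hx2⟩
  · intro t ht
    apply hx3
    intro h
    apply ht
    rw [smul_apply, h, mul_zero]
  · simp only [smul_apply]
    rw [← Finset.mul_sum, hx4, mul_zero]
  · rw [norm_smul, hc1, one_mul]; exact hx1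
  · rw [map_smul, smul_eq_mul, hc2]

/-- If `f` is small somewhere along the branch infinitely often, its part above the nodes of the
branch becomes small. -/
lemma branch_small (f : JX 𝕜 →L[𝕜] 𝕜) (b : ℕ → ℕ)
    (h0 : ∀ ε : ℝ, 0 < ε → ∀ N : ℕ, ∃ n, N ≤ n ∧ ‖f (e (br b n))‖ ≤ ε) {η : ℝ} (hη : 0 < η) :
    ∃ n, an f (br b n) < η := by
  classical
  by_contra hcon
  push Not at hcon
  have key : ∀ N : ℕ, ∃ (y : JX 𝕜) (n : ℕ) (r : ℝ), (∀ t, y t ≠ 0 → ¬ br b n ≤ t) ∧
      (∀ S, IsSeg S → br b n ∈ S → ‖∑ t ∈ S, y t‖ ≤ 4) ∧ ‖y‖ ^ 2 ≤ 48 * N ∧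
      f y = (r : 𝕜) ∧ N * (η / 2) ≤ r := by
    intro N
    induction N with
    | zero =>
      refine ⟨0, 0, 0, ?_, ?_, ?_, ?_, ?_⟩ <;> simp
    | succ N ih =>
      obtain ⟨y, n, r, hy1, hy2, hy3, hy4, hy5⟩ := ih
      obtain ⟨x, n', r', hx1, hx2, hx3, hx4, hx5, hx6⟩ := branch_step f b hη h0 n (hcon n)
      refine ⟨y + x, n', r + r', ?_, ?_, ?_, ?_, ?_⟩
      · intro t ht hle
        have hle' : br b n ≤ t := (br_mono b hx1).trans hle
        have h1 : y t = 0 := by
          by_contra h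
          exact hy1 t h hle'
        rw [add_apply, h1, zero_add] at ht
        have h2 := (hx2 t ht).2
        have h3 := level_mono hle
        rw [level_br] at h3
        omega
      · intro S hS hmem
        simp only [add_apply, Finset.sum_add_distrib]
        by_cases hn : br b n ∈ S
        · have h1 : ∑ t ∈ S, x t = 0 := by
            rw [← hx3]
            have h2 : ∑ j ∈ Finset.Ico n n', x (br b j) =
                ∑ t ∈ (Finset.Ico n n').image (br b), x t := by
              rw [Finset.sum_image (fun i _ j _ h => br_injective b h)]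
            rw [h2]
            symm
            refine Finset.sum_subset ?_ ?_
            · intro t ht
              rw [Finset.mem_image] at ht
              obtain ⟨j, hj, rfl⟩ := ht
              rw [Finset.mem_Ico] at hj
              exact hS.2 _ hn _ hmem _ (br_mono b hj.1) (br_mono b hj.2.le)
            · intro t ht ht'
              by_contra hne
              apply ht'
              obtain ⟨h3, h4⟩ := hx2 t hne
              have h5 : t ≤ br b n' := by
                rcases hS.1 t ht _ hmem with h | h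
                · exact h
                · have := level_mono h
                  rw [level_br] at this
                  omega
              rw [Finset.mem_image]
              refine ⟨t.level, Finset.mem_Ico.mpr ⟨?_, h4⟩, (eq_br_of_le b h5).symm⟩
              simpa using level_mono h3
          rw [h1, add_zero]
          exact hy2 S hS hn
        · have h1 : ∑ t ∈ S, y t = 0 := by
            refine Finset.sum_eq_zero fun t ht => ?_
            by_contra hne
            have h2 := hy1 t hne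
            have h3 : t ≤ br b n' := by
              rcases hS.1 t ht _ hmem with h | h
              · exact h
              · exact absurd ((br_mono b hx1).trans h) h2
            rcases le_or_le h3 (br_mono b hx1) with h4 | h4
            · exact hn (hS.2 _ ht _ hmem _ h4 (br_mono b hx1))
            · exact h2 h4
          rw [h1, zero_add]
          exact (norm_seg_le x hS).trans hx4
      · have h1 := norm_add_sq_le y x 16 (by
          intro θ
          have huniq : ∀ i, ‖∑ t ∈ θ.S i, y t‖ * ‖∑ t ∈ θ.S i, x t‖ ≠ 0 → br b n ∈ θ.S i := by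
            intro i hne
            have ha : ∑ t ∈ θ.S i, y t ≠ 0 := by
              intro h; apply hne; rw [h]; simp
            have hb : ∑ t ∈ θ.S i, x t ≠ 0 := by
              intro h; apply hne; rw [h]; simp
            obtain ⟨u, hu, hyu⟩ := Finset.exists_ne_zero_of_sum_ne_zero ha
            obtain ⟨s, hs, hxs⟩ := Finset.exists_ne_zero_of_sum_ne_zero hb
            have h2 := hy1 u hyu
            have h3 := (hx2 s hxs).1
            have h4 : u ≤ s := by
              rcases (θ.seg i).1 u hu s hs with h | h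
              · exact h
              · exact absurd (h3.trans h) h2
            rcases le_or_le h4 h3 with h5 | h5
            · exact (θ.seg i).2 _ hu _ hs _ h5 h3
            · exact absurd h5 h2
          by_cases hex : ∃ i, br b n ∈ θ.S i
          · obtain ⟨i, hi⟩ := hex
            rw [Finset.sum_eq_single i]
            · have h5 := hy2 _ (θ.seg i) hi
              have h6 := (norm_seg_le x (θ.seg i)).trans hx4
              nlinarith [norm_nonneg (∑ t ∈ θ.S i, y t), norm_nonneg (∑ t ∈ θ.S i, x t)]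
            · intro j _ hji
              by_contra hne
              exact Finset.disjoint_left.mp (θ.disj j i hji) (huniq j hne) hi
            · intro h
              exact absurd (Finset.mem_univ i) h
          · rw [Finset.sum_eq_zero]
            · norm_num
            · intro i _
              by_contra hne
              exact hex ⟨i, huniq i hne⟩)
        have h2 : ‖x‖ ^ 2 ≤ 4 ^ 2 := pow_le_pow_left₀ (norm_nonneg _) hx4 2
        push_cast
        linarith
      · rw [map_add, hy4, hx5]; push_cast; rfl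
      · push_cast
        linarith
  obtain ⟨N, hN⟩ := exists_nat_gt (192 * ‖f‖ ^ 2 / η ^ 2)
  obtain ⟨y, n, r, -, -, hy3, hy4, hy5⟩ := key N
  have hN0 : (0:ℝ) < N := lt_of_le_of_lt (by positivity) hN
  have h1 : r ≤ ‖f‖ * ‖y‖ := by
    have := f.le_opNorm y
    rw [hy4, RCLike.norm_ofReal] at this
    exact (le_abs_self r).trans this
  have h2 : (N * (η / 2)) ^ 2 ≤ ‖f‖ ^ 2 * (48 * N) := by
    calc (N * (η / 2)) ^ 2 ≤ (‖f‖ * ‖y‖) ^ 2 :=
          pow_le_pow_left₀ (by positivity) (hy5.trans h1) 2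
      _ = ‖f‖ ^ 2 * ‖y‖ ^ 2 := mul_pow _ _ _
      _ ≤ _ := mul_le_mul_of_nonneg_left hy3 (sq_nonneg _)
  rw [div_lt_iff₀ (by positivity)] at hN
  have h3 : N * (N * η ^ 2) ≤ N * (192 * ‖f‖ ^ 2) := by nlinarith
  have h4 := le_of_mul_le_mul_left h3 hN0
  linarith

lemma norm_trunc_le {G : Finset Node} (hG : Low G) (x : JX 𝕜) : ‖trunc G x‖ ≤ ‖x‖ := by
  classical
  have h1 : trunc G x = res (fun t => t ∈ G) (conv_of_lower fun a b hb hab => hG b hb a hab) x := by
    apply JX.ext
    intro t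
    rw [trunc_apply, res_apply]
    congr
  rw [h1]
  exact norm_res_apply_le _ _ _

lemma norm_le_an (f : JX 𝕜 →L[𝕜] 𝕜) (t : Node) (x : JX 𝕜) :
    ‖f (up t x)‖ ≤ an f t * ‖up t x‖ := by
  have h1 : up t (up t x) = up t x := by
    apply JX.ext
    intro s
    rw [up_apply, up_apply]
    split_ifs <;> rfl
  have h2 := (f.comp (up t)).le_opNorm (up t x)
  rw [ContinuousLinearMap.comp_apply, h1] at h2
  exact h2

lemma eq_of_above {t t' u u' : Node} (h1 : t ≤ u) (h2 : t' ≤ u') (h3 : u ≤ u' ∨ u' ≤ u) :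
    t ≤ t' ∨ t' ≤ t := by
  rcases h3 with h3 | h3
  · exact le_or_le (h1.trans h3) h2
  · exact le_or_le h1 (h2.trans h3)

/-- Vectors with small segment sums on which `f` is large. -/
lemma exists_flat (f : JX 𝕜 →L[𝕜] 𝕜) (hfin : ∀ η : ℝ, 0 < η → {t | η ≤ an f t}.Finite)
    {δ : ℝ} (hδ : 0 < δ) (hG : ∀ G (h : Low G), δ < ‖f.comp (off G h)‖) {η : ℝ} (hη : 0 < η) :
    ∃ (x : JX 𝕜) (r : ℝ) (F : Finset Node), (∀ t, x t ≠ 0 → t ∈ F) ∧ ‖x‖ ≤ 1 ∧
      (∀ S, IsSeg S → ‖∑ t ∈ S, x t‖ ≤ η) ∧ f x = (r : 𝕜) ∧ δ / 2 ≤ r := by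
  classical
  -- the nodes with a large part of `f`
  have hη1 : 0 < η * (δ / 2) := by positivity
  set B : Finset Node := (hfin _ hη1).toFinset with hB
  set G := lowCl B with hGdef
  have hGlow : Low G := low_lowCl B
  obtain ⟨z, hz1, hz2⟩ := (f.comp (off G hGlow)).exists_lt_apply_of_lt_opNorm (hG G hGlow)
  set z₀ := off G hGlow z with hz₀
  have hz₀1 : ‖z₀‖ ≤ 1 := (norm_res_apply_le _ _ _).trans hz1.le
  have hz₀2 : δ < ‖f z₀‖ := hz2
  have hf0 : 0 < ‖f‖ + 1 := by positivity
  obtain ⟨G', hG', hzG⟩ := exists_trunc z₀ (show 0 < δ / 2 / (‖f‖ + 1) by positivity)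
  have hzG2 : ‖f (z₀ - trunc G' z₀)‖ ≤ δ / 2 := by
    calc ‖f (z₀ - trunc G' z₀)‖ ≤ ‖f‖ * ‖z₀ - trunc G' z₀‖ := f.le_opNorm _
      _ ≤ (‖f‖ + 1) * (δ / 2 / (‖f‖ + 1)) :=
          mul_le_mul (by linarith) hzG (norm_nonneg _) hf0.le
      _ = δ / 2 := by field_simp
  set w := trunc G' z₀ with hw
  have hw1 : ‖w‖ ≤ 1 := (norm_trunc_le hG' z₀).trans hz₀1
  have hw2 : δ / 2 ≤ ‖f w‖ := by
    have h1 : f z₀ = f w + f (z₀ - w) := by rw [← map_add]; congr 1; abel
    have h2 : ‖f z₀‖ ≤ ‖f w‖ + ‖f (z₀ - w)‖ := by rw [h1]; exact norm_add_le _ _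
    linarith
  have hw3 : ∀ t, w t ≠ 0 → t ∈ G' ∧ t ∉ G := by
    intro t ht
    rw [hw, trunc_apply] at ht
    by_cases htG : t ∈ G'
    · rw [if_pos htG, hz₀, off_apply] at ht
      refine ⟨htG, fun h => ht (if_pos h)⟩
    · rw [if_neg htG] at ht; exact absurd rfl ht
  set F := G'.filter (fun t => w t ≠ 0) with hF
  have hmemF : ∀ t, t ∈ F ↔ w t ≠ 0 := by
    intro t
    rw [hF, Finset.mem_filter]
    exact ⟨fun h => h.2, fun h => ⟨(hw3 t h).1, h⟩⟩
  set E := F.filter (fun t => ∀ s ∈ F, s ≤ t → s = t) with hE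
  have hE1 : ∀ t ∈ E, ∀ t' ∈ E, (t ≤ t' ∨ t' ≤ t) → t = t' := by
    intro t ht t' ht' h
    rw [hE, Finset.mem_filter] at ht ht'
    rcases h with h | h
    · exact ht'.2 t ht.1 h
    · exact (ht.2 t' ht'.1 h).symm
  have hE2 : ∀ s ∈ F, ∃ t ∈ E, t ≤ s := by
    intro s hs
    obtain ⟨t, ht, hmin⟩ := Finset.exists_min_image (F.filter (fun t => t ≤ s)) level
      ⟨s, Finset.mem_filter.mpr ⟨hs, le_rfl⟩⟩
    rw [Finset.mem_filter] at ht
    refine ⟨t, ?_, ht.2⟩
    rw [hE, Finset.mem_filter]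
    refine ⟨ht.1, fun u hu hut => ?_⟩
    exact eq_of_le_of_level hut (hmin u (Finset.mem_filter.mpr ⟨hu, hut.trans ht.2⟩))
  have hsum : ∑ t ∈ E, up t w = w := by
    apply JX.ext
    intro s
    rw [sum_apply]
    by_cases hs : w s = 0
    · rw [hs]
      refine Finset.sum_eq_zero fun t _ => ?_
      rw [up_apply, hs, ite_self]
    · obtain ⟨t, ht, hts⟩ := hE2 s ((hmemF s).mpr hs)
      rw [Finset.sum_eq_single_of_mem t ht]
      · rw [up_apply, if_pos hts]
      · intro t' ht' hne
        rw [up_apply, if_neg]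
        intro h
        exact hne (hE1 t' ht' t ht (le_or_le h hts))
  have hlow : ∑ t ∈ E, ‖up t w‖ ^ 2 ≤ 1 := by
    have h1 := lower_est E w (fun t s => t ≤ s) (fun t => conv_ge t) (by
      intro t ht t' ht' hne s h1 h2
      exact hne (hE1 t ht t' ht' (le_or_le h1 h2)))
    refine h1.trans ?_
    have := pow_le_pow_left₀ (norm_nonneg _) hw1 2
    simpa using this
  set a : Node → ℝ := fun t => ‖f (up t w)‖ / ‖up t w‖ with ha
  have ha0 : ∀ t, 0 ≤ a t := fun t => by positivity
  have ha1 : ∀ t, ‖f (up t w)‖ = a t * ‖up t w‖ := by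
    intro t
    rw [ha]
    by_cases h : ‖up t w‖ = 0
    · have : up t w = 0 := norm_eq_zero.mp h
      rw [this]; simp
    · simp only
      rw [div_mul_cancel₀ _ h]
  have ha2 : ∀ t ∈ E, a t ≤ η * (δ / 2) := by
    intro t ht
    have h1 : an f t < η * (δ / 2) := by
      by_contra hcon
      push Not at hcon
      have h2 : t ∈ B := by rw [hB, Set.Finite.mem_toFinset]; exact hcon
      rw [hE, Finset.mem_filter, hmemF] at ht
      exact (hw3 t ht.1).2 (subset_lowCl B h2)
    refine le_trans ?_ h1.le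
    rw [ha]
    by_cases h : ‖up t w‖ = 0
    · simp only [h, div_zero]
      exact norm_nonneg _
    · simp only
      rw [div_le_iff₀ (lt_of_le_of_ne (norm_nonneg _) (Ne.symm h))]
      exact norm_le_an f t w
  set D := ∑ t ∈ E, a t ^ 2 with hD
  have hD1 : (δ / 2) ^ 2 ≤ D := by
    have h1 : δ / 2 ≤ ∑ t ∈ E, a t * ‖up t w‖ := by
      calc δ / 2 ≤ ‖f w‖ := hw2
        _ = ‖∑ t ∈ E, f (up t w)‖ := by rw [← map_sum, hsum]
        _ ≤ ∑ t ∈ E, ‖f (up t w)‖ := norm_sum_le _ _
        _ = _ := Finset.sum_congr rfl fun t _ => ha1 t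
    have h2 := Finset.sum_mul_sq_le_sq_mul_sq E a (fun t => ‖up t w‖)
    have h3 := pow_le_pow_left₀ (by positivity) h1 2
    have hD0 : 0 ≤ D := Finset.sum_nonneg fun _ _ => sq_nonneg _
    calc (δ / 2) ^ 2 ≤ _ := h3
      _ ≤ D * ∑ t ∈ E, ‖up t w‖ ^ 2 := h2
      _ ≤ D * 1 := mul_le_mul_of_nonneg_left hlow hD0
      _ = D := mul_one D
  clear_value D
  have hD0 : 0 < D := lt_of_lt_of_le (pow_pos (half_pos hδ) 2) hD1
  obtain ⟨β, hβ1, hββ⟩ : ∃ β : ℝ, δ / 2 ≤ β ∧ β ^ 2 = D :=
    ⟨Real.sqrt D, Real.le_sqrt_of_sq_le hD1, Real.sq_sqrt hD0.le⟩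
  have hβ0 : 0 < β := lt_of_lt_of_le (half_pos hδ) hβ1
  have ha3 : ∀ t, ‖up t w‖ = 0 → a t = 0 := by
    intro t h
    rw [ha]
    simp only [h, div_zero]
  clear_value a
  choose c hc1 hc2 using fun t => RCLike.exists_norm_eq_mul_self (f (up t w))
  set X : Node → JX 𝕜 := fun t => ((a t / (β * ‖up t w‖) : ℝ) : 𝕜) • c t • up t w with hX
  have hX1 : ∀ t, ‖X t‖ ≤ a t / β := by
    intro t
    rw [hX]
    simp only
    rw [norm_smul, norm_smul, hc1, one_mul, RCLike.norm_ofReal,
      abs_of_nonneg (div_nonneg (ha0 t) (mul_nonneg hβ0.le (norm_nonneg _)))]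
    by_cases h : ‖up t w‖ = 0
    · rw [h]; simp only [mul_zero]; exact div_nonneg (ha0 t) hβ0.le
    · apply le_of_eq
      field_simp
  have hX2 : ∀ t, f (X t) = ((a t ^ 2 / β : ℝ) : 𝕜) := by
    intro t
    rw [hX]
    simp only
    rw [map_smul, map_smul, smul_eq_mul, smul_eq_mul, ← hc2, ← RCLike.ofReal_mul]
    congr 1
    rw [ha1]
    by_cases h : ‖up t w‖ = 0
    · rw [ha3 t h]; simp
    · field_simp
  have hX3 : ∀ t s, X t s ≠ 0 → t ≤ s ∧ w s ≠ 0 := by
    intro t s hs
    constructor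
    · by_contra h
      apply hs
      rw [hX]
      simp only [smul_apply, up_apply, if_neg h, mul_zero]
    · intro h
      apply hs
      rw [hX]
      simp only [smul_apply, up_apply, h, ite_self, mul_zero]
  clear_value X
  clear hX hc1 hc2 c
  refine ⟨∑ t ∈ E, X t, β, F, ?_, ?_, ?_, ?_, hβ1⟩
  · intro s hs
    rw [sum_apply] at hs
    obtain ⟨t, -, ht⟩ := Finset.exists_ne_zero_of_sum_ne_zero hs
    rw [hmemF]
    exact (hX3 t s ht).2
  · have h1 := upper_est E X (fun t s => t ≤ s) (fun t _ s hs => (hX3 t s hs).1) (by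
      intro t ht t' ht' u u' h1 h2 h3
      exact hE1 t ht t' ht' (eq_of_above h1 h2 h3))
    have h2 : ∑ t ∈ E, ‖X t‖ ^ 2 ≤ 1 := by
      calc ∑ t ∈ E, ‖X t‖ ^ 2 ≤ ∑ t ∈ E, (a t / β) ^ 2 :=
            Finset.sum_le_sum fun t _ => pow_le_pow_left₀ (norm_nonneg _) (hX1 t) 2
        _ = (∑ t ∈ E, a t ^ 2) / β ^ 2 := by
            rw [Finset.sum_div]
            exact Finset.sum_congr rfl fun t _ => div_pow _ _ _
        _ = 1 := by rw [hββ, ← hD]; exact div_self hD0.ne'
    have h3 : ‖∑ t ∈ E, X t‖ ^ 2 ≤ 1 ^ 2 := by rw [one_pow]; exact h1.trans h2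
    exact le_of_sq_le_sq h3 zero_le_one
  · intro S hS
    simp only [sum_apply]
    rw [Finset.sum_comm]
    by_cases hex : ∃ t ∈ E, ∑ s ∈ S, X t s ≠ 0
    · obtain ⟨t, ht, hne⟩ := hex
      rw [Finset.sum_eq_single_of_mem t ht]
      · refine (norm_seg_le (X t) hS).trans ((hX1 t).trans ?_)
        rw [div_le_iff₀ hβ0]
        calc a t ≤ η * (δ / 2) := ha2 t ht
          _ ≤ η * β := mul_le_mul_of_nonneg_left hβ1 hη.le
      · intro t' ht' hne'
        by_contra h
        obtain ⟨u, hu, hxu⟩ := Finset.exists_ne_zero_of_sum_ne_zero hne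
        obtain ⟨u', hu', hxu'⟩ := Finset.exists_ne_zero_of_sum_ne_zero h
        exact hne' (hE1 t' ht' t ht (eq_of_above (hX3 _ _ hxu').1 (hX3 _ _ hxu).1
          (hS.1 _ hu' _ hu)))
    · push Not at hex
      rw [Finset.sum_eq_zero hex, norm_zero]
      exact hη.le
  · rw [map_sum]
    simp only [hX2]
    rw [← RCLike.ofReal_sum, ← Finset.sum_div, ← hD]
    congr 1
    rw [div_eq_iff hβ0.ne', ← sq, hββ]

/-- The main approximation statement. -/
lemma exists_off_le (f : JX 𝕜 →L[𝕜] 𝕜) (hfin : ∀ η : ℝ, 0 < η → {t | η ≤ an f t}.Finite)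
    {δ : ℝ} (hδ : 0 < δ) : ∃ (G : Finset Node) (h : Low G), ‖f.comp (off G h)‖ ≤ δ := by
  classical
  by_contra hcon
  push Not at hcon
  have key : ∀ N : ℕ, ∃ (y : JX 𝕜) (r : ℝ) (F : Finset Node), (∀ t, y t ≠ 0 → t ∈ F) ∧
      ‖y‖ ^ 2 ≤ 2 * N ∧ f y = (r : 𝕜) ∧ N * (δ / 2) ≤ r := by
    intro N
    induction N with
    | zero => refine ⟨0, 0, ∅, ?_, ?_, ?_, ?_⟩ <;> simp
    | succ N ih =>
      obtain ⟨y, r, F, hy1, hy2, hy3, hy4⟩ := ih
      set C := ((F.card : ℝ) * ‖y‖ + 1) * 2 with hC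
      have hC0 : 0 < C := by positivity
      obtain ⟨x, r', F', hx1, hx2, hx3, hx4, hx5⟩ := exists_flat f hfin hδ hcon
        (show 0 < 1 / C by positivity)
      refine ⟨y + x, r + r', F ∪ F', ?_, ?_, ?_, ?_⟩
      · intro t ht
        rw [Finset.mem_union]
        by_contra h
        push Not at h
        apply ht
        rw [add_apply]
        have h1 : y t = 0 := by by_contra h'; exact h.1 (hy1 t h')
        have h2 : x t = 0 := by by_contra h'; exact h.2 (hx1 t h')
        rw [h1, h2, add_zero]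
      · have h1 := norm_add_sq_le y x (1 / 2) (by
          intro θ
          calc ∑ i, ‖∑ t ∈ θ.S i, y t‖ * ‖∑ t ∈ θ.S i, x t‖
              ≤ ∑ i, (if (θ.S i ∩ F).Nonempty then 1 else 0) * (‖y‖ * (1 / C)) := by
                refine Finset.sum_le_sum fun i _ => ?_
                by_cases h : (θ.S i ∩ F).Nonempty
                · rw [if_pos h, one_mul]
                  exact mul_le_mul (norm_seg_le y (θ.seg i)) (hx3 _ (θ.seg i)) (norm_nonneg _)
                    (norm_nonneg _)
                · rw [if_neg h, zero_mul]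
                  have h2 : ∑ t ∈ θ.S i, y t = 0 := by
                    refine Finset.sum_eq_zero fun t ht => ?_
                    by_contra hne
                    exact h ⟨t, Finset.mem_inter.mpr ⟨ht, hy1 t hne⟩⟩
                  rw [h2]; simp
            _ = ((Finset.univ.filter (fun i => (θ.S i ∩ F).Nonempty)).card : ℝ) *
                  (‖y‖ * (1 / C)) := by
                rw [← Finset.sum_mul, Finset.sum_boole]
            _ ≤ (F.card : ℝ) * (‖y‖ * (1 / C)) := by
                refine mul_le_mul_of_nonneg_right ?_ (by positivity)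
                norm_cast
                have h3 : ∀ i ∈ Finset.univ.filter (fun i => (θ.S i ∩ F).Nonempty),
                    ∃ t, t ∈ θ.S i ∩ F := by
                  intro i hi
                  exact (Finset.mem_filter.mp hi).2
                choose! g hg using h3
                refine Finset.card_le_card_of_injOn g ?_ ?_
                · intro i hi
                  exact (Finset.mem_inter.mp (hg i hi)).2
                · intro i hi j hj hij
                  by_contra hne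
                  have h4 := (Finset.mem_inter.mp (hg i hi)).1
                  have h5 := (Finset.mem_inter.mp (hg j hj)).1
                  rw [← hij] at h5
                  exact Finset.disjoint_left.mp (θ.disj i j hne) h4 h5
            _ ≤ 1 / 2 := by
                have h4 : (F.card : ℝ) * (‖y‖ * (1 / C)) = (F.card : ℝ) * ‖y‖ / C := by ring
                rw [h4, div_le_iff₀ hC0, hC]
                nlinarith)
        have h2 : ‖x‖ ^ 2 ≤ 1 := by
          have := pow_le_pow_left₀ (norm_nonneg _) hx2 2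
          simpa using this
        push_cast
        linarith
      · rw [map_add, hy3, hx4]; push_cast; rfl
      · push_cast
        linarith
  obtain ⟨N, hN⟩ := exists_nat_gt (8 * ‖f‖ ^ 2 / δ ^ 2)
  obtain ⟨y, r, F, -, hy3, hy4, hy5⟩ := key N
  have hN0 : (0:ℝ) < N := lt_of_le_of_lt (by positivity) hN
  have h1 : r ≤ ‖f‖ * ‖y‖ := by
    have := f.le_opNorm y
    rw [hy4, RCLike.norm_ofReal] at this
    exact (le_abs_self r).trans this
  have h2 : (N * (δ / 2)) ^ 2 ≤ ‖f‖ ^ 2 * (2 * N) := by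
    calc (N * (δ / 2)) ^ 2 ≤ (‖f‖ * ‖y‖) ^ 2 :=
          pow_le_pow_left₀ (by positivity) (hy5.trans h1) 2
      _ = ‖f‖ ^ 2 * ‖y‖ ^ 2 := mul_pow _ _ _
      _ ≤ _ := mul_le_mul_of_nonneg_left hy3 (sq_nonneg _)
  rw [div_lt_iff₀ (by positivity)] at hN
  have h3 : N * (N * δ ^ 2) ≤ N * (8 * ‖f‖ ^ 2) := by nlinarith
  have h4 := le_of_mul_le_mul_left h3 hN0
  linarith

/-- Functionals which are small infinitely often along all branches can be approximated by
finite combinations of coordinate functionals. -/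
theorem exists_off_le_of_branch (f : JX 𝕜 →L[𝕜] 𝕜)
    (h0 : ∀ (b : ℕ → ℕ) (ε : ℝ), 0 < ε → ∀ N : ℕ, ∃ n, N ≤ n ∧ ‖f (e (br b n))‖ ≤ ε)
    {δ : ℝ} (hδ : 0 < δ) : ∃ (G : Finset Node) (h : Low G), ‖f.comp (off G h)‖ ≤ δ :=
  exists_off_le f (fun _ hη => finite_large f hη fun b => branch_small f b (h0 b) hη) hδ

end Pool.Agent.Hhelper24.JT
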