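import Pool.Agent.Hhelper24.JT.Node

/-!
# The James tree space over the infinitely branching forest
-/

set_option autoImplicit false

open scoped ENNReal

namespace Pool.Agent.Hhelper24.JT

open Node

/-- Finite families of pairwise disjoint segments. -/
structure Fam : Type where
  /-- number of segments -/
  n : ℕ
  /-- the segments -/
  S : Fin n → Finset Node
  seg : ∀ i, IsSeg (S i)
  disj : ∀ i j, i ≠ j → Disjoint (S i) (S j)

section defs

variable (𝕜 : Type*) [RCLike 𝕜]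

/-- The vector of the segment sums of `x`. -/
noncomputable def vec (θ : Fam) : (Node → 𝕜) →ₗ[𝕜] EuclideanSpace 𝕜 (Fin θ.n) where
  toFun x := WithLp.toLp 2 (fun i => ∑ t ∈ θ.S i, x t)
  map_add' x y := by
    ext i
    simp [Finset.sum_add_distrib]
  map_smul' c x := by
    ext i
    simp [Finset.mul_sum]

/-- The underlying vector space of the James tree space. -/
def carrier : Submodule 𝕜 (Node → 𝕜) where
  carrier := {x | Memℓp (fun θ : Fam => vec 𝕜 θ x) ∞}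
  add_mem' {x y} hx hy := by
    have : (fun θ : Fam => vec 𝕜 θ (x + y)) = (fun θ : Fam => vec 𝕜 θ x) + fun θ => vec 𝕜 θ y := by
      funext θ; simp
    rw [Set.mem_ofPred_eq, this]
    exact Memℓp.add hx hy
  zero_mem' := by
    have : (fun θ : Fam => vec 𝕜 θ (0 : Node → 𝕜)) = 0 := by
      funext θ; simp
    rw [Set.mem_ofPred_eq, this]
    exact zero_memℓp
  smul_mem' c x hx := by
    have : (fun θ : Fam => vec 𝕜 θ (c • x)) = c • (fun θ : Fam => vec 𝕜 θ x) := by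
      funext θ; simp
    rw [Set.mem_ofPred_eq, this]
    exact Memℓp.const_smul (show Memℓp (fun θ : Fam => vec 𝕜 θ x) ∞ from hx) c

/-- The James tree space over the forest `Node`. -/
def JX : Type _ := ↥(carrier 𝕜)

/-- The algebraic structure of the space. -/
@[reducible] noncomputable def jxGroup : AddCommGroup (JX 𝕜) :=
  inferInstanceAs (AddCommGroup ↥(carrier 𝕜))

instance : FunLike (JX 𝕜) Node 𝕜 where
  coe x := x.1
  coe_injective _ _ h := Subtype.ext h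

variable {𝕜}

lemma JX.ext {x y : JX 𝕜} (h : ∀ t, x t = y t) : x = y := DFunLike.ext _ _ h

/-- The family consisting of one segment. -/
def oneFam (S : Finset Node) (h : IsSeg S) : Fam where
  n := 1
  S := fun _ => S
  seg := fun _ => h
  disj := fun i j hij => absurd (Subsingleton.elim i j) hij

section pre

attribute [local instance] jxGroup

/-- The module structure of the space. -/
@[reducible] noncomputable def jxModule : Module 𝕜 (JX 𝕜) :=
  inferInstanceAs (Module 𝕜 ↥(carrier 𝕜))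

attribute [local instance] jxModule

/-- The isometric embedding into `ℓ∞(families, ℓ2)`. -/
noncomputable def Phi : JX 𝕜 →ₗ[𝕜] lp (fun θ : Fam => EuclideanSpace 𝕜 (Fin θ.n)) ∞ where
  toFun x := ⟨fun θ => vec 𝕜 θ x, x.2⟩
  map_add' x y := by
    ext θ
    simp [show ((x + y : JX 𝕜) : Node → 𝕜) = (x : Node → 𝕜) + (y : Node → 𝕜) from rfl]
  map_smul' c x := by
    ext θ
    simp [show ((c • x : JX 𝕜) : Node → 𝕜) = c • (x : Node → 𝕜) from rfl]

lemma Phi_apply (x : JX 𝕜) (θ : Fam) : (Phi x) θ = vec 𝕜 θ x := rfl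

lemma Phi_injective : Function.Injective (Phi (𝕜 := 𝕜)) := by
  intro x y h
  apply JX.ext
  intro t
  have h1 : Phi x (oneFam {t} (isSeg_singleton t)) = Phi y (oneFam {t} (isSeg_singleton t)) := by
    rw [h]
  rw [Phi_apply, Phi_apply] at h1
  have h2 := congrArg (fun v => v.ofLp (0 : Fin 1)) h1
  change ∑ s ∈ ({t} : Finset Node), x s = ∑ s ∈ ({t} : Finset Node), y s at h2
  simpa using h2

noncomputable instance instNAGJX : NormedAddCommGroup (JX 𝕜) :=
  NormedAddCommGroup.induced (JX 𝕜) (lp (fun θ : Fam => EuclideanSpace 𝕜 (Fin θ.n)) ∞)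
    (Phi (𝕜 := 𝕜)) Phi_injective

noncomputable instance instNSJX : NormedSpace 𝕜 (JX 𝕜) :=
  NormedSpace.induced 𝕜 (JX 𝕜) (lp (fun θ : Fam => EuclideanSpace 𝕜 (Fin θ.n)) ∞)
    (Phi (𝕜 := 𝕜))

end pre

@[simp] lemma add_apply (x y : JX 𝕜) (t : Node) : (x + y) t = x t + y t := rfl
@[simp] lemma sub_apply (x y : JX 𝕜) (t : Node) : (x - y) t = x t - y t := rfl
@[simp] lemma neg_apply (x : JX 𝕜) (t : Node) : (-x) t = -(x t) := rfl
@[simp] lemma smul_apply (c : 𝕜) (x : JX 𝕜) (t : Node) : (c • x) t = c * x t := rfl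
@[simp] lemma zero_apply (t : Node) : (0 : JX 𝕜) t = 0 := rfl

/-- Evaluation at a node as a linear map. -/
def evalₗ (t : Node) : JX 𝕜 →ₗ[𝕜] 𝕜 where
  toFun x := x t
  map_add' _ _ := rfl
  map_smul' _ _ := rfl

@[simp] lemma sum_apply {ι : Type*} (s : Finset ι) (f : ι → JX 𝕜) (t : Node) :
    (∑ i ∈ s, f i) t = ∑ i ∈ s, f i t :=
  map_sum (evalₗ (𝕜 := 𝕜) t) f s

lemma norm_def (x : JX 𝕜) : ‖x‖ = ‖Phi x‖ := rfl

lemma norm_vec_sq (θ : Fam) (x : Node → 𝕜) :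
    ‖vec 𝕜 θ x‖ ^ 2 = ∑ i, ‖∑ t ∈ θ.S i, x t‖ ^ 2 := by
  rw [EuclideanSpace.norm_sq_eq]
  rfl

lemma norm_vec_le (x : JX 𝕜) (θ : Fam) : ‖vec 𝕜 θ x‖ ≤ ‖x‖ := by
  rw [norm_def, ← Phi_apply]
  exact lp.norm_apply_le_norm ENNReal.top_ne_zero (Phi x) θ

lemma norm_le_of_vec {x : JX 𝕜} {C : ℝ} (hC : 0 ≤ C) (h : ∀ θ : Fam, ‖vec 𝕜 θ x‖ ≤ C) :
    ‖x‖ ≤ C := by
  rw [norm_def]
  exact lp.norm_le_of_forall_le hC h

/-- The sum of squares over a family is at most the square of the norm. -/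
lemma fam_le (x : JX 𝕜) (θ : Fam) : ∑ i, ‖∑ t ∈ θ.S i, x t‖ ^ 2 ≤ ‖x‖ ^ 2 := by
  rw [← norm_vec_sq]
  exact pow_le_pow_left₀ (norm_nonneg _) (norm_vec_le x θ) 2

/-- The same bound for families indexed by a finset. -/
lemma sum_sq_le {ι : Type*} (x : JX 𝕜) (s : Finset ι) (S : ι → Finset Node)
    (hseg : ∀ i ∈ s, IsSeg (S i)) (hd : ∀ i ∈ s, ∀ j ∈ s, i ≠ j → Disjoint (S i) (S j)) :
    ∑ i ∈ s, ‖∑ t ∈ S i, x t‖ ^ 2 ≤ ‖x‖ ^ 2 := by
  classical
  let e := s.equivFin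
  let θ : Fam :=
    { n := s.card
      S := fun i => S (e.symm i)
      seg := fun i => hseg _ (e.symm i).2
      disj := fun i j hij => hd _ (e.symm i).2 _ (e.symm j).2 (fun h => hij (by
        have := Subtype.ext h
        simpa using this)) }
  have h1 := fam_le x θ
  have h2 : ∑ i ∈ s, ‖∑ t ∈ S i, x t‖ ^ 2 = ∑ i : Fin θ.n, ‖∑ t ∈ θ.S i, x t‖ ^ 2 := by
    rw [← Finset.sum_coe_sort s (fun i => ‖∑ t ∈ S i, x t‖ ^ 2)]
    exact (Equiv.sum_comp e.symm (fun i : s => ‖∑ t ∈ S i, x t‖ ^ 2)).symm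
  rw [h2]
  exact h1

lemma norm_seg_le (x : JX 𝕜) {S : Finset Node} (h : IsSeg S) : ‖∑ t ∈ S, x t‖ ≤ ‖x‖ := by
  have := sum_sq_le x (Finset.univ : Finset Unit) (fun _ => S) (fun _ _ => h)
    (fun _ _ _ _ hij => absurd rfl hij)
  simp only [Finset.univ_unique, Finset.sum_const, Finset.card_singleton, one_smul] at this
  exact le_of_sq_le_sq this (norm_nonneg x)

lemma norm_apply_le (x : JX 𝕜) (t : Node) : ‖x t‖ ≤ ‖x‖ := by
  simpa using norm_seg_le x (isSeg_singleton t)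

lemma norm_le_iff {x : JX 𝕜} {C : ℝ} (hC : 0 ≤ C) :
    ‖x‖ ≤ C ↔ ∀ θ : Fam, ∑ i, ‖∑ t ∈ θ.S i, x t‖ ^ 2 ≤ C ^ 2 := by
  constructor
  · intro h θ
    exact (fam_le x θ).trans (pow_le_pow_left₀ (norm_nonneg _) h 2)
  · intro h
    refine norm_le_of_vec hC fun θ => ?_
    have := h θ
    rw [← norm_vec_sq] at this
    exact le_of_sq_le_sq this hC

/-- Build an element from a function with bounded family sums. -/
noncomputable def mkJX (x : Node → 𝕜) (C : ℝ) (hC : 0 ≤ C)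
    (h : ∀ θ : Fam, ∑ i, ‖∑ t ∈ θ.S i, x t‖ ^ 2 ≤ C ^ 2) : JX 𝕜 :=
  ⟨x, memℓp_infty ⟨C, by
    rintro _ ⟨θ, rfl⟩
    have := h θ
    rw [← norm_vec_sq] at this
    exact le_of_sq_le_sq this hC⟩⟩

@[simp] lemma mkJX_apply (x : Node → 𝕜) (C : ℝ) (hC : 0 ≤ C)
    (h : ∀ θ : Fam, ∑ i, ‖∑ t ∈ θ.S i, x t‖ ^ 2 ≤ C ^ 2) (t : Node) :
    mkJX x C hC h t = x t := rfl

lemma norm_mkJX_le (x : Node → 𝕜) (C : ℝ) (hC : 0 ≤ C)
    (h : ∀ θ : Fam, ∑ i, ‖∑ t ∈ θ.S i, x t‖ ^ 2 ≤ C ^ 2) : ‖mkJX x C hC h‖ ≤ C :=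
  (norm_le_iff hC).mpr h

/-- The space is complete. -/
instance : CompleteSpace (JX 𝕜) := by
  refine Metric.complete_of_cauchySeq_tendsto fun u hu => ?_
  have hev : ∀ t, ∃ a, Filter.Tendsto (fun n => u n t) Filter.atTop (nhds a) := by
    intro t
    apply cauchySeq_tendsto_of_complete
    rw [Metric.cauchySeq_iff'] at hu ⊢
    intro ε hε
    obtain ⟨N, hN⟩ := hu ε hε
    refine ⟨N, fun n hn => lt_of_le_of_lt ?_ (hN n hn)⟩
    rw [dist_eq_norm, dist_eq_norm, ← sub_apply]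
    exact norm_apply_le _ t
  choose x hx using hev
  have hvec : ∀ θ : Fam, Filter.Tendsto (fun n => ∑ i, ‖∑ t ∈ θ.S i, u n t‖ ^ 2) Filter.atTop
      (nhds (∑ i, ‖∑ t ∈ θ.S i, x t‖ ^ 2)) := by
    intro θ
    refine tendsto_finsetSum _ fun i _ => ?_
    exact ((tendsto_finsetSum _ fun t _ => hx t).norm).pow 2
  obtain ⟨C, hC⟩ := (hu.isBounded_range).exists_norm_le
  have hC0 : 0 ≤ C := (norm_nonneg (u 0)).trans (hC _ ⟨0, rfl⟩)
  have hb : ∀ θ : Fam, ∑ i, ‖∑ t ∈ θ.S i, x t‖ ^ 2 ≤ C ^ 2 := by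
    intro θ
    refine le_of_tendsto (hvec θ) (Filter.Eventually.of_forall fun n => ?_)
    exact (fam_le (u n) θ).trans (pow_le_pow_left₀ (norm_nonneg _) (hC _ ⟨n, rfl⟩) 2)
  refine ⟨mkJX x C hC0 hb, ?_⟩
  rw [Metric.tendsto_atTop]
  intro ε hε
  rw [Metric.cauchySeq_iff] at hu
  obtain ⟨N, hN⟩ := hu (ε / 2) (half_pos hε)
  refine ⟨N, fun n hn => ?_⟩
  rw [dist_eq_norm]
  refine lt_of_le_of_lt ?_ (half_lt_self hε)
  rw [norm_le_iff (half_pos hε).le]
  intro θ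
  have h1 : Filter.Tendsto (fun m => ∑ i, ‖∑ t ∈ θ.S i, (u n t - u m t)‖ ^ 2) Filter.atTop
      (nhds (∑ i, ‖∑ t ∈ θ.S i, (u n t - x t)‖ ^ 2)) := by
    refine tendsto_finsetSum _ fun i _ => ?_
    exact ((tendsto_finsetSum _ fun t _ => tendsto_const_nhds.sub (hx t)).norm).pow 2
  refine le_of_tendsto h1 ?_
  filter_upwards [Filter.eventually_ge_atTop N] with m hm
  have h2 := fam_le (u n - u m) θ
  refine h2.trans (pow_le_pow_left₀ (norm_nonneg _) ?_ 2)
  rw [← dist_eq_norm]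
  exact (hN n hn m hm).le

/-- The unit vectors. -/
noncomputable def e (t : Node) : JX 𝕜 :=
  mkJX (Pi.single t 1) 1 zero_le_one (by
    intro θ
    classical
    have h1 : ∀ i, ‖∑ s ∈ θ.S i, (Pi.single t (1:𝕜) : Node → 𝕜) s‖ ^ 2
        = if t ∈ θ.S i then 1 else 0 := by
      intro i
      simp only [Pi.single_apply]
      rw [Finset.sum_ite_eq']
      split_ifs <;> simp
    simp only [h1]
    rw [Finset.sum_ite, Finset.sum_const_zero, add_zero, Finset.sum_const, nsmul_eq_mul, mul_one,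
      one_pow]
    norm_cast
    rw [Finset.card_le_one]
    intro i hi j hj
    rw [Finset.mem_filter] at hi hj
    by_contra hij
    exact Finset.disjoint_left.mp (θ.disj i j hij) hi.2 hj.2)

lemma e_apply (t s : Node) : (e t : JX 𝕜) s = if s = t then 1 else 0 := by
  simp [e, Pi.single_apply]

@[simp] lemma e_apply_self (t : Node) : (e t : JX 𝕜) t = 1 := by simp [e_apply]

lemma e_apply_ne {t s : Node} (h : s ≠ t) : (e t : JX 𝕜) s = 0 := by simp [e_apply, h]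

lemma norm_e_le (t : Node) : ‖(e t : JX 𝕜)‖ ≤ 1 := norm_mkJX_le _ _ _ _

@[simp] lemma norm_e (t : Node) : ‖(e t : JX 𝕜)‖ = 1 := by
  refine le_antisymm (norm_e_le t) ?_
  have := norm_apply_le (e t : JX 𝕜) t
  simpa using this

/-- Finite truncation. -/
noncomputable def trunc (G : Finset Node) (x : JX 𝕜) : JX 𝕜 := ∑ t ∈ G, x t • e t

lemma trunc_apply (G : Finset Node) (x : JX 𝕜) (s : Node) :
    trunc G x s = if s ∈ G then x s else 0 := by
  classical
  simp only [trunc, sum_apply, smul_apply, e_apply, mul_ite, mul_one, mul_zero]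
  rw [Finset.sum_ite_eq]

end defs

end Pool.Agent.Hhelper24.JT
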