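import Pool.Agent.Hhelper24.JT.Diag

/-!
# Stabilization of the diagonal
-/

set_option autoImplicit false
set_option maxSynthPendingDepth 3

open scoped ENNReal Topology
open Filter

namespace Pool.Agent.Hhelper24.JT

open Node

variable {𝕜 : Type*} [RCLike 𝕜]

lemma dense_split {ι : Type*} (d : Node → 𝕜) (K : Set 𝕜) (B : ι → Set 𝕜) (s : Finset ι) :
    ∀ u, (∀ v, u ≤ v → ∃ w, v ≤ w ∧ ∃ j ∈ s, d w ∈ K ∩ B j) →
      ∃ j ∈ s, ∃ v, u ≤ v ∧ ∀ v', v ≤ v' → ∃ w, v' ≤ w ∧ d w ∈ K ∩ B j := by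
  classical
  induction s using Finset.induction_on with
  | empty =>
    intro u h
    obtain ⟨w, -, j, hj, -⟩ := h u le_rfl
    exact absurd hj (Finset.notMem_empty j)
  | insert j s _ ih =>
    intro u h
    by_cases hj : ∃ v, u ≤ v ∧ ∀ v', v ≤ v' → ∃ w, v' ≤ w ∧ d w ∈ K ∩ B j
    · exact ⟨j, Finset.mem_insert_self _ _, hj⟩
    · push Not at hj
      obtain ⟨v₀, hv₀, hv₀'⟩ := hj u le_rfl
      obtain ⟨i, hi, v, hv, hv'⟩ := ih v₀ (by
        intro v hv
        obtain ⟨w, hw, i, hi, hdw⟩ := h v (hv₀.trans hv)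
        rw [Finset.mem_insert] at hi
        rcases hi with rfl | hi
        · exact absurd hdw (hv₀' w (hv.trans hw))
        · exact ⟨w, hw, i, hi, hdw⟩)
      exact ⟨i, Finset.mem_insert_of_mem hi, v, hv₀.trans hv, hv'⟩

lemma exists_step (d : Node → 𝕜) {R : ℝ} (hd : ∀ t, ‖d t‖ ≤ R) (u : Node) (K : Set 𝕜) (r : ℝ) :
    ∃ (v : Node) (K' : Set 𝕜), 0 < r → (∀ v, u ≤ v → ∃ w, v ≤ w ∧ d w ∈ K) →
      u ≤ v ∧ K' ⊆ K ∧ d v ∈ K' ∧ (∀ v', v ≤ v' → ∃ w, v' ≤ w ∧ d w ∈ K') ∧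
      ∀ z ∈ K', ∀ z' ∈ K', ‖z - z'‖ ≤ r := by
  by_cases hr : 0 < r
  swap
  · exact ⟨u, K, fun h => absurd h hr⟩
  by_cases hK : ∀ v, u ≤ v → ∃ w, v ≤ w ∧ d w ∈ K
  swap
  · exact ⟨u, K, fun _ h => absurd h hK⟩
  obtain ⟨t, -, htfin, hcov⟩ :=
    (isCompact_closedBall (0:𝕜) R).finite_cover_balls (half_pos hr)
  obtain ⟨j, -, v, hv, hv'⟩ := dense_split d K (fun x => Metric.ball x (r / 2)) htfin.toFinset u (by
    intro v hv
    obtain ⟨w, hw, hdw⟩ := hK v hv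
    have h1 : d w ∈ Metric.closedBall (0:𝕜) R := by
      rw [mem_closedBall_zero_iff]; exact hd w
    have h2 := hcov h1
    rw [Set.mem_iUnion₂] at h2
    obtain ⟨x, hx, hwx⟩ := h2
    exact ⟨w, hw, x, htfin.mem_toFinset.mpr hx, hdw, hwx⟩)
  obtain ⟨w, hw, hdw⟩ := hv' v le_rfl
  refine ⟨w, K ∩ Metric.ball j (r / 2), fun _ _ => ⟨hv.trans hw, Set.inter_subset_left, hdw,
    fun v' hv'' => hv' v' (hw.trans hv''), ?_⟩⟩
  intro z hz z' hz'
  have h1 := hz.2
  have h2 := hz'.2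
  rw [Metric.mem_ball, dist_eq_norm] at h1 h2
  have h3 : z - z' = (z - j) - (z' - j) := by ring
  rw [h3]
  refine (norm_sub_le _ _).trans ?_
  linarith

/-- The recursion defining the stabilizing embedding. -/
def stab (V : Node → Set 𝕜 → ℝ → Node) (KK : Node → Set 𝕜 → ℝ → Set 𝕜) (ρ : ℕ → ℝ) :
    Node → Node × Set 𝕜
  | root k => (V (root k) Set.univ (ρ 0), KK (root k) Set.univ (ρ 0))
  | child t k => (V (child (stab V KK ρ t).1 k) (stab V KK ρ t).2 (ρ (t.level + 1)),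
      KK (child (stab V KK ρ t).1 k) (stab V KK ρ t).2 (ρ (t.level + 1)))

/-- The label function forgetting the parents. -/
def lastLabel : Node → ℕ
  | root k => k
  | child _ k => k

/-- Stabilization of a bounded function on the forest. -/
theorem exists_stable (d : Node → 𝕜) {R : ℝ} (hd : ∀ t, ‖d t‖ ≤ R) (ρ : ℕ → ℝ)
    (hρ : ∀ n, 0 < ρ n) :
    ∃ Ψ : TreeEmb, ∀ s t, s ≤ t → ‖d (Ψ.φ t) - d (Ψ.φ s)‖ ≤ ρ s.level := by
  choose V KK hVK using exists_step d hd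
  have key : ∀ t, (∀ v', (stab V KK ρ t).1 ≤ v' → ∃ w, v' ≤ w ∧ d w ∈ (stab V KK ρ t).2) ∧
      d (stab V KK ρ t).1 ∈ (stab V KK ρ t).2 ∧
      ∀ z ∈ (stab V KK ρ t).2, ∀ z' ∈ (stab V KK ρ t).2, ‖z - z'‖ ≤ ρ t.level := by
    intro t
    induction t with
    | root k =>
      obtain ⟨-, -, h3, h4, h5⟩ := hVK (root k) Set.univ (ρ 0) (hρ 0)
        (fun v _ => ⟨v, le_rfl, trivial⟩)
      exact ⟨h4, h3, h5⟩
    | child t k ih =>
      obtain ⟨-, -, h3, h4, h5⟩ := hVK (child (stab V KK ρ t).1 k) (stab V KK ρ t).2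
        (ρ (t.level + 1)) (hρ _) (fun v hv => ih.1 v ((self_le_child _ _).trans hv))
      exact ⟨h4, h3, h5⟩
  have hroot : ∀ k, root k ≤ (stab V KK ρ (root k)).1 := fun k =>
    (hVK (root k) Set.univ (ρ 0) (hρ 0) (fun v _ => ⟨v, le_rfl, trivial⟩)).1
  have hchild : ∀ t k, child (stab V KK ρ t).1 k ≤ (stab V KK ρ (child t k)).1 ∧
      (stab V KK ρ (child t k)).2 ⊆ (stab V KK ρ t).2 := by
    intro t k
    obtain ⟨h1, h2, -⟩ := hVK (child (stab V KK ρ t).1 k) (stab V KK ρ t).2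
      (ρ (t.level + 1)) (hρ _) (fun v hv => (key t).1 v ((self_le_child _ _).trans hv))
    exact ⟨h1, h2⟩
  have hsub : ∀ s t, s ≤ t → (stab V KK ρ t).2 ⊆ (stab V KK ρ s).2 := by
    intro s t
    induction t with
    | root k => intro h; rw [le_root.mp h]
    | child t k ih =>
      intro h
      rcases le_child.mp h with rfl | h
      · exact subset_rfl
      · exact (hchild t k).2.trans (ih h)
  refine ⟨{ φ := fun t => (stab V KK ρ t).1
            κ := lastLabel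
            root_le := hroot
            child_le := fun t k => (hchild t k).1
            inj_root := fun k k' h => h
            inj_child := fun t k k' h => h }, fun s t hst => ?_⟩
  exact (key s).2.2 _ (hsub s t hst (key t).2.1) _ (key s).2.1

/-- The ancestor at level `j`. -/
def anc (j : ℕ) : Node → Node
  | root k => root k
  | child t k => if j ≤ t.level then anc j t else child t k

lemma anc_le (j : ℕ) (t : Node) : anc j t ≤ t := by
  induction t with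
  | root k => exact le_rfl
  | child t k ih =>
    simp only [anc]
    split_ifs
    · exact ih.trans (self_le_child t k)
    · exact le_rfl

lemma level_anc (j : ℕ) (t : Node) (h : j ≤ t.level) : (anc j t).level = j := by
  induction t with
  | root k => simp only [level] at h; simp only [anc, level]; omega
  | child t k ih =>
    simp only [anc]
    split_ifs with h1
    · exact ih h1
    · simp only [level] at h ⊢; omega

lemma anc_eq_of_le {j : ℕ} {s t : Node} (hst : s ≤ t) (h : j ≤ s.level) : anc j s = anc j t :=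
  eq_of_le_of_le_of_level ((anc_le j s).trans hst) (anc_le j t) (by
    rw [level_anc j s h, level_anc j t (h.trans (level_mono hst))])

lemma anc_level (t : Node) : anc t.level t = t :=
  eq_of_le_of_level (anc_le _ t) (by rw [level_anc _ _ le_rfl])

lemma anc_zero (t : Node) : anc 0 t = root t.rlabel :=
  eq_of_le_of_le_of_level (anc_le 0 t) (root_rlabel_le t) (by
    rw [level_anc 0 t (Nat.zero_le _)]; rfl)

lemma anc_le_anc {i j : ℕ} (t : Node) (hij : i ≤ j) (hj : j ≤ t.level) : anc i t ≤ anc j t := by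
  rw [← anc_eq_of_le (anc_le j t) (by rw [level_anc j t hj]; exact hij)]
  exact anc_le _ _

/-- Multiplication by a function of the root label. -/
noncomputable def rootMul (μ : ℕ → 𝕜) (R : ℝ) (hR : 0 ≤ R) (h : ∀ k, ‖μ k‖ ≤ R) :
    JX 𝕜 →L[𝕜] JX 𝕜 :=
  mulOp (fun _ => True) (fun _ _ _ _ _ _ _ => trivial) (fun t => μ t.rlabel) R hR
    (fun s t _ _ hst => by rw [rlabel_eq hst]) (fun _ => h _) (fun _ h => absurd trivial h)

lemma rootMul_apply (μ : ℕ → 𝕜) (R : ℝ) (hR : 0 ≤ R) (h : ∀ k, ‖μ k‖ ≤ R) (x : JX 𝕜) (t : Node) :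
    rootMul μ R hR h x t = μ t.rlabel * x t := rfl

lemma norm_rootMul_le (μ : ℕ → 𝕜) (R : ℝ) (hR : 0 ≤ R) (h : ∀ k, ‖μ k‖ ≤ R) :
    ‖rootMul μ R hR h‖ ≤ R := norm_mulOp_le _ _ _ _ _ _ _ _

/-- The multiplier associated with one level. -/
noncomputable def levMul (m : Node → 𝕜) (ρ : ℕ → ℝ) (hρ : ∀ n, 0 ≤ ρ n)
    (hm : ∀ s t, s ≤ t → ‖m t - m s‖ ≤ ρ s.level) (j : ℕ) : JX 𝕜 →L[𝕜] JX 𝕜 :=
  mulOp (fun t => j < t.level) (conv_of_upper fun _ _ h1 h2 => lt_of_lt_of_le h1 (level_mono h2))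
    (fun t => if j < t.level then m (anc (j + 1) t) - m (anc j t) else 0) (ρ j) (hρ j)
    (fun s t hs ht hst => by
      rw [if_pos hs, if_pos ht, anc_eq_of_le hst hs, anc_eq_of_le hst (le_of_lt hs)])
    (fun t => by
      split_ifs with h
      · have h1 := hm (anc j t) (anc (j + 1) t) (anc_le_anc t (Nat.le_succ j) h)
        rwa [level_anc j t h.le] at h1
      · rw [norm_zero]; exact hρ j)
    (fun t h => if_neg h)

lemma levMul_apply (m : Node → 𝕜) (ρ : ℕ → ℝ) (hρ : ∀ n, 0 ≤ ρ n)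
    (hm : ∀ s t, s ≤ t → ‖m t - m s‖ ≤ ρ s.level) (j : ℕ) (x : JX 𝕜) (t : Node) :
    levMul m ρ hρ hm j x t =
      (if j < t.level then m (anc (j + 1) t) - m (anc j t) else 0) * x t := rfl

lemma norm_levMul_le (m : Node → 𝕜) (ρ : ℕ → ℝ) (hρ : ∀ n, 0 ≤ ρ n)
    (hm : ∀ s t, s ≤ t → ‖m t - m s‖ ≤ ρ s.level) (j : ℕ) :
    ‖levMul m ρ hρ hm j‖ ≤ ρ j := norm_mulOp_le _ _ _ _ _ _ _ _

/-- A diagonal operator with slowly varying entries is close to a root multiplier. -/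
lemma norm_sub_rootMul_le (T : JX 𝕜 →L[𝕜] JX 𝕜) (m : Node → 𝕜) (hT : ∀ t, T (e t) = m t • e t)
    (ρ : ℕ → ℝ) (hρ : ∀ n, 0 ≤ ρ n) {a : ℝ} (ha : HasSum ρ a)
    (hm : ∀ s t, s ≤ t → ‖m t - m s‖ ≤ ρ s.level) (R : ℝ) (hR : 0 ≤ R)
    (h : ∀ k, ‖m (root k)‖ ≤ R) : ‖T - rootMul (fun k => m (root k)) R hR h‖ ≤ a := by
  have hs : Summable (levMul m ρ hρ hm) :=
    Summable.of_norm_bounded ha.summable (norm_levMul_le m ρ hρ hm)
  have heq : T - rootMul (fun k => m (root k)) R hR h = ∑' j, levMul m ρ hρ hm j := by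
    apply clm_ext
    intro t
    apply JX.ext
    intro s
    let ψ : (JX 𝕜 →L[𝕜] JX 𝕜) →L[𝕜] 𝕜 := (δ s).comp (ContinuousLinearMap.apply 𝕜 (JX 𝕜) (e t))
    have h1 : HasSum (fun j => ψ (levMul m ρ hρ hm j)) (ψ (∑' j, levMul m ρ hρ hm j)) :=
      hs.hasSum.mapL ψ
    have h2 : HasSum (fun j => ψ (levMul m ρ hρ hm j))
        (∑ j ∈ Finset.range s.level, ψ (levMul m ρ hρ hm j)) := by
      refine hasSum_sum_of_ne_finset_zero fun j hj => ?_
      rw [Finset.mem_range] at hj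
      change levMul m ρ hρ hm j (e t) s = 0
      rw [levMul_apply, if_neg hj, zero_mul]
    have h3 := h1.unique h2
    change (∑' j, levMul m ρ hρ hm j) (e t) s = _ at h3
    rw [h3]
    have h4 : ∀ j ∈ Finset.range s.level, ψ (levMul m ρ hρ hm j) =
        (m (anc (j + 1) s) - m (anc j s)) * (e t : JX 𝕜) s := by
      intro j hj
      rw [Finset.mem_range] at hj
      change levMul m ρ hρ hm j (e t) s = _
      rw [levMul_apply, if_pos hj]
    rw [Finset.sum_congr rfl h4, ← Finset.sum_mul,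
      Finset.sum_range_sub (fun j => m (anc j s)), anc_level, anc_zero]
    rw [_root_.sub_apply, sub_apply, hT, rootMul_apply, smul_apply]
    by_cases hst : s = t
    · subst hst; ring
    · rw [e_apply_ne hst]; ring
  rw [heq]
  exact tsum_of_norm_bounded ha (norm_levMul_le m ρ hρ hm)

/-- Compression to an almost root multiplier. -/
theorem exists_root_diag (P : JX 𝕜 →L[𝕜] JX 𝕜) {ε : ℝ} (hε : 0 < ε) :
    ∃ (C E : JX 𝕜 →L[𝕜] JX 𝕜) (μ : ℕ → 𝕜) (hμ : ∀ k, ‖μ k‖ ≤ ‖P‖), (∀ x, C (E x) = x) ∧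
      ‖C.comp (P.comp E) - rootMul μ ‖P‖ (norm_nonneg P) hμ‖ ≤ ε := by
  obtain ⟨C, E, D, d, h1, h2, h3, h4, h5, h6⟩ := exists_almost_diag P (half_pos hε)
  have hρ : ∀ n : ℕ, 0 < ε / 2 / 2 / 2 ^ n := fun n => by positivity
  obtain ⟨Ψ, hΨ⟩ := exists_stable d h5 (fun n => ε / 2 / 2 / 2 ^ n) hρ
  have ha : HasSum (fun n : ℕ => ε / 2 / 2 / 2 ^ n) (ε / 2) := hasSum_geometric_two' (ε / 2)
  let T : JX 𝕜 →L[𝕜] JX 𝕜 := (colOp Ψ).comp (D.comp (embOp Ψ))
  have hT : ∀ t, T (e t) = d (Ψ.φ t) • e t := by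
    intro t
    change colOp Ψ (D (embOp Ψ (e t))) = _
    rw [embOp_e, h4, map_smul, colOp_e Ψ (Ψ.phi_mem_J t)]
  have hd : ∀ k, ‖d (Ψ.φ (root k))‖ ≤ ‖P‖ := fun k => h5 _
  refine ⟨(colOp Ψ).comp C, E.comp (embOp Ψ), fun k => d (Ψ.φ (root k)), hd, ?_, ?_⟩
  · intro x
    change colOp Ψ (C (E (embOp Ψ x))) = x
    rw [h1, colOp_embOp]
  · have h7 := norm_sub_rootMul_le T (fun t => d (Ψ.φ t)) hT (fun n => ε / 2 / 2 / 2 ^ n)
      (fun n => (hρ n).le) ha hΨ ‖P‖ (norm_nonneg P) hd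
    have h8 : ((colOp Ψ).comp C).comp (P.comp (E.comp (embOp Ψ))) -
        rootMul (fun k => d (Ψ.φ (root k))) ‖P‖ (norm_nonneg P) hd =
        (colOp Ψ).comp ((C.comp (P.comp E) - D).comp (embOp Ψ)) +
        (T - rootMul (fun k => d (Ψ.φ (root k))) ‖P‖ (norm_nonneg P) hd) := by
      ext1 x
      simp [T]
    rw [h8]
    refine (norm_add_le _ _).trans ?_
    have h9 : ‖(colOp Ψ).comp ((C.comp (P.comp E) - D).comp (embOp Ψ))‖ ≤ ε / 2 := by
      calc ‖(colOp Ψ).comp ((C.comp (P.comp E) - D).comp (embOp Ψ))‖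
          ≤ ‖colOp Ψ‖ * (‖C.comp (P.comp E) - D‖ * ‖embOp Ψ‖) :=
            (ContinuousLinearMap.opNorm_comp_le _ _).trans
              (mul_le_mul_of_nonneg_left (ContinuousLinearMap.opNorm_comp_le _ _) (norm_nonneg _))
        _ ≤ 1 * (ε / 2 * 1) := by
            refine mul_le_mul (norm_colOp_le Ψ) ?_ (by positivity) zero_le_one
            exact mul_le_mul h6 (norm_embOp_le Ψ) (norm_nonneg _) (by positivity)
        _ = ε / 2 := by ring
    linarith

end Pool.Agent.Hhelper24.JT
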